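import Pool.Agent.FinslerRigid.Density

/-!
# Lipschitz maps on measurable sets: extension, injective pieces, null sets
-/

open MeasureTheory Set Filter Topology Asymptotics Metric
open scoped NNReal ENNReal

namespace FinslerRigid

variable {k : ℕ} {C : ℝ≥0}

/-- the derivative of a Lipschitz extension is almost everywhere the derivative within `K` -/
theorem ae_fderivWithin_eq_of_eqOn {F : Type*} [NormedAddCommGroup F] [NormedSpace ℝ F]
    [FiniteDimensional ℝ F]
    {K : Set (Rk k)} {u v : Rk k → F} (hv : LipschitzWith C v) (he : EqOn u v K)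
    (hK : MeasurableSet K) :
    ∀ᵐ x ∂(volume.restrict K), DifferentiableAt ℝ v x ∧ HasFDerivWithinAt u (fderiv ℝ v x) K x ∧
      fderivWithin ℝ u K x = fderiv ℝ v x := by
  filter_upwards [ae_isDP K, ae_restrict_mem hK,
    ae_restrict_of_ae (hv.ae_differentiableAt (μ := (volume : Measure (Rk k))))] with x h1 h2 h3
  have h4 : HasFDerivWithinAt u (fderiv ℝ v x) K x :=
    (h3.hasFDerivAt.hasFDerivWithinAt (s := K)).congr he (he h2)
  exact ⟨h3, h4, h4.fderivWithin h1.uniqueDiffWithinAt⟩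

theorem ae_fderivWithin_subset {F : Type*} [NormedAddCommGroup F] [NormedSpace ℝ F]
    [FiniteDimensional ℝ F] {K K' : Set (Rk k)} {u : Rk k → F} (hu : LipschitzOnWith C u K)
    (hK : MeasurableSet K) (hsub : K' ⊆ K) :
    ∀ᵐ x ∂(volume.restrict K'), HasFDerivWithinAt u (fderivWithin ℝ u K x) K x ∧
      fderivWithin ℝ u K' x = fderivWithin ℝ u K x := by
  have h1 : ∀ᵐ x ∂(volume.restrict K'), DifferentiableWithinAt ℝ u K x :=
    ae_restrict_of_ae_restrict_of_subset hsub (hu.ae_differentiableWithinAt hK)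
  filter_upwards [ae_isDP K', h1] with x h2 h3
  refine ⟨h3.hasFDerivWithinAt, ?_⟩
  exact (h3.hasFDerivWithinAt.mono hsub).fderivWithin h2.uniqueDiffWithinAt

theorem measurable_det_fderiv {v : Rk k → Rk k} :
    Measurable fun x => (fderiv ℝ v x).det :=
  ContinuousLinearMap.continuous_det.measurable.comp (measurable_fderiv ℝ v)

/-- decomposition of the regular part of a Lipschitz map into injective pieces -/
theorem exists_injective_pieces {F : Rk k → Rk k} (hF : LipschitzWith C F) {K : Set (Rk k)}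
    (hK : MeasurableSet K) :
    ∃ t : ℕ → Set (Rk k), (∀ n, MeasurableSet (t n)) ∧ Pairwise (fun i j => Disjoint (t i) (t j)) ∧
      (∀ n, t n ⊆ K) ∧ (∀ n, InjOn F (t n)) ∧
      (∀ n, ∀ x ∈ t n, DifferentiableAt ℝ F x ∧ (fderiv ℝ F x).det ≠ 0) ∧
      (∀ᵐ x ∂(volume.restrict K), x ∉ ⋃ n, t n → (fderiv ℝ F x).det = 0) := by
  classical
  set s : Set (Rk k) := {x | x ∈ K ∧ DifferentiableAt ℝ F x ∧ (fderiv ℝ F x).det ≠ 0} with hs
  have hsm : MeasurableSet s :=
    hK.inter ((measurableSet_of_differentiableAt ℝ F).inter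
      (measurableSet_eq_fun measurable_det_fderiv measurable_const).compl)
  have hf' : ∀ x ∈ s, HasFDerivWithinAt F (fderiv ℝ F x) s x := fun x hx =>
    hx.2.1.hasFDerivAt.hasFDerivWithinAt
  set r : (Rk k →L[ℝ] Rk k) → ℝ≥0 := fun A =>
    if h : A.det ≠ 0 then
      (if ‖((A.toContinuousLinearEquivOfDetNeZero h).symm : Rk k →L[ℝ] Rk k)‖₊ = 0 then 1 else
        ‖((A.toContinuousLinearEquivOfDetNeZero h).symm : Rk k →L[ℝ] Rk k)‖₊⁻¹ / 2)
    else 1 with hr
  have hr0 : ∀ A, r A ≠ 0 := by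
    intro A
    rw [hr]
    dsimp only
    split_ifs with h1 h2
    · exact one_ne_zero
    · exact div_ne_zero (inv_ne_zero h2) two_ne_zero
    · exact one_ne_zero
  obtain ⟨t, A, hdisj, hmeas, hcov, happ, hA⟩ :=
    exists_partition_approximatesLinearOn_of_hasFDerivWithinAt F s (fun x => fderiv ℝ F x) hf' r hr0
  refine ⟨fun n => s ∩ t n, fun n => hsm.inter (hmeas n), ?_, ?_, ?_, ?_, ?_⟩
  · intro i j hij
    exact (hdisj hij).mono inter_subset_right inter_subset_right
  · exact fun n x hx => hx.1.1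
  · intro n
    rcases s.eq_empty_or_nonempty with h0 | h0
    · simp [h0]
    obtain ⟨y, hy, hAy⟩ := hA h0 n
    have hdet : (A n).det ≠ 0 := by rw [hAy]; exact hy.2.2
    set e := (A n).toContinuousLinearEquivOfDetNeZero hdet with he
    have hrA : r (A n) = if ‖(e.symm : Rk k →L[ℝ] Rk k)‖₊ = 0 then 1 else
        ‖(e.symm : Rk k →L[ℝ] Rk k)‖₊⁻¹ / 2 := by
      rw [hr]; dsimp only; rw [dif_pos hdet]
    have happ' : ApproximatesLinearOn F (e : Rk k →L[ℝ] Rk k) (s ∩ t n) (r (A n)) := by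
      rw [he, ContinuousLinearMap.coe_toContinuousLinearEquivOfDetNeZero]
      exact happ n
    refine happ'.injOn ?_
    by_cases hz : ‖(e.symm : Rk k →L[ℝ] Rk k)‖₊ = 0
    · left
      have h1 : (e.symm : Rk k →L[ℝ] Rk k) = 0 := by simpa using hz
      refine ⟨fun a b => ?_⟩
      have h2 : ∀ a : Rk k, a = 0 := fun a => by
        have : e.symm (e a) = (e.symm : Rk k →L[ℝ] Rk k) (e a) := rfl
        rw [e.symm_apply_apply, h1] at this
        simpa using this
      rw [h2 a, h2 b]
    · right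
      rw [hrA, if_neg hz]
      exact NNReal.half_lt_self (inv_ne_zero hz)
  · exact fun n x hx => ⟨hx.1.2.1, hx.1.2.2⟩
  · filter_upwards [ae_restrict_mem hK,
      ae_restrict_of_ae (hF.ae_differentiableAt (μ := (volume : Measure (Rk k))))] with x h1 h2 h3
    by_contra h4
    refine h3 ?_
    have hxs : x ∈ s := ⟨h1, h2, h4⟩
    obtain ⟨n, hn⟩ := mem_iUnion.1 (hcov hxs)
    exact mem_iUnion.2 ⟨n, hxs, hn⟩

/-- the preimage of a null set carries no Jacobian -/
theorem ae_det_eq_zero_of_mem_preimage_null {F : Rk k → Rk k} (hF : LipschitzWith C F)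
    {K : Set (Rk k)} (hK : MeasurableSet K) {N : Set (Rk k)} (hN : volume N = 0) :
    ∀ᵐ x ∂(volume.restrict K), F x ∈ N → (fderiv ℝ F x).det = 0 := by
  set N' := toMeasurable volume N with hN'
  have hN'0 : volume N' = 0 := by rw [hN', measure_toMeasurable, hN]
  have hN'm : MeasurableSet N' := measurableSet_toMeasurable _ _
  obtain ⟨t, htm, -, htK, htinj, htd, hae⟩ := exists_injective_pieces hF hK
  have hnull : ∀ n, volume (t n ∩ F ⁻¹' N') = 0 := by
    intro n
    have hm : MeasurableSet (t n ∩ F ⁻¹' N') := (htm n).inter (hF.continuous.measurable hN'm)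
    have h1 := lintegral_abs_det_fderiv_eq_addHaar_image volume hm
      (f := F) (f' := fun x => fderiv ℝ F x)
      (fun x hx => (htd n x hx.1).1.hasFDerivAt.hasFDerivWithinAt)
      ((htinj n).mono inter_subset_left)
    have h2 : volume (F '' (t n ∩ F ⁻¹' N')) = 0 := by
      refine measure_mono_null ?_ hN'0
      rintro _ ⟨x, hx, rfl⟩
      exact hx.2
    rw [h2, setLIntegral_eq_zero_iff hm (by
      exact (ENNReal.measurable_ofReal.comp measurable_det_fderiv.abs))] at h1
    rw [measure_eq_zero_iff_ae_notMem]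
    filter_upwards [h1] with x hx hmem
    have := hx hmem
    rw [ENNReal.ofReal_eq_zero] at this
    exact (htd n x hmem.1).2 (abs_eq_zero.1 (le_antisymm this (abs_nonneg _)))
  have hall : ∀ᵐ x : Rk k, ∀ n, x ∉ t n ∩ F ⁻¹' N' :=
    ae_all_iff.2 fun n => measure_eq_zero_iff_ae_notMem.1 (hnull n)
  filter_upwards [hae, ae_restrict_of_ae hall] with x h1 h2 h3
  refine h1 fun hmem => ?_
  obtain ⟨n, hn⟩ := mem_iUnion.1 hmem
  exact h2 n ⟨hn, subset_toMeasurable _ _ h3⟩

/-- version for maps Lipschitz on `K` only -/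
theorem ae_det_fderivWithin_eq_zero_of_mem_null {F : Rk k → Rk k} {K : Set (Rk k)}
    (hF : LipschitzOnWith C F K) (hK : MeasurableSet K) {N : Set (Rk k)} (hN : volume N = 0) :
    ∀ᵐ x ∂(volume.restrict K), F x ∈ N → (fderivWithin ℝ F K x).det = 0 := by
  obtain ⟨G, hG, he⟩ := hF.extend_pi
  filter_upwards [ae_det_eq_zero_of_mem_preimage_null hG hK hN, ae_restrict_mem hK,
    ae_fderivWithin_eq_of_eqOn hG he hK] with x h1 h2 h3 h4
  rw [h3.2.2]
  exact h1 (by rwa [← he h2])

end FinslerRigid
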