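import Pool.Agent.FinslerRigid.Boundary

/-!
# Mass of a body and the equality case
-/

open MeasureTheory Set Filter Topology Asymptotics Metric
open scoped NNReal ENNReal

namespace FinslerRigid

variable {n : ℕ} {E : Type*} [NormedAddCommGroup E] [NormedSpace ℝ E]

/-- the norm of `E` in coordinates -/
noncomputable def coordNorm (e : E ≃L[ℝ] Rk n) : Seminorm ℝ (Rk n) :=
  (normSeminorm ℝ E).comp (e.symm : Rk n →L[ℝ] E).toLinearMap

theorem coordNorm_apply (e : E ≃L[ℝ] Rk n) (v : Rk n) : coordNorm e v = ‖e.symm v‖ := rfl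

theorem isNormLike_coordNorm (e : E ≃L[ℝ] Rk n) : IsNormLike (coordNorm e) :=
  ⟨‖(e : E →L[ℝ] Rk n)‖, fun v => by
    simpa [coordNorm_apply] using (e : E →L[ℝ] Rk n).le_opNorm (e.symm v)⟩

/-- the trivial parametrisation of a body -/
noncomputable def bodyParam (e : E ≃L[ℝ] Rk n) {Y : Set E} (hY : IsCompact Y) : LipParam n E where
  K i := if i = 0 then e '' Y else ∅
  φ _ := e.symm
  θ _ := fun _ => 1
  measurableSet_K i := by
    split_ifs
    · exact (hY.image e.continuous).isClosed.measurableSet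
    · exact MeasurableSet.empty
  measurable_θ _ := measurable_const
  lipschitz _ := ⟨_, e.symm.lipschitz.lipschitzOnWith⟩

theorem currentEq_bodyParam (e : E ≃L[ℝ] Rk n) {Y : Set E} (hY : IsCompact Y) :
    CurrentEq (integrationCurrent e Y) (bodyParam e hY).current := by
  intro h π hadm
  obtain ⟨L, hL⟩ := exists_lipschitz_pi hadm.2.2
  have hKm : MeasurableSet (e '' Y) := (hY.image e.continuous).isClosed.measurableSet
  show ∫ x in e '' Y, h (e.symm x) * (fderiv ℝ (fun y j => π j (e.symm y)) x).det =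
    ∑' i, ∫ x in (bodyParam e hY).K i, (((1 : ℤ) : ℝ)) * h (e.symm x) *
    (fderivWithin ℝ (fun y j => π j (e.symm y)) ((bodyParam e hY).K i) x).det
  rw [tsum_eq_single 0]
  · have hK0 : (bodyParam e hY).K 0 = e '' Y := by simp [bodyParam]
    rw [hK0]
    refine integral_congr_ae ?_
    filter_upwards [ae_fderivWithin_eq_of_eqOn (hL.comp e.symm.lipschitz)
      (fun x _ => rfl : EqOn (fun y j => π j (e.symm y)) _ (e '' Y)) hKm] with x hx
    rw [hx.2.2]
    simp only [Int.cast_one, one_mul]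
    rfl
  · intro i hi
    have hKi : (bodyParam e hY).K i = ∅ := by simp [bodyParam, hi]
    rw [hKi, setIntegral_empty]

theorem bodyParam_mass (e : E ≃L[ℝ] Rk n) {Y : Set E} (hY : IsCompact Y) (J : FinslerVolume) :
    (bodyParam e hY).mass J = J n (coordNorm e) * volume (e '' Y) := by
  show ∑' i, ∫⁻ x in (bodyParam e hY).K i, (((1 : ℤ).natAbs : ℝ≥0∞)) *
    J n (metricDeriv e.symm ((bodyParam e hY).K i) x) = _
  rw [tsum_eq_single 0]
  · have hK0 : (bodyParam e hY).K 0 = e '' Y := by simp [bodyParam]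
    rw [hK0, ← setLIntegral_const]
    refine lintegral_congr_ae ?_
    filter_upwards [ae_isDP (e '' Y)] with x hx
    have h1 : HasMetricDerivWithinAt (fun y => e.symm y) (coordNorm e) (e '' Y) x := by
      rw [HasMetricDerivWithinAt]
      have : (fun y => dist (e.symm y) (e.symm x) - coordNorm e (y - x)) = fun _ => (0 : ℝ) := by
        ext y
        rw [coordNorm_apply, dist_eq_norm, map_sub, sub_self]
      rw [this]
      exact isLittleO_zero _ _
    have h2 : metricDeriv e.symm (e '' Y) x = coordNorm e := h1.metricDeriv_eq hx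
    rw [h2]
    simp
  · intro i hi
    have hKi : (bodyParam e hY).K i = ∅ := by simp [bodyParam, hi]
    rw [hKi]
    simp

theorem finslerMass_body_le (e : E ≃L[ℝ] Rk n) {Y : Set E} (hY : IsCompact Y) (J : FinslerVolume) :
    finslerMass J (integrationCurrent e Y) ≤ J n (coordNorm e) * volume (e '' Y) := by
  rw [← bodyParam_mass e hY J]
  exact iInf₂_le (f := fun (R' : LipParam n E)
    (_ : CurrentEq (integrationCurrent e Y) R'.current) => R'.mass J)
    (bodyParam e hY) (currentEq_bodyParam e hY)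

variable {Z : Type*} [MetricSpace Z]

/-- the map in coordinates -/
noncomputable def coordMap (e : E ≃L[ℝ] Rk n) (f : Z → E) (z : Z) : Rk n := e (f z)

theorem lipschitz_coordMap (e : E ≃L[ℝ] Rk n) {f : Z → E} (hf : LipschitzWith 1 f) :
    LipschitzWith ‖(e : E →L[ℝ] Rk n)‖₊ (coordMap e f) := by
  have h := (e : E →L[ℝ] Rk n).lipschitz.comp hf
  rwa [mul_one] at h

/-- everything in the equality situation -/
structure Setup (J : FinslerVolume) (e : E ≃L[ℝ] Rk n) (Y : Set E) (f : Z → E)
    (T : MetricFunctional n Z) (R : LipParam n Z) : Prop where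
  hJ : IsGoodVolume J
  hY : IsCompact Y
  hf : LipschitzWith 1 f
  hpush : CurrentEq (pushforward f T) (integrationCurrent e Y)
  hinj : R.IsInjective
  hm : R.mass J < ∞
  hR : CurrentEq T R.current
  hmass : R.mass J ≤ J n (coordNorm e) * volume (e '' Y)

/-- the signed density -/
noncomputable def dens (e : E ≃L[ℝ] Rk n) (f : Z → E) (R : LipParam n Z) (q : ℕ × Rk n) : ℝ :=
  (R.Θ q : ℝ) * (R.D (coordMap e f) q).det

namespace Setup

variable {J : FinslerVolume} {e : E ≃L[ℝ] Rk n} {Y : Set E} {f : Z → E}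
  {T : MetricFunctional n Z} {R : LipParam n Z} (S : Setup J e Y f T R)

include S

theorem lip : LipschitzWith ‖(e : E →L[ℝ] Rk n)‖₊ (coordMap e f) := lipschitz_coordMap e S.hf

theorem integrable_dens : Integrable (dens e f R) R.vol := R.integrable_det S.hJ S.hm S.lip

theorem aemeasurable_F : AEMeasurable (fun q => coordMap e f (R.Φ q)) R.vol := by
  let _ : MeasurableSpace Z := borel Z
  have : BorelSpace Z := ⟨rfl⟩
  exact S.lip.continuous.measurable.comp_aemeasurable R.aemeasurable_Φ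

theorem measurableSet_body : MeasurableSet (e '' Y) :=
  (S.hY.image e.continuous).isClosed.measurableSet

theorem volume_body_lt_top : volume (e '' Y) < ∞ := (S.hY.image e.continuous).measure_lt_top

/-- **signed area formula** -/
theorem integral_dens {B : Set (Rk n)} (hB : MeasurableSet B) :
    ∫ q in (fun q => coordMap e f (R.Φ q)) ⁻¹' B, dens e f R q ∂(R.vol) =
      (volume (e '' Y ∩ B)).toReal := by
  have h1 := setIntegral_eq_of_lipschitz' (μ := R.vol) (μ' := volume.restrict (e '' Y))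
    (Φ := fun q => coordMap e f (R.Φ q)) (Φ' := fun x : Rk n => x) S.aemeasurable_F
    aemeasurable_id (a := dens e f R) (a' := fun _ => (1 : ℝ)) S.integrable_dens
    (integrableOn_const S.volume_body_lt_top.ne) (fun g hg hg1 => ?_) hB
  · rw [h1]
    simp only [preimage_id', integral_const, smul_eq_mul, mul_one]
    rw [Measure.restrict_restrict hB, inter_comm, measureReal_restrict_apply MeasurableSet.univ,
      univ_inter]
    rfl
  · obtain ⟨Cg, hCg⟩ := hg
    have hgM : ∀ x, |g x| ≤ 1 := fun x => abs_le.2 ⟨by linarith [(hg1 x).1], (hg1 x).2⟩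
    have hadm : Admissible (fun y : E => g (e y)) (fun j y => e y j) := by
      refine ⟨⟨_, hCg.comp (e : E →L[ℝ] Rk n).lipschitz⟩, ⟨1, fun y => hgM _⟩,
        fun j => ⟨‖(e : E →L[ℝ] Rk n)‖₊, ?_⟩⟩
      exact LipschitzWith.of_dist_le_mul fun x y =>
        (dist_le_pi_dist (e x) (e y) j).trans ((e : E →L[ℝ] Rk n).lipschitz.dist_le_mul x y)
    have h2 := S.hpush _ _ hadm
    have hadm' : Admissible (fun z : Z => g (coordMap e f z)) (fun j z => coordMap e f z j) := by
      refine ⟨⟨_, hCg.comp S.lip⟩, ⟨1, fun y => hgM _⟩,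
        fun j => ⟨‖(e : E →L[ℝ] Rk n)‖₊, ?_⟩⟩
      exact LipschitzWith.of_dist_le_mul fun x y =>
        (dist_le_pi_dist (coordMap e f x) (coordMap e f y) j).trans (S.lip.dist_le_mul x y)
    have h3 : pushforward f T (fun y : E => g (e y)) (fun j y => e y j) =
        R.current (fun z => g (coordMap e f z)) (fun j z => coordMap e f z j) := S.hR _ _ hadm'
    rw [h3, R.current_eq S.hJ S.hm (h := fun z => g (coordMap e f z))
      (hCg.continuous.comp S.lip.continuous) (fun z => hgM _)
      (π := fun j z => coordMap e f z j) S.lip] at h2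
    have h4 : integrationCurrent e Y (fun y : E => g (e y)) (fun j y => e y j) =
        ∫ x in e '' Y, g x * 1 := by
      show ∫ x in e '' Y, g (e (e.symm x)) * (fderiv ℝ (fun y j => e (e.symm y) j) x).det = _
      have h5 : (fun (y : Rk n) (j : Fin n) => e (e.symm y) j) = id := by
        ext y j
        simp
      rw [h5]
      have h6 : ∀ x : Rk n, (fderiv ℝ (id : Rk n → Rk n) x).det = 1 := by
        intro x
        rw [fderiv_id]
        exact LinearMap.det_id
      simp only [h6, ContinuousLinearEquiv.apply_symm_apply]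
    rw [h4] at h2
    rw [← h2]
    refine integral_congr_ae (Eventually.of_forall fun q => ?_)
    show g (coordMap e f (R.Φ q)) * ((R.Θ q : ℝ) * (R.D (coordMap e f) q).det) =
      (R.Θ q : ℝ) * g (coordMap e f (R.Φ q)) * (R.D (coordMap e f) q).det
    ring

theorem integral_dens_univ : ∫ q, dens e f R q ∂(R.vol) = (volume (e '' Y)).toReal := by
  have h := S.integral_dens MeasurableSet.univ
  rwa [preimage_univ, Measure.restrict_univ, inter_univ] at h

theorem ae_coordNorm_le : ∀ᵐ q ∂(R.vol), ∀ v,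
    coordNorm e (R.D (coordMap e f) q v) ≤ R.md q v := by
  have h := R.ae_D_le_seminorm (G := coordMap e f) S.lip (P := coordNorm e)
    (c := ‖(e.symm : Rk n →L[ℝ] E)‖) (fun w => (e.symm : Rk n →L[ℝ] E).le_opNorm w) (M := 1)
    (fun z z' => by
      rw [coordNorm_apply, map_sub, coordMap, coordMap, ContinuousLinearEquiv.symm_apply_apply,
        ContinuousLinearEquiv.symm_apply_apply, ← dist_eq_norm]
      simpa using S.hf.dist_le_mul z z')
  filter_upwards [h] with q hq v
  simpa using hq v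

/-- pointwise mass comparison -/
theorem ae_dens_le : ∀ᵐ q ∂(R.vol), ‖dens e f R q‖ₑ * J n (coordNorm e) ≤
    ((R.Θ q).natAbs : ℝ≥0∞) * J n (R.md q) := by
  filter_upwards [S.ae_coordNorm_le] with q hq
  rw [dens, enorm_mul, enorm_intCast, mul_assoc]
  gcongr
  have e2 : ‖(R.D (coordMap e f) q).det‖ₑ = ENNReal.ofReal |(R.D (coordMap e f) q).det| := by
    rw [← ofReal_norm, Real.norm_eq_abs]
  rw [e2]
  by_cases hdet : (R.D (coordMap e f) q).det = 0
  · rw [hdet]; simp
  · rw [show (R.D (coordMap e f) q).det =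
      LinearMap.det (R.D (coordMap e f) q : Rk n →ₗ[ℝ] Rk n) from rfl,
      ← S.hJ.comp n (coordNorm e) (R.D (coordMap e f) q : Rk n →ₗ[ℝ] Rk n) hdet]
    exact S.hJ.mono n _ _ hq

theorem aemeasurable_massDens :
    AEMeasurable (fun q => ((R.Θ q).natAbs : ℝ≥0∞) * J n (R.md q)) R.vol := by
  refine AEMeasurable.mul ?_ (R.aemeasurable_J S.hJ)
  exact ((measurable_from_top (f := fun n : ℤ => (n.natAbs : ℝ≥0∞))).comp
      R.measurable_Θ).aemeasurable

/-- **The equality case**: the metric derivative is the pull-back of the norm, the density is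
positive. -/
theorem ae_rigid : ∀ᵐ q ∂(R.vol), 0 ≤ dens e f R q ∧ (R.Θ q ≠ 0 →
    0 < dens e f R q ∧ (R.D (coordMap e f) q).det ≠ 0 ∧
      ∀ v, R.md q v = coordNorm e (R.D (coordMap e f) q v)) := by
  have hNl := isNormLike_coordNorm e
  have hJ0 := S.hJ.pos n _ hNl
  have hJ1 := S.hJ.lt_top n (coordNorm e)
  have hI := S.integrable_dens
  have hle1 : volume (e '' Y) ≤ ∫⁻ q, ‖dens e f R q‖ₑ ∂(R.vol) := by
    have h1 : volume (e '' Y) = ‖∫ q, dens e f R q ∂(R.vol)‖ₑ := by
      rw [S.integral_dens_univ, ← ofReal_norm, Real.norm_eq_abs, abs_of_nonneg ENNReal.toReal_nonneg,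
        ENNReal.ofReal_toReal S.volume_body_lt_top.ne]
    rw [h1]
    exact enorm_integral_le_lintegral_enorm _
  have hfin : ∫⁻ q, ‖dens e f R q‖ₑ ∂(R.vol) ≠ ∞ := hI.2.ne
  have hmul : ∫⁻ q, ‖dens e f R q‖ₑ * J n (coordNorm e) ∂(R.vol) =
      (∫⁻ q, ‖dens e f R q‖ₑ ∂(R.vol)) * J n (coordNorm e) := lintegral_mul_const' _ _ hJ1.ne
  have hle2 : ∫⁻ q, ‖dens e f R q‖ₑ * J n (coordNorm e) ∂(R.vol) ≤ R.mass J := by
    rw [R.mass_eq]
    exact lintegral_mono_ae S.ae_dens_le
  have hle3 : R.mass J ≤ ∫⁻ q, ‖dens e f R q‖ₑ * J n (coordNorm e) ∂(R.vol) := by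
    refine S.hmass.trans ?_
    rw [hmul, mul_comm]
    gcongr
  have heq1 : (fun q => ‖dens e f R q‖ₑ * J n (coordNorm e)) =ᵐ[R.vol]
      fun q => ((R.Θ q).natAbs : ℝ≥0∞) * J n (R.md q) := by
    refine ae_eq_of_ae_le_of_lintegral_le S.ae_dens_le ?_ S.aemeasurable_massDens ?_
    · exact (hle2.trans_lt S.hm).ne
    · rw [← R.mass_eq]; exact hle3
  -- positivity
  have hle4 : ∫⁻ q, ‖dens e f R q‖ₑ ∂(R.vol) ≤ volume (e '' Y) := by
    have h1 := hle2.trans S.hmass
    rw [hmul, mul_comm] at h1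
    exact (ENNReal.mul_le_mul_iff_right hJ0.ne' hJ1.ne).1 h1
  have hpos : 0 ≤ᵐ[R.vol] dens e f R := by
    have h1 : ∫ q, (|dens e f R q| - dens e f R q) ∂(R.vol) = 0 := by
      rw [integral_sub hI.abs hI, S.integral_dens_univ]
      have h2 : ∫ q, |dens e f R q| ∂(R.vol) = (∫⁻ q, ‖dens e f R q‖ₑ ∂(R.vol)).toReal := by
        have h3 := integral_norm_eq_lintegral_enorm hI.aestronglyMeasurable
        simpa [Real.norm_eq_abs] using h3
      rw [h2, le_antisymm hle4 hle1, sub_self]
    have h1' := (integral_eq_zero_iff_of_nonneg (f := fun q => |dens e f R q| - dens e f R q)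
      (fun q => by
        show 0 ≤ |dens e f R q| - dens e f R q
        linarith [le_abs_self (dens e f R q)]) (hI.abs.sub hI)).1 h1
    filter_upwards [h1'] with q hq
    have h2 : |dens e f R q| - dens e f R q = 0 := hq
    have h3 : 0 ≤ |dens e f R q| := abs_nonneg _
    show 0 ≤ dens e f R q
    linarith
  filter_upwards [heq1, hpos, S.ae_coordNorm_le, S.hinj.isNormLike] with q h1 h2 h3 h4
  refine ⟨h2, fun hΘ => ?_⟩
  have hΘ' : ((R.Θ q).natAbs : ℝ≥0∞) ≠ 0 := by
    simpa using hΘ
  have hJq := S.hJ.pos n _ h4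
  have hd : dens e f R q ≠ 0 := by
    intro hcon
    rw [hcon] at h1
    simp only [enorm_zero, zero_mul] at h1
    exact mul_ne_zero hΘ' hJq.ne' h1.symm
  have hdet : (R.D (coordMap e f) q).det ≠ 0 := by
    intro hcon
    exact hd (by rw [dens, hcon, mul_zero])
  refine ⟨lt_of_le_of_ne h2 (Ne.symm hd), hdet, ?_⟩
  have e2 : ‖(R.D (coordMap e f) q).det‖ₑ = ENNReal.ofReal |(R.D (coordMap e f) q).det| := by
    rw [← ofReal_norm, Real.norm_eq_abs]
  rw [dens, enorm_mul, enorm_intCast, mul_assoc, e2] at h1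
  have h5 := (ENNReal.mul_right_inj hΘ' (by simp)).1 h1
  rw [show (R.D (coordMap e f) q).det =
    LinearMap.det (R.D (coordMap e f) q : Rk n →ₗ[ℝ] Rk n) from rfl,
    ← S.hJ.comp n (coordNorm e) (R.D (coordMap e f) q : Rk n →ₗ[ℝ] Rk n) hdet] at h5
  have h6 : IsNormLike ((coordNorm e).comp (R.D (coordMap e f) q : Rk n →ₗ[ℝ] Rk n)) := by
    obtain ⟨C, hC⟩ := hNl
    set A := (R.D (coordMap e f) q).toContinuousLinearEquivOfDetNeZero hdet with hA
    refine ⟨‖(A.symm : Rk n →L[ℝ] Rk n)‖ * C, fun v => ?_⟩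
    have h7 : v = A.symm (R.D (coordMap e f) q v) := by
      have : R.D (coordMap e f) q v = A v := by
        rw [hA]; simp
      rw [this, ContinuousLinearEquiv.symm_apply_apply]
    calc ‖v‖ = ‖A.symm (R.D (coordMap e f) q v)‖ := by rw [← h7]
      _ ≤ ‖(A.symm : Rk n →L[ℝ] Rk n)‖ * ‖R.D (coordMap e f) q v‖ :=
        (A.symm : Rk n →L[ℝ] Rk n).le_opNorm _
      _ ≤ ‖(A.symm : Rk n →L[ℝ] Rk n)‖ * (C * coordNorm e (R.D (coordMap e f) q v)) := by
        gcongr
        exact hC _
      _ = _ := by rw [mul_assoc]; rfl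
  have h8 := S.hJ.strict n _ _ h6 h4 h3 h5
  intro v
  rw [← h8]
  rfl

end Setup

end FinslerRigid
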