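import Pool.Agent.FinslerRigid.Defs

/-!
# From Lipschitz test functions to Borel sets
-/

open MeasureTheory Set Filter Topology Metric
open scoped NNReal ENNReal

namespace FinslerRigid

variable {Ω Ω' : Type*} [MeasurableSpace Ω] [MeasurableSpace Ω'] {μ : Measure Ω} {μ' : Measure Ω'}
  {Z : Type*} [MetricSpace Z] [MeasurableSpace Z] [BorelSpace Z]

theorem tendsto_thickened {Φ : Ω → Z} (hΦ : Measurable Φ) {a : Ω → ℝ} (ha : Integrable a μ)
    {B : Set Z} (hB : IsClosed B) :
    Tendsto (fun n : ℕ => ∫ p, ((thickenedIndicator (δ := 1 / ((n : ℝ) + 1)) (by positivity) B)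
      (Φ p) : ℝ) * a p ∂μ) atTop (𝓝 (∫ p in Φ ⁻¹' B, a p ∂μ)) := by
  have hlim : Tendsto (fun n : ℕ => 1 / ((n : ℝ) + 1)) atTop (𝓝 0) :=
    tendsto_one_div_add_atTop_nhds_zero_nat
  have h1 := thickenedIndicator_tendsto_indicator_closure
    (δseq := fun n : ℕ => 1 / ((n : ℝ) + 1)) (fun n => by positivity) hlim B
  rw [hB.closure_eq] at h1
  rw [← integral_indicator (hΦ hB.measurableSet)]
  refine tendsto_integral_of_dominated_convergence (fun p => ‖a p‖) (fun n => ?_) ha.norm
    (fun n => ?_) ?_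
  · refine AEStronglyMeasurable.mul ?_ ha.aestronglyMeasurable
    exact ((NNReal.continuous_coe.comp (thickenedIndicator _ B).continuous).measurable.comp
      hΦ).aestronglyMeasurable
  · refine Eventually.of_forall fun p => ?_
    rw [norm_mul]
    have h2 : ‖(((thickenedIndicator (δ := 1 / ((n : ℝ) + 1)) (by positivity) B) (Φ p) : ℝ≥0) : ℝ)‖
        ≤ 1 := by
      rw [Real.norm_eq_abs, abs_of_nonneg (NNReal.coe_nonneg _)]
      exact_mod_cast thickenedIndicator_le_one _ B (Φ p)
    calc _ ≤ 1 * ‖a p‖ := by gcongr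
      _ = ‖a p‖ := one_mul _
  · refine Eventually.of_forall fun p => ?_
    have h2 := (tendsto_pi_nhds.1 h1) (Φ p)
    have h3 := (NNReal.tendsto_coe.2 h2).mul_const (a p)
    have h4 : ((B.indicator (fun _ => (1 : ℝ≥0)) (Φ p) : ℝ≥0) : ℝ) * a p =
        (Φ ⁻¹' B).indicator a p := by
      by_cases hp : Φ p ∈ B
      · rw [indicator_of_mem (show p ∈ Φ ⁻¹' B from hp), indicator_of_mem hp]
        simp
      · rw [indicator_of_notMem (show p ∉ Φ ⁻¹' B from hp), indicator_of_notMem hp]
        simp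
    rw [← h4]
    exact h3

omit [MeasurableSpace Z] [BorelSpace Z] in
theorem isLip_thickened {δ : ℝ} (hδ : 0 < δ) (B : Set Z) :
    IsLip fun z => ((thickenedIndicator hδ B) z : ℝ) := by
  have h := lipschitzWith_thickenedIndicator hδ B
  exact ⟨δ.toNNReal⁻¹, LipschitzWith.of_dist_le_mul fun x y => by
    have := h.dist_le_mul x y
    rwa [NNReal.dist_eq, ← Real.dist_eq] at this⟩

/-- equality of integrals against Lipschitz functions implies equality on Borel sets -/
theorem setIntegral_eq_of_lipschitz {Φ : Ω → Z} {Φ' : Ω' → Z} (hΦ : Measurable Φ)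
    (hΦ' : Measurable Φ') {a : Ω → ℝ} {a' : Ω' → ℝ} (ha : Integrable a μ) (ha' : Integrable a' μ')
    (H : ∀ h : Z → ℝ, IsLip h → (∀ z, 0 ≤ h z ∧ h z ≤ 1) →
      ∫ p, h (Φ p) * a p ∂μ = ∫ p, h (Φ' p) * a' p ∂μ')
    {B : Set Z} (hB : MeasurableSet B) :
    ∫ p in Φ ⁻¹' B, a p ∂μ = ∫ p in Φ' ⁻¹' B, a' p ∂μ' := by
  have hclosed : ∀ B : Set Z, IsClosed B →
      ∫ p in Φ ⁻¹' B, a p ∂μ = ∫ p in Φ' ⁻¹' B, a' p ∂μ' := by
    intro B hB
    have h1 := tendsto_thickened hΦ ha hB
    have h2 := tendsto_thickened hΦ' ha' hB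
    refine tendsto_nhds_unique h1 (h2.congr fun n => ?_)
    symm
    refine H _ (isLip_thickened _ B) fun z => ⟨NNReal.coe_nonneg _, ?_⟩
    exact_mod_cast thickenedIndicator_le_one _ B z
  induction B, hB using MeasurableSpace.induction_on_inter
    (BorelSpace.measurable_eq.trans (borel_eq_generateFrom_isClosed (α := Z)))
    (isPiSystem_isClosed) with
  | empty => simp
  | basic B hB => exact hclosed B hB
  | compl B hB ih =>
    have hBm : MeasurableSet B := hB
    have h1 := integral_add_compl (hΦ hBm) ha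
    have h2 := integral_add_compl (hΦ' hBm) ha'
    have h3 := hclosed univ isClosed_univ
    simp only [preimage_univ, Measure.restrict_univ] at h3
    rw [preimage_compl, preimage_compl]
    linarith
  | iUnion f hd hm ih =>
    rw [preimage_iUnion, preimage_iUnion,
      integral_iUnion (fun i => hΦ (hm i)) (fun i j hij => (hd hij).preimage Φ) ha.integrableOn,
      integral_iUnion (fun i => hΦ' (hm i)) (fun i j hij => (hd hij).preimage Φ') ha'.integrableOn]
    exact tsum_congr ih

end FinslerRigid
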