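import Pool.Agent.FinslerRigid.Area
import Pool.Agent.SmoothDegree.NullLagrangian

/-!
# The integral of the Jacobian of a compactly supported Lipschitz map vanishes
-/

open MeasureTheory Set Filter Topology Asymptotics Metric
open scoped NNReal ENNReal

namespace FinslerRigid

variable {k : ℕ} {C : ℝ≥0}

theorem volume_image_eq_zero {F : Rk k → Rk k} {s : Set (Rk k)} (hF : LipschitzOnWith C F s)
    (hs : volume s = 0) : volume (F '' s) = 0 := by
  have h := hF.hausdorffMeasure_image_le (d := (Fintype.card (Fin k) : ℝ)) (by positivity)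
  rw [hausdorffMeasure_pi_real, hs, mul_zero] at h
  exact le_antisymm h zero_le

theorem exists_det_bound (k : ℕ) (r : ℝ) : ∃ M : ℝ, ∀ A : Rk k →L[ℝ] Rk k, ‖A‖ ≤ r → |A.det| ≤ M := by
  obtain ⟨M, hM⟩ := (isCompact_closedBall (0 : Rk k →L[ℝ] Rk k) r).exists_bound_of_continuousOn
    (f := fun A : Rk k →L[ℝ] Rk k => A.det) ContinuousLinearMap.continuous_det.continuousOn
  exact ⟨M, fun A hA => by simpa using hM A (by simpa using hA)⟩

theorem integrableOn_det_one_add {h : Rk k → Rk k} (hh : LipschitzWith C h) (ρ t : ℝ) :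
    IntegrableOn (fun x => (1 + t • fderiv ℝ h x).det) (closedBall 0 ρ) := by
  obtain ⟨M, hM⟩ := exists_det_bound k (‖(1 : Rk k →L[ℝ] Rk k)‖ + |t| * C)
  refine Measure.integrableOn_of_bounded (M := M) measure_closedBall_lt_top.ne ?_ ?_
  · refine Measurable.aestronglyMeasurable ?_
    exact ContinuousLinearMap.continuous_det.measurable.comp
      (measurable_const.add ((measurable_fderiv ℝ h).const_smul t))
  · refine Eventually.of_forall fun x => ?_
    rw [Real.norm_eq_abs]
    refine hM _ ((norm_add_le _ _).trans ?_)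
    gcongr
    rw [norm_smul, Real.norm_eq_abs]
    gcongr
    exact norm_fderiv_le_of_lipschitz ℝ hh

theorem integral_det_one_add {h : Rk k → Rk k} (hh : LipschitzWith C h) {ρ : ℝ}
    (hρ : tsupport h ⊆ closedBall 0 ρ) {t : ℝ} (ht : |t| * C < 1) :
    ∫ x in closedBall (0 : Rk k) ρ, (1 + t • fderiv ℝ h x).det =
      (volume (closedBall (0 : Rk k) ρ)).toReal := by
  set g : Rk k → Rk k := fun x => x + t • h x with hg
  have hlip : ∀ x y, ‖h x - h y‖ ≤ C * ‖x - y‖ := fun x y => by
    simpa [dist_eq_norm] using hh.dist_le_mul x y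
  have happ : ApproximatesLinearOn g ((ContinuousLinearEquiv.refl ℝ (Rk k) :
      Rk k ≃L[ℝ] Rk k) : Rk k →L[ℝ] Rk k) univ ⟨|t| * C, by positivity⟩ := by
    intro x _ y _
    have : g x - g y - (x - y) = t • (h x - h y) := by
      simp only [hg, smul_sub]; abel
    change ‖g x - g y - (x - y)‖ ≤ (|t| * C) * ‖x - y‖
    rw [this, norm_smul, Real.norm_eq_abs, mul_assoc]
    exact mul_le_mul_of_nonneg_left (hlip x y) (abs_nonneg t)
  have hc : Subsingleton (Rk k) ∨ (⟨|t| * C, by positivity⟩ : ℝ≥0) <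
      ‖((ContinuousLinearEquiv.refl ℝ (Rk k)).symm : Rk k →L[ℝ] Rk k)‖₊⁻¹ := by
    rcases subsingleton_or_nontrivial (Rk k) with hE | hE
    · exact Or.inl hE
    · right
      have : ‖((ContinuousLinearEquiv.refl ℝ (Rk k)).symm : Rk k →L[ℝ] Rk k)‖₊ = 1 := by
        have : ((ContinuousLinearEquiv.refl ℝ (Rk k)).symm : Rk k →L[ℝ] Rk k) =
          ContinuousLinearMap.id ℝ (Rk k) := rfl
        rw [this]
        ext
        simp
      rw [this, inv_one]
      exact_mod_cast ht
  have hbij : Function.Bijective g := (happ.toHomeomorph g hc).bijective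
  have himg : g '' closedBall (0 : Rk k) ρ = closedBall (0 : Rk k) ρ := by
    have hout : ∀ x, x ∉ closedBall (0 : Rk k) ρ → g x = x := by
      intro x hx
      have : h x = 0 := image_eq_zero_of_notMem_tsupport (fun hx' => hx (hρ hx'))
      simp [hg, this]
    apply Set.Subset.antisymm
    · rintro _ ⟨x, hx, rfl⟩
      by_contra hy
      have := hout _ hy
      exact hy (by rw [hbij.1 this]; exact hx)
    · intro y hy
      obtain ⟨x, rfl⟩ := hbij.2 y
      refine ⟨x, ?_, rfl⟩
      by_contra hx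
      rw [hout x hx] at hy
      exact hx hy
  have hglip : LipschitzWith (1 + ⟨|t|, abs_nonneg t⟩ * C) g := by
    refine LipschitzWith.of_dist_le_mul fun x y => ?_
    rw [dist_eq_norm, dist_eq_norm]
    have : g x - g y = (x - y) + t • (h x - h y) := by simp only [hg, smul_sub]; abel
    rw [this]
    refine (norm_add_le _ _).trans ?_
    rw [norm_smul, Real.norm_eq_abs]
    have h1 : |t| * ‖h x - h y‖ ≤ |t| * (C * ‖x - y‖) :=
      mul_le_mul_of_nonneg_left (hlip x y) (abs_nonneg t)
    push_cast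
    change _ ≤ (1 + |t| * C) * ‖x - y‖
    nlinarith
  set S : Set (Rk k) := {x | DifferentiableAt ℝ h x} with hS
  have hSm : MeasurableSet S := measurableSet_of_differentiableAt ℝ h
  have hSn : volume Sᶜ = 0 := hh.ae_differentiableAt (μ := (volume : Measure (Rk k)))
  set B : Set (Rk k) := closedBall (0 : Rk k) ρ with hB
  have hBm : MeasurableSet B := measurableSet_closedBall
  have hgd : ∀ x ∈ B ∩ S, HasFDerivWithinAt g (1 + t • fderiv ℝ h x) (B ∩ S) x := by
    intro x hx
    have hd : DifferentiableAt ℝ h x := hx.2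
    exact ((hasFDerivAt_id x).add (hd.hasFDerivAt.const_smul t)).hasFDerivWithinAt
  have hcv := lintegral_abs_det_fderiv_eq_addHaar_image volume (hBm.inter hSm) hgd
    (hbij.1.injOn)
  have hvol : volume (g '' (B ∩ S)) = volume B := by
    refine le_antisymm ?_ ?_
    · calc volume (g '' (B ∩ S)) ≤ volume (g '' B) := measure_mono (image_mono inter_subset_left)
        _ = volume B := by rw [himg]
    · have h1 : B ⊆ g '' (B ∩ S) ∪ g '' (Sᶜ) := by
        rw [← image_union]
        intro y hy
        rw [← himg] at hy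
        obtain ⟨x, hx, rfl⟩ := hy
        refine ⟨x, ?_, rfl⟩
        by_cases hxS : x ∈ S
        · exact Or.inl ⟨hx, hxS⟩
        · exact Or.inr hxS
      calc volume B ≤ volume (g '' (B ∩ S) ∪ g '' (Sᶜ)) := measure_mono h1
        _ ≤ volume (g '' (B ∩ S)) + volume (g '' (Sᶜ)) := measure_union_le _ _
        _ = volume (g '' (B ∩ S)) := by
          rw [volume_image_eq_zero (hglip.lipschitzOnWith (s := Sᶜ)) hSn, add_zero]
  have hpos : ∀ x, 0 < (1 + t • fderiv ℝ h x).det := by
    intro x
    apply Pool.Agent.SmoothDegree.det_one_add_pos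
    rw [norm_smul, Real.norm_eq_abs]
    exact lt_of_le_of_lt (mul_le_mul_of_nonneg_left (norm_fderiv_le_of_lipschitz ℝ hh)
      (abs_nonneg t)) ht
  have hBS : (B ∩ S : Set (Rk k)) =ᵐ[volume] B := by
    have : ∀ᵐ x : Rk k, x ∈ S := hh.ae_differentiableAt (μ := (volume : Measure (Rk k)))
    filter_upwards [this] with x hx
    exact propext ⟨fun h => h.1, fun h => ⟨h, hx⟩⟩
  rw [hvol, setLIntegral_congr hBS] at hcv
  rw [← hcv, ← integral_toReal]
  · refine integral_congr_ae (Eventually.of_forall fun x => ?_)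
    show (1 + t • fderiv ℝ h x).det = (ENNReal.ofReal |(1 + t • fderiv ℝ h x).det|).toReal
    rw [ENNReal.toReal_ofReal (abs_nonneg _), abs_of_pos (hpos x)]
  · refine Measurable.aemeasurable ?_
    refine ENNReal.measurable_ofReal.comp (Measurable.abs ?_)
    exact ContinuousLinearMap.continuous_det.measurable.comp
      (measurable_const.add ((measurable_fderiv ℝ h).const_smul t))
  · exact Eventually.of_forall fun x => ENNReal.ofReal_lt_top

theorem det_zero_clm {k : ℕ} (hk : 0 < k) : (0 : Rk k →L[ℝ] Rk k).det = 0 := by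
  have h2 : (0 : Rk k →L[ℝ] Rk k).det = (0 : ℝ) ^ k := by
    simp [ContinuousLinearMap.det]
  rw [h2, zero_pow hk.ne']

theorem integral_det_fderiv_eq_zero {k : ℕ} (hk : 0 < k) {h : Rk k → Rk k}
    (hh : LipschitzWith C h) (hc : HasCompactSupport h) : ∫ x, (fderiv ℝ h x).det = 0 := by
  obtain ⟨ρ, hρ⟩ : ∃ ρ, tsupport h ⊆ closedBall (0 : Rk k) ρ :=
    hc.isCompact.isBounded.subset_closedBall 0
  set n := Module.finrank ℝ (Rk k) with hn
  have hnk : n = k := by simp [hn]
  have hnpos : 0 < n := by rw [hnk]; exact hk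
  set τ : ℝ := 1 / ((n + 1) * (C + 1)) with hτ
  have hτpos : 0 < τ := by positivity
  -- restrict to the ball
  have hball : ∫ x, (fderiv ℝ h x).det = ∫ x in closedBall (0 : Rk k) ρ, (fderiv ℝ h x).det := by
    symm
    apply setIntegral_eq_integral_of_forall_compl_eq_zero
    intro x hx
    have h0 : fderiv ℝ h x = 0 := by
      apply image_eq_zero_of_notMem_tsupport
      intro hx'
      exact hx (hρ (tsupport_fderiv_subset ℝ hx'))
    rw [h0]
    exact det_zero_clm hk
  rw [hball]
  have hval : ∀ k' ∈ Finset.range (n + 1), ∫ x in closedBall (0 : Rk k) ρ,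
      (1 + (k' : ℝ) • (τ • fderiv ℝ h x)).det = (volume (closedBall (0 : Rk k) ρ)).toReal := by
    intro k' hk'
    have : ∀ x, (1 + (k' : ℝ) • (τ • fderiv ℝ h x)) = 1 + ((k' : ℝ) * τ) • fderiv ℝ h x := by
      intro x; rw [smul_smul]
    simp_rw [this]
    apply integral_det_one_add hh hρ
    rw [abs_of_nonneg (by positivity)]
    have hk'' : (k' : ℝ) ≤ n := by
      have := Finset.mem_range.1 hk'
      exact_mod_cast Nat.lt_succ_iff.1 this
    rw [hτ, mul_one_div, div_mul_eq_mul_div, div_lt_one (by positivity)]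
    nlinarith [C.2, hk'', (Nat.cast_nonneg n : (0 : ℝ) ≤ n)]
  have hsum : ∫ x in closedBall (0 : Rk k) ρ, ((n.factorial : ℝ) * (τ • fderiv ℝ h x).det) = 0 := by
    have h1 : ∀ x, (n.factorial : ℝ) * (τ • fderiv ℝ h x).det =
        ∑ k' ∈ Finset.range (n + 1), ((-1 : ℝ) ^ (n - k') * (n.choose k' : ℝ)) *
        (1 + (k' : ℝ) • (τ • fderiv ℝ h x)).det := fun x =>
      (Pool.Agent.SmoothDegree.clm_det_fd (τ • fderiv ℝ h x)).symm
    simp_rw [h1]
    rw [integral_finsetSum]
    · simp_rw [integral_const_mul]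
      rw [Finset.sum_congr rfl (fun k' hk' => by rw [hval k' hk'])]
      rw [← Finset.sum_mul]
      have h2 : ∑ k' ∈ Finset.range (n + 1), ((-1 : ℝ) ^ (n - k') * (n.choose k' : ℝ)) = 0 := by
        have := add_pow (1 : ℝ) (-1) n
        rw [add_neg_cancel, zero_pow hnpos.ne'] at this
        rw [this]
        refine Finset.sum_congr rfl fun k' _ => by ring
      rw [h2, zero_mul]
    · intro k' _
      apply Integrable.const_mul
      have : ∀ x, (1 + (k' : ℝ) • (τ • fderiv ℝ h x)) = 1 + ((k' : ℝ) * τ) • fderiv ℝ h x := by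
        intro x; rw [smul_smul]
      simp_rw [this]
      exact integrableOn_det_one_add hh ρ _
  have hdet : ∀ x, (τ • fderiv ℝ h x).det = τ ^ n * (fderiv ℝ h x).det := by
    intro x
    exact LinearMap.det_smul τ (fderiv ℝ h x : Rk k →ₗ[ℝ] Rk k)
  simp_rw [hdet] at hsum
  rw [integral_const_mul, integral_const_mul] at hsum
  have hf : (n.factorial : ℝ) ≠ 0 := by positivity
  have hτn : τ ^ n ≠ 0 := by positivity
  exact (mul_eq_zero.1 ((mul_eq_zero.1 hsum).resolve_left hf)).resolve_left hτn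

/-- bounded Lipschitz functions form an algebra -/
theorem IsLip.mul {Z : Type*} [MetricSpace Z] {a b : Z → ℝ} (ha : IsLip a) (hb : IsLip b)
    {A B : ℝ} (hA : ∀ z, |a z| ≤ A) (hB : ∀ z, |b z| ≤ B) : IsLip fun z => a z * b z := by
  obtain ⟨Ca, hCa⟩ := ha
  obtain ⟨Cb, hCb⟩ := hb
  refine ⟨(|A| * Cb + |B| * Ca).toNNReal, LipschitzWith.of_dist_le_mul fun x y => ?_⟩
  rw [Real.coe_toNNReal _ (by positivity)]
  have h1 := hCa.dist_le_mul x y
  have h2 := hCb.dist_le_mul x y
  rw [Real.dist_eq] at h1 h2 ⊢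
  have h3 : a x * b x - a y * b y = a x * (b x - b y) + b y * (a x - a y) := by ring
  rw [h3]
  refine (abs_add_le _ _).trans ?_
  rw [abs_mul, abs_mul]
  have h4 : |a x| ≤ |A| := (hA x).trans (le_abs_self A)
  have h5 : |b y| ≤ |B| := (hB y).trans (le_abs_self B)
  calc |a x| * |b x - b y| + |b y| * |a x - a y|
      ≤ |A| * (Cb * dist x y) + |B| * (Ca * dist x y) := by gcongr
    _ = (|A| * Cb + |B| * Ca) * dist x y := by ring

theorem det_eq_zero_of_row {m : ℕ} {A : Rk (m + 1) →L[ℝ] Rk (m + 1)} (h : ∀ v, A v 0 = 0) :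
    A.det = 0 := by
  by_contra hne
  have hsurj : Function.Surjective A := by
    have h1 := (A.toContinuousLinearEquivOfDetNeZero hne).surjective
    intro y
    obtain ⟨x, hx⟩ := h1 y
    exact ⟨x, by simpa using hx⟩
  obtain ⟨v, hv⟩ := hsurj (fun _ => 1)
  have := h v
  rw [hv] at this
  exact one_ne_zero this

/-- **integration by parts**: `∫ det (Dh, Dπ) = 0` if `h` has compact support -/
theorem integral_det_cons_eq_zero {m : ℕ} {h : Rk (m + 1) → ℝ} (hh : IsLip h)
    (hc : HasCompactSupport h) {π : Fin m → Rk (m + 1) → ℝ} (hπ : ∀ j, IsLip (π j)) :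
    ∫ x, (fderiv ℝ (fun y j => (Fin.cons h π : Fin (m + 1) → Rk (m + 1) → ℝ) j y) x).det = 0 := by
  obtain ⟨ρ, hρ⟩ : ∃ ρ, tsupport h ⊆ closedBall (0 : Rk (m + 1)) ρ :=
    hc.isCompact.isBounded.subset_closedBall 0
  set ρ' := max ρ 0 with hρ'
  have hρ0 : 0 ≤ ρ' := le_max_right _ _
  have hsup : tsupport h ⊆ closedBall (0 : Rk (m + 1)) ρ' :=
    hρ.trans (closedBall_subset_closedBall (le_max_left _ _))
  set q : Fin (m + 1) → Rk (m + 1) → ℝ := Fin.cons h π with hq
  have hqlip : ∀ j, IsLip (q j) := by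
    intro j
    refine Fin.cases ?_ (fun i => ?_) j
    · simpa [hq] using hh
    · simpa [hq] using hπ i
  -- cutoff
  set χ : Rk (m + 1) → ℝ := fun y => max 0 (min 1 (ρ' + 2 - ‖y‖)) with hχ
  have hχ1 : ∀ y, |χ y| ≤ 1 := by
    intro y
    rw [abs_le]
    exact ⟨by linarith [le_max_left 0 (min 1 (ρ' + 2 - ‖y‖))],
      max_le zero_le_one (min_le_left _ _)⟩
  have hχlip : IsLip χ := by
    refine ⟨1, ?_⟩
    have h1 : LipschitzWith 1 fun y : Rk (m + 1) => ρ' + 2 - ‖y‖ := by
      refine LipschitzWith.of_dist_le_mul fun x y => ?_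
      rw [Real.dist_eq, dist_eq_norm, NNReal.coe_one, one_mul]
      have : ρ' + 2 - ‖x‖ - (ρ' + 2 - ‖y‖) = -(‖x‖ - ‖y‖) := by ring
      rw [this, abs_neg]
      exact abs_norm_sub_norm_le x y
    exact (h1.const_min 1).const_max 0
  have hbd : ∀ j, ∃ M : ℝ, ∀ y ∈ closedBall (0 : Rk (m + 1)) (ρ' + 2), |q j y| ≤ M := by
    intro j
    obtain ⟨L, hL⟩ := hqlip j
    obtain ⟨M, hM⟩ := (isCompact_closedBall (0 : Rk (m + 1)) (ρ' + 2)).exists_bound_of_continuousOn
      hL.continuous.continuousOn
    exact ⟨M, fun y hy => by simpa using hM y hy⟩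
  choose M hM using hbd
  have hM0 : ∀ j, 0 ≤ M j := fun j =>
    (abs_nonneg _).trans (hM j 0 (by rw [mem_closedBall_zero_iff, norm_zero]; linarith))
  set r : Fin (m + 1) → Rk (m + 1) → ℝ := fun j y => max (-(M j)) (min (M j) (q j y)) with hr
  have hrb : ∀ j y, |r j y| ≤ M j := by
    intro j y
    rw [abs_le]
    exact ⟨le_max_left _ _, max_le (by linarith [hM0 j]) (min_le_left _ _)⟩
  have hrlip : ∀ j, IsLip (r j) := by
    intro j
    obtain ⟨L, hL⟩ := hqlip j
    exact ⟨L, (hL.const_min (M j)).const_max (-(M j))⟩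
  have hre : ∀ j, ∀ y ∈ closedBall (0 : Rk (m + 1)) (ρ' + 2), r j y = q j y := by
    intro j y hy
    have := abs_le.1 (hM j y hy)
    rw [hr]
    dsimp only
    rw [min_eq_right this.2, max_eq_right this.1]
  set g : Rk (m + 1) → Rk (m + 1) := fun y j => χ y * r j y with hg
  obtain ⟨L, hgL⟩ : ∃ L : ℝ≥0, LipschitzWith L g := by
    have h1 : ∀ j, IsLip fun y => χ y * r j y := fun j => hχlip.mul (hrlip j) hχ1 (hrb j)
    choose c hc using h1
    refine ⟨∑ j, c j, LipschitzWith.of_dist_le_mul fun x y => ?_⟩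
    rw [dist_pi_le_iff (by positivity)]
    intro j
    refine ((hc j).dist_le_mul x y).trans ?_
    gcongr
    exact Finset.single_le_sum (f := c) (fun i _ => zero_le) (Finset.mem_univ j)
  have hgc : HasCompactSupport g := by
    refine HasCompactSupport.intro (isCompact_closedBall (0 : Rk (m + 1)) (ρ' + 2)) ?_
    intro y hy
    rw [mem_closedBall_zero_iff, not_le] at hy
    ext j
    have : χ y = 0 := by
      rw [hχ]
      dsimp only
      rw [max_eq_left]
      exact (min_le_right _ _).trans (by linarith)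
    simp [hg, this]
  have hmain := integral_det_fderiv_eq_zero (Nat.succ_pos m) hgL hgc
  rw [← hmain]
  refine integral_congr_ae (Eventually.of_forall fun x => ?_)
  show (fderiv ℝ (fun y j => q j y) x).det = (fderiv ℝ g x).det
  by_cases hx : x ∈ ball (0 : Rk (m + 1)) (ρ' + 1)
  · have he : (fun y j => q j y) =ᶠ[𝓝 x] g := by
      filter_upwards [isOpen_ball.mem_nhds hx] with y hy
      rw [mem_ball_zero_iff] at hy
      ext j
      have h1 : χ y = 1 := by
        rw [hχ]
        dsimp only
        rw [min_eq_left (by linarith), max_eq_right zero_le_one]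
      have h2 := hre j y (by rw [mem_closedBall_zero_iff]; linarith)
      simp only [hg, h1, h2, one_mul]
    rw [he.fderiv_eq]
  · have hxs : x ∉ tsupport h := by
      intro hcon
      have := hsup hcon
      rw [mem_closedBall_zero_iff] at this
      rw [mem_ball_zero_iff] at hx
      linarith
    have hnear : ∀ᶠ y in 𝓝 x, h y = 0 := by
      have : (tsupport h)ᶜ ∈ 𝓝 x := (isClosed_tsupport h).isOpen_compl.mem_nhds hxs
      filter_upwards [this] with y hy
      exact image_eq_zero_of_notMem_tsupport hy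
    have aux : ∀ G : Rk (m + 1) → Rk (m + 1), (∀ᶠ y in 𝓝 x, G y 0 = 0) →
        (fderiv ℝ G x).det = 0 := by
      intro G hG
      by_cases hd : DifferentiableAt ℝ G x
      · refine det_eq_zero_of_row fun v => ?_
        have h1 := (hasFDerivAt_pi'.1 hd.hasFDerivAt) 0
        have h2 : HasFDerivAt (fun y => G y 0) (0 : Rk (m + 1) →L[ℝ] ℝ) x :=
          (hasFDerivAt_const (0 : ℝ) x).congr_of_eventuallyEq hG
        have h3 := h1.unique h2
        have h4 := congrArg (fun T : Rk (m + 1) →L[ℝ] ℝ => T v) h3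
        simpa using h4
      · rw [fderiv_zero_of_not_differentiableAt hd]
        exact det_zero_clm (Nat.succ_pos m)
    rw [aux, aux]
    · filter_upwards [hnear] with y hy
      have : r 0 y = 0 := by
        rw [hr]
        dsimp only
        rw [hq, Fin.cons_zero, hy, min_eq_right (hM0 0), max_eq_right (by linarith [hM0 0])]
      simp [hg, this]
    · filter_upwards [hnear] with y hy
      simpa [hq] using hy

end FinslerRigid
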