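import Pool.Agent.FinslerRigid.Invariance
import Pool.Agent.FinslerRigid.NullLag

/-!
# The boundary lies over the boundary
-/

open MeasureTheory Set Filter Topology Asymptotics Metric
open scoped NNReal ENNReal

namespace FinslerRigid

variable {m : ℕ} {E : Type*} [NormedAddCommGroup E] [NormedSpace ℝ E]

theorem isLip_comp_equiv {k : ℕ} (e : E ≃L[ℝ] Rk k) {u : E → ℝ} (hu : IsLip u) :
    IsLip fun y => u (e.symm y) := by
  obtain ⟨C, hC⟩ := hu
  exact ⟨_, hC.comp e.symm.lipschitz⟩

/-- `∂[Y]` vanishes on functions vanishing outside `Y` -/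
theorem boundary_integrationCurrent_eq_zero (e : E ≃L[ℝ] Rk (m + 1)) {Y : Set E}
    (hY : IsCompact Y) {h : E → ℝ} (hh : IsLip h) (h0 : ∀ y, y ∉ Y → h y = 0)
    {π : Fin m → E → ℝ} (hπ : ∀ j, IsLip (π j)) :
    boundary (integrationCurrent e Y) h π = 0 := by
  have hK : IsCompact (e '' Y) := hY.image e.continuous
  have hsupp : ∀ x, x ∉ e '' Y → h (e.symm x) = 0 := by
    intro x hx
    refine h0 _ fun hmem => hx ⟨e.symm x, hmem, by simp⟩
  have hcs : HasCompactSupport fun y => h (e.symm y) := HasCompactSupport.intro hK hsupp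
  have key := integral_det_cons_eq_zero (isLip_comp_equiv e hh) hcs
    (π := fun j y => π j (e.symm y)) (fun j => isLip_comp_equiv e (hπ j))
  have hfun : (fun (y : Rk (m + 1)) (j : Fin (m + 1)) =>
      (Fin.cons (fun y => h (e.symm y)) (fun j y => π j (e.symm y)) :
        Fin (m + 1) → Rk (m + 1) → ℝ) j y) =
      fun y j => (Fin.cons h π : Fin (m + 1) → E → ℝ) j (e.symm y) := by
    ext y j
    refine Fin.cases ?_ (fun i => ?_) j
    · simp
    · simp
  rw [hfun] at key
  show ∫ x in e '' Y, (1 : ℝ) *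
    (fderiv ℝ (fun y j => (Fin.cons h π : Fin (m + 1) → E → ℝ) j (e.symm y)) x).det = 0
  simp only [one_mul]
  rw [← key]
  refine setIntegral_eq_integral_of_forall_compl_eq_zero fun x hx => ?_
  have hnear : ∀ᶠ y in 𝓝 x, h (e.symm y) = 0 := by
    filter_upwards [hK.isClosed.isOpen_compl.mem_nhds hx] with y hy using hsupp y hy
  set G : Rk (m + 1) → Rk (m + 1) :=
    fun y j => (Fin.cons h π : Fin (m + 1) → E → ℝ) j (e.symm y) with hG
  by_cases hd : DifferentiableAt ℝ G x
  · refine det_eq_zero_of_row fun v => ?_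
    have h1 := (hasFDerivAt_pi'.1 hd.hasFDerivAt) 0
    have h2 : HasFDerivAt (fun y => G y 0) (0 : Rk (m + 1) →L[ℝ] ℝ) x := by
      refine (hasFDerivAt_const (0 : ℝ) x).congr_of_eventuallyEq ?_
      filter_upwards [hnear] with y hy
      simpa [hG] using hy
    have h3 := h1.unique h2
    have h4 := congrArg (fun T : Rk (m + 1) →L[ℝ] ℝ => T v) h3
    simpa using h4
  · rw [fderiv_zero_of_not_differentiableAt hd]
    exact det_zero_clm (Nat.succ_pos m)

/-- cutoff functions for the interior of `Y` -/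
noncomputable def cut (Y : Set E) (n : ℕ) (y : E) : ℝ := min 1 (n * infDist y (interior Y)ᶜ)

theorem cut_nonneg (Y : Set E) (n : ℕ) (y : E) : 0 ≤ cut Y n y :=
  le_min zero_le_one (mul_nonneg (Nat.cast_nonneg n) infDist_nonneg)

theorem cut_le_one (Y : Set E) (n : ℕ) (y : E) : cut Y n y ≤ 1 := min_le_left _ _

theorem abs_cut_le (Y : Set E) (n : ℕ) (y : E) : |cut Y n y| ≤ 1 := by
  rw [abs_of_nonneg (cut_nonneg Y n y)]; exact cut_le_one Y n y

theorem cut_eq_zero {Y : Set E} (n : ℕ) {y : E} (hy : y ∉ interior Y) : cut Y n y = 0 := by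
  rw [cut, infDist_zero_of_mem (show y ∈ (interior Y)ᶜ from hy), mul_zero]
  exact min_eq_right zero_le_one

theorem isLip_cut (Y : Set E) (n : ℕ) : IsLip (cut Y n) := by
  refine ⟨(n : ℝ≥0), ?_⟩
  have h1 : LipschitzWith (n : ℝ≥0) fun y : E => (n : ℝ) * infDist y (interior Y)ᶜ := by
    refine LipschitzWith.of_dist_le_mul fun x y => ?_
    have h2 := (lipschitz_infDist_pt ((interior Y)ᶜ)).dist_le_mul x y
    rw [Real.dist_eq] at h2 ⊢
    rw [← mul_sub, abs_mul, abs_of_nonneg (Nat.cast_nonneg n)]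
    simp only [NNReal.coe_one, one_mul, NNReal.coe_natCast] at h2 ⊢
    gcongr
  exact h1.const_min 1

theorem tendsto_cut {Y : Set E} (hne : ((interior Y)ᶜ).Nonempty) (y : E) :
    Tendsto (fun n => cut Y n y) atTop (𝓝 ((interior Y).indicator (fun _ => 1) y)) := by
  by_cases hy : y ∈ interior Y
  · rw [indicator_of_mem hy]
    have hpos : 0 < infDist y (interior Y)ᶜ := by
      rw [← isOpen_interior.isClosed_compl.notMem_iff_infDist_pos hne]
      exact fun h => h hy
    refine tendsto_const_nhds.congr' ?_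
    obtain ⟨N, hN⟩ := exists_nat_gt (1 / infDist y (interior Y)ᶜ)
    filter_upwards [eventually_ge_atTop N] with n hn
    rw [cut, min_eq_left]
    have h1 : 1 / infDist y (interior Y)ᶜ ≤ n := hN.le.trans (by exact_mod_cast hn)
    rwa [div_le_iff₀ hpos] at h1
  · rw [indicator_of_notMem hy]
    refine tendsto_const_nhds.congr fun n => (cut_eq_zero n hy).symm

variable {Z : Type*} [MetricSpace Z]

theorem HasMetricDerivWithinAt.le_of_dist_le {k : ℕ} {W : Type*} [MetricSpace W] {φ : Rk k → Z}
    {ψ : Rk k → W} {s t : Seminorm ℝ (Rk k)} {K : Set (Rk k)} {x : Rk k} (hx : IsDP K x)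
    (hs : HasMetricDerivWithinAt φ s K x) (ht : HasMetricDerivWithinAt ψ t K x)
    (hle : ∀ y, dist (ψ y) (ψ x) ≤ dist (φ y) (φ x)) (v : Rk k) : t v ≤ s v := by
  refine hx.le_of_littleO (seminorm_continuous t) (seminorm_continuous s)
    (fun c v hc => seminorm_hom t c v hc) (fun c v hc => seminorm_hom s c v hc) ?_ v
  intro ε hε
  filter_upwards [(isLittleO_iff.1 hs) (half_pos hε), (isLittleO_iff.1 ht) (half_pos hε)]
    with y hy1 hy2
  rw [Real.norm_eq_abs, abs_le] at hy1 hy2
  linarith [hy1.1, hy1.2, hy2.1, hy2.2, hle y]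

variable [MeasurableSpace E] [BorelSpace E]

set_option linter.unusedSectionVars false

/-- the part of the push-forward of a parametrisation lying outside the interior of `Y` -/
def outerParam (R : LipParam m Z) {f : Z → E} (hf : LipschitzWith 1 f) (Y : Set E) :
    LipParam m E where
  K i := R.K i ∩ (fun x => f (R.φ i x)) ⁻¹' (interior Y)ᶜ
  φ i x := f (R.φ i x)
  θ := R.θ
  measurableSet_K i := by
    obtain ⟨C, hC⟩ := R.lipschitz i
    exact measurableSet_inter_preimage (hf.continuous.comp_continuousOn hC.continuousOn)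
      (R.measurableSet_K i) isOpen_interior.isClosed_compl.measurableSet
  measurable_θ := R.measurable_θ
  lipschitz i := by
    obtain ⟨C, hC⟩ := R.lipschitz i
    exact ⟨1 * C, (hf.comp_lipschitzOnWith hC).mono inter_subset_left⟩

theorem outerParam_mass_le (R : LipParam m Z) {f : Z → E} (hf : LipschitzWith 1 f) (Y : Set E)
    {J : FinslerVolume} (hJ : IsGoodVolume J) :
    (outerParam R hf Y).mass J ≤
      ∫⁻ q in (fun q => f (R.Φ q)) ⁻¹' (interior Y)ᶜ,
        ((R.Θ q).natAbs : ℝ≥0∞) * J m (R.md q) ∂(R.vol) := by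
  let _ : MeasurableSpace Z := borel Z
  have : BorelSpace Z := ⟨rfl⟩
  have hnull : NullMeasurableSet ((fun q => f (R.Φ q)) ⁻¹' (interior Y)ᶜ) R.vol :=
    (hf.continuous.measurable.comp_aemeasurable R.aemeasurable_Φ).nullMeasurableSet_preimage
      isOpen_interior.isClosed_compl.measurableSet
  rw [← lintegral_indicator₀ hnull, R.lintegral_vol]
  refine ENNReal.tsum_le_tsum fun i => ?_
  set R' := outerParam R hf Y with hR'
  have hKm : MeasurableSet (R'.K i) := R'.measurableSet_K i
  obtain ⟨C, hC⟩ := R.lipschitz i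
  obtain ⟨C', hC'⟩ := R'.lipschitz i
  have hsub : R'.K i ⊆ R.K i := inter_subset_left
  have h1 : ∫⁻ x in R'.K i, ((R'.θ i x).natAbs : ℝ≥0∞) * J m (metricDeriv (R'.φ i) (R'.K i) x) ≤
      ∫⁻ x in R'.K i, ((fun q => f (R.Φ q)) ⁻¹' (interior Y)ᶜ).indicator
        (fun q => ((R.Θ q).natAbs : ℝ≥0∞) * J m (R.md q)) (i, x) := by
    refine lintegral_mono_ae ?_
    filter_upwards [ae_isDP (R'.K i), ae_restrict_mem hKm,
      ae_restrict_of_ae_restrict_of_subset hsub
        (ae_hasMetricDerivWithinAt (R.measurableSet_K i) hC),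
      ae_hasMetricDerivWithinAt hKm hC'] with x h2 h3 h4 h5
    rw [indicator_of_mem (show (i, x) ∈ (fun q => f (R.Φ q)) ⁻¹' (interior Y)ᶜ from h3.2)]
    show ((R.θ i x).natAbs : ℝ≥0∞) * J m (metricDeriv (R'.φ i) (R'.K i) x) ≤
      ((R.θ i x).natAbs : ℝ≥0∞) * J m (metricDeriv (R.φ i) (R.K i) x)
    gcongr
    refine hJ.mono m _ _ fun v => ?_
    exact HasMetricDerivWithinAt.le_of_dist_le h2 (h4.mono hsub) h5
      (fun y => by
        show dist (f (R.φ i y)) (f (R.φ i x)) ≤ dist (R.φ i y) (R.φ i x)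
        simpa using hf.dist_le_mul (R.φ i y) (R.φ i x)) v
  exact h1.trans (lintegral_mono_set hsub)

/-- the currents `∂[Y]` and `outerParam` agree -/
theorem currentEq_outerParam (e : E ≃L[ℝ] Rk (m + 1)) {Y : Set E} (hY : IsCompact Y)
    {T : MetricFunctional (m + 1) Z} {f : Z → E} (hf : LipschitzWith 1 f)
    (hpush : CurrentEq (pushforward f T) (integrationCurrent e Y))
    {R : LipParam m Z} {J : FinslerVolume} (hJ : IsGoodVolume J) (hm : R.mass J < ∞)
    (hR : CurrentEq (boundary T) R.current) :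
    CurrentEq (boundary (integrationCurrent e Y)) (outerParam R hf Y).current := by
  let _ : MeasurableSpace Z := borel Z
  have : BorelSpace Z := ⟨rfl⟩
  intro h π hadm
  obtain ⟨hh, ⟨M, hM⟩, hπ⟩ := hadm
  obtain ⟨L, hL⟩ := exists_lipschitz_pi hπ
  obtain ⟨Ch, hCh⟩ := hh
  have hfπ : LipschitzWith (L * 1) fun z j => π j (f z) := hL.comp hf
  -- values of the boundary
  have hval : ∀ g : E → ℝ, IsLip g → (∀ y, |g y| ≤ |M|) →
      boundary (integrationCurrent e Y) g π =
        ∫ q, (R.Θ q : ℝ) * g (f (R.Φ q)) * (R.D (fun z j => π j (f z)) q).det ∂(R.vol) := by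
    intro g hg hgM
    obtain ⟨Cg, hCg⟩ := hg
    have h1 : boundary (integrationCurrent e Y) g π = boundary T (fun z => g (f z))
        (fun j z => π j (f z)) := by
      have hadm1 : Admissible (fun _ : E => (1 : ℝ)) (Fin.cons g π : Fin (m + 1) → E → ℝ) := by
        refine ⟨⟨0, LipschitzWith.const _⟩, ⟨1, fun _ => by simp⟩, fun j => ?_⟩
        refine Fin.cases ?_ (fun i => ?_) j
        · simpa using ⟨Cg, hCg⟩
        · simpa using hπ i
      have h2 := hpush _ _ hadm1
      show integrationCurrent e Y (fun _ => 1) (Fin.cons g π) = T (fun _ => 1)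
        (Fin.cons (fun z => g (f z)) (fun j z => π j (f z)))
      rw [← h2]
      show T (fun _ => 1) (fun j z => (Fin.cons g π : Fin (m + 1) → E → ℝ) j (f z)) = _
      congr 1
      funext j
      refine Fin.cases ?_ (fun i => ?_) j
      · simp
      · simp
    rw [h1, hR (fun z => g (f z)) (fun j z => π j (f z))
      ⟨⟨_, hCg.comp hf⟩, ⟨|M|, fun z => hgM _⟩, fun j => by
      obtain ⟨Cj, hCj⟩ := hπ j
      exact ⟨_, hCj.comp hf⟩⟩]
    exact R.current_eq hJ hm (hCg.continuous.comp hf.continuous) (fun z => hgM _) hfπ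
  rw [hval h ⟨Ch, hCh⟩ (fun y => (hM y).trans (le_abs_self M))]
  set G : Z → Rk m := fun z j => π j (f z) with hG
  set a : ℕ × Rk m → ℝ := fun q => (R.Θ q : ℝ) * h (f (R.Φ q)) * (R.D G q).det with ha
  have hfΦ : AEMeasurable (fun q => f (R.Φ q)) R.vol :=
    hf.continuous.measurable.comp_aemeasurable R.aemeasurable_Φ
  have haint : Integrable a R.vol :=
    R.integrable_mul hJ hm hfπ (hCh.continuous.measurable.comp_aemeasurable hfΦ)
      (fun q => hM _)
  set V : Set (ℕ × Rk m) := (fun q => f (R.Φ q)) ⁻¹' (interior Y)ᶜ with hV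
  have hVn : NullMeasurableSet V R.vol :=
    hfΦ.nullMeasurableSet_preimage isOpen_interior.isClosed_compl.measurableSet
  -- the interior part vanishes
  have hint0 : ∫ q in Vᶜ, a q ∂(R.vol) = 0 := by
    rcases ((interior Y)ᶜ).eq_empty_or_nonempty with hemp | hne
    · -- impossible unless `Y` is everything, then `m + 1`-dimensional space is compact
      exfalso
      have h1 : Y = univ := by
        rw [compl_empty_iff] at hemp
        exact eq_univ_of_univ_subset (hemp ▸ interior_subset)
      rw [h1] at hY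
      have h2 : CompactSpace E := ⟨hY⟩
      have h3 : CompactSpace (Rk (m + 1)) := e.toHomeomorph.compactSpace
      exact noncompact_univ (Rk (m + 1)) isCompact_univ
    have hlim : Tendsto (fun n : ℕ => ∫ q, cut Y n (f (R.Φ q)) * a q ∂(R.vol)) atTop
        (𝓝 (∫ q, (interior Y).indicator (fun _ => (1 : ℝ)) (f (R.Φ q)) * a q ∂(R.vol))) := by
      refine tendsto_integral_of_dominated_convergence (fun q => ‖a q‖) (fun n => ?_) haint.norm
        (fun n => ?_) ?_
      · obtain ⟨Cc, hCc⟩ := isLip_cut Y n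
        exact (hCc.continuous.measurable.comp_aemeasurable hfΦ).aestronglyMeasurable.mul
          haint.aestronglyMeasurable
      · refine Eventually.of_forall fun q => ?_
        rw [norm_mul]
        calc ‖cut Y n (f (R.Φ q))‖ * ‖a q‖ ≤ 1 * ‖a q‖ := by
              gcongr
              exact abs_cut_le Y n _
          _ = ‖a q‖ := one_mul _
      · exact Eventually.of_forall fun q => (tendsto_cut hne _).mul_const _
    have hzero : ∀ n : ℕ, ∫ q, cut Y n (f (R.Φ q)) * a q ∂(R.vol) = 0 := by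
      intro n
      have hlipg : IsLip fun y => cut Y n y * h y :=
        (isLip_cut Y n).mul ⟨Ch, hCh⟩ (abs_cut_le Y n) hM
      have h1 := hval (fun y => cut Y n y * h y) hlipg (fun y => by
        rw [abs_mul]
        calc |cut Y n y| * |h y| ≤ 1 * |M| :=
              mul_le_mul (abs_cut_le Y n y) ((hM y).trans (le_abs_self M)) (abs_nonneg _)
                zero_le_one
          _ = |M| := one_mul _)
      rw [boundary_integrationCurrent_eq_zero e hY hlipg (fun y hy => by
        rw [cut_eq_zero n (fun h => hy (interior_subset h)), zero_mul]) hπ] at h1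
      rw [h1]
      refine integral_congr_ae (Eventually.of_forall fun q => ?_)
      simp only [ha, hG]
      ring
    have h2 := tendsto_nhds_unique hlim (tendsto_const_nhds.congr fun n => (hzero n).symm)
    rw [← integral_indicator₀ hVn.compl, ← h2]
    refine integral_congr_ae (Eventually.of_forall fun q => ?_)
    by_cases hq : f (R.Φ q) ∈ interior Y
    · have : q ∈ Vᶜ := fun hcon => hcon hq
      show Vᶜ.indicator a q = (interior Y).indicator (fun _ => (1 : ℝ)) (f (R.Φ q)) * a q
      rw [indicator_of_mem this, indicator_of_mem hq, one_mul]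
    · have : q ∉ Vᶜ := fun hcon => hcon hq
      show Vᶜ.indicator a q = (interior Y).indicator (fun _ => (1 : ℝ)) (f (R.Φ q)) * a q
      rw [indicator_of_notMem this, indicator_of_notMem hq, zero_mul]
  have h3 : ∫ q, a q ∂(R.vol) = ∫ q in V, a q ∂(R.vol) := by
    have := integral_add_compl₀ hVn haint
    rw [hint0, add_zero] at this
    exact this.symm
  rw [h3, ← integral_indicator₀ hVn, R.integral_vol (haint.indicator₀ hVn)]
  -- compare piecewise
  show _ = ∑' i, ∫ x in (outerParam R hf Y).K i, ((outerParam R hf Y).θ i x : ℝ) *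
    h ((outerParam R hf Y).φ i x) *
    (fderivWithin ℝ (fun y j => π j ((outerParam R hf Y).φ i y)) ((outerParam R hf Y).K i) x).det
  refine tsum_congr fun i => ?_
  set K' := (outerParam R hf Y).K i with hK'
  have hK'm : MeasurableSet K' := (outerParam R hf Y).measurableSet_K i
  have hsub : K' ⊆ R.K i := inter_subset_left
  obtain ⟨C, hC⟩ := R.lipschitzOn_comp hfπ i
  have h4 : ∫ x in R.K i, V.indicator a (i, x) = ∫ x in K', a (i, x) := by
    have : ∫ x in R.K i, V.indicator a (i, x) = ∫ x in R.K i, K'.indicator (fun x => a (i, x)) x := by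
      refine setIntegral_congr_fun (R.measurableSet_K i) fun x hx => ?_
      by_cases hxV : (i, x) ∈ V
      · have h5 : x ∈ K' := ⟨hx, hxV⟩
        show V.indicator a (i, x) = K'.indicator (fun x => a (i, x)) x
        rw [indicator_of_mem hxV, indicator_of_mem h5]
      · have h5 : x ∉ K' := fun h => hxV h.2
        show V.indicator a (i, x) = K'.indicator (fun x => a (i, x)) x
        rw [indicator_of_notMem hxV, indicator_of_notMem h5]
    rw [this, setIntegral_indicator hK'm, inter_eq_right.2 hsub]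
  rw [h4]
  refine integral_congr_ae ?_
  filter_upwards [ae_fderivWithin_subset hC (R.measurableSet_K i) hsub] with x hx
  show (R.θ i x : ℝ) * h (f (R.φ i x)) * (fderivWithin ℝ (fun y => G (R.φ i y)) (R.K i) x).det =
    (R.θ i x : ℝ) * h (f (R.φ i x)) * (fderivWithin ℝ (fun y => G (R.φ i y)) K' x).det
  rw [hx.2]

/-- **Step 1.** If the boundary of `T` is not heavier than `∂[Y]`, then `∂T` lives over the
boundary of `Y`. -/
theorem ae_theta_eq_zero (e : E ≃L[ℝ] Rk (m + 1)) {Y : Set E} (hY : IsCompact Y)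
    {T : MetricFunctional (m + 1) Z} {f : Z → E} (hf : LipschitzWith 1 f)
    (hpush : CurrentEq (pushforward f T) (integrationCurrent e Y))
    {R : LipParam m Z} (hinj : R.IsInjective) {J : FinslerVolume} (hJ : IsGoodVolume J)
    (hm : R.mass J < ∞) (hR : CurrentEq (boundary T) R.current)
    (hmass : R.mass J ≤ finslerMass J (boundary (integrationCurrent e Y))) :
    ∀ᵐ q ∂(R.vol), f (R.Φ q) ∈ interior Y → R.Θ q = 0 := by
  let _ : MeasurableSpace Z := borel Z
  have : BorelSpace Z := ⟨rfl⟩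
  have hfΦ : AEMeasurable (fun q => f (R.Φ q)) R.vol :=
    hf.continuous.measurable.comp_aemeasurable R.aemeasurable_Φ
  set V : Set (ℕ × Rk m) := (fun q => f (R.Φ q)) ⁻¹' (interior Y)ᶜ with hV
  have hVn : NullMeasurableSet V R.vol :=
    hfΦ.nullMeasurableSet_preimage isOpen_interior.isClosed_compl.measurableSet
  set b : ℕ × Rk m → ℝ≥0∞ := fun q => ((R.Θ q).natAbs : ℝ≥0∞) * J m (R.md q) with hb
  have h0 : finslerMass J (boundary (integrationCurrent e Y)) ≤ (outerParam R hf Y).mass J :=
    iInf₂_le (f := fun (R' : LipParam m E)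
      (_ : CurrentEq (boundary (integrationCurrent e Y)) R'.current) => R'.mass J)
      (outerParam R hf Y) (currentEq_outerParam e hY hf hpush hJ hm hR)
  have h1 : finslerMass J (boundary (integrationCurrent e Y)) ≤ ∫⁻ q in V, b q ∂(R.vol) :=
    h0.trans (outerParam_mass_le R hf Y hJ)
  have hsum : R.mass J = ∫⁻ q in V, b q ∂(R.vol) + ∫⁻ q in Vᶜ, b q ∂(R.vol) := by
    rw [R.mass_eq, ← lintegral_add_measure, ← Measure.restrict_union₀
      (disjoint_compl_right.aedisjoint) hVn.compl, union_compl_self, Measure.restrict_univ]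
  have hVfin : ∫⁻ q in V, b q ∂(R.vol) ≠ ∞ := by
    refine ne_top_of_le_ne_top hm.ne ?_
    rw [hsum]; exact le_self_add
  have h0' : ∫⁻ q in Vᶜ, b q ∂(R.vol) = 0 := by
    have h2 := hmass.trans h1
    rw [hsum] at h2
    by_contra hne
    exact absurd h2 (not_le.2 (ENNReal.lt_add_right hVfin hne))
  have hbm : AEMeasurable b R.vol := by
    refine AEMeasurable.mul ?_ (R.aemeasurable_J hJ)
    exact ((measurable_from_top (f := fun n : ℤ => (n.natAbs : ℝ≥0∞))).comp
      R.measurable_Θ).aemeasurable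
  rw [lintegral_eq_zero_iff' hbm.restrict, EventuallyEq, ae_restrict_iff'₀ hVn.compl] at h0'
  filter_upwards [h0', hinj.isNormLike] with q hq hn hmem
  have h2 : b q = 0 := hq (fun hcon => hcon hmem)
  rw [hb] at h2
  dsimp only at h2
  rcases mul_eq_zero.1 h2 with h3 | h3
  · have : (R.Θ q).natAbs = 0 := by exact_mod_cast h3
    exact Int.natAbs_eq_zero.1 this
  · exact absurd h3 (hJ.pos m _ hn).ne'

/-- `∂T` vanishes on functions vanishing over the complement of the interior of `Y` -/
theorem boundary_eq_zero {Y : Set E} {T : MetricFunctional (m + 1) Z} {f : Z → E}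
    {R : LipParam m Z} {J : FinslerVolume} (hJ : IsGoodVolume J)
    (hm : R.mass J < ∞) (hR : CurrentEq (boundary T) R.current)
    (hΘ : ∀ᵐ q ∂(R.vol), f (R.Φ q) ∈ interior Y → R.Θ q = 0)
    {h : Z → ℝ} {π : Fin m → Z → ℝ} (hadm : Admissible h π)
    (h0 : ∀ z, f z ∉ interior Y → h z = 0) : boundary T h π = 0 := by
  obtain ⟨⟨Ch, hCh⟩, ⟨M, hM⟩, hπ⟩ := hadm
  obtain ⟨L, hL⟩ := exists_lipschitz_pi hπ
  rw [hR _ _ ⟨⟨Ch, hCh⟩, ⟨M, hM⟩, hπ⟩, R.current_eq hJ hm hCh.continuous hM hL]
  refine integral_eq_zero_of_ae ?_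
  filter_upwards [hΘ] with q hq
  show (R.Θ q : ℝ) * h (R.Φ q) * _ = 0
  by_cases hmem : f (R.Φ q) ∈ interior Y
  · rw [hq hmem]; simp
  · rw [h0 _ hmem]; simp

end FinslerRigid
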