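import Mathlib

/-!
# Integral currents in metric spaces (parametric form) and Finsler masses

Definitions for MP_2c180d_gt.  Everything follows Ambrosio-Kirchheim, with integer
rectifiable currents given by their parametric representation
(Ambrosio-Kirchheim, Theorem 4.5), and Finsler masses given by the area formula
with the metric derivative (Kirchheim).
-/

open MeasureTheory Set Filter Topology Asymptotics
open scoped NNReal ENNReal

namespace FinslerRigid

universe u

/-- `ℝ^k`, with Lebesgue measure `volume`. -/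
abbrev Rk (k : ℕ) := Fin k → ℝ

/-! ## Metric derivative -/

/-- `s` is a metric derivative of `φ` at `x`, relative to the set `K`:
`d (φ y, φ x) = s (y - x) + o(|y - x|)` as `y → x` in `K`. -/
def HasMetricDerivWithinAt {k : ℕ} {Z : Type*} [MetricSpace Z] (φ : Rk k → Z)
    (s : Seminorm ℝ (Rk k)) (K : Set (Rk k)) (x : Rk k) : Prop :=
  (fun y => dist (φ y) (φ x) - s (y - x)) =o[𝓝[K] x] (fun y => y - x)

open Classical in
/-- The metric derivative of `φ` at `x`, relative to the set `K` (a seminorm on `ℝ^k`; it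
exists and is unique at almost every point of `K` if `φ` is Lipschitz on the measurable set
`K`, see `ae_hasMetricDerivWithinAt` and `HasMetricDerivWithinAt.unique`). -/
noncomputable def metricDeriv {k : ℕ} {Z : Type*} [MetricSpace Z] (φ : Rk k → Z)
    (K : Set (Rk k)) (x : Rk k) : Seminorm ℝ (Rk k) :=
  if h : ∃ s, HasMetricDerivWithinAt φ s K x then h.choose else 0

/-! ## Finsler volumes -/

/-- A choice of volume: to every (semi)norm `s` on `ℝ^k` the density, with respect to Lebesgue
measure, of the Haar measure `μ_V` attached to the normed space `V = (ℝ^k, s)`. -/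
abbrev FinslerVolume := ∀ k : ℕ, Seminorm ℝ (Rk k) → ℝ≥0∞

/-- `ω_k`, the volume of the Euclidean unit ball of dimension `k`. -/
noncomputable def omega (k : ℕ) : ℝ≥0∞ :=
  volume (Metric.ball (0 : EuclideanSpace ℝ (Fin k)) 1)

/-- The Busemann volume: the unit ball of `V` has volume `ω_k`. -/
noncomputable def busemann : FinslerVolume := fun k s =>
  omega k / volume {v : Rk k | s v ≤ 1}

/-- The Holmes-Thompson volume: the unit ball `B` of `V` has volume
`vol(B) vol(B°) / ω_k`, i.e. the density is `vol(B°) / ω_k`. -/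
noncomputable def holmesThompson : FinslerVolume := fun k s =>
  volume {ξ : Rk k | ∀ v, |∑ i, ξ i * v i| ≤ s v} / omega k

/-! ## Metric currents -/

/-- Functionals `T (h, π₁, …, π_k)` of real functions on `Z`.  Only their values on
admissible tuples matter. -/
abbrev MetricFunctional (k : ℕ) (Z : Type*) := (Z → ℝ) → (Fin k → Z → ℝ) → ℝ

/-- `u` is a Lipschitz function. -/
def IsLip {Z : Type*} [MetricSpace Z] (u : Z → ℝ) : Prop := ∃ C : ℝ≥0, LipschitzWith C u

/-- Admissible tuples: `h` bounded and Lipschitz, `π₁, …, π_k` Lipschitz. -/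
def Admissible {k : ℕ} {Z : Type*} [MetricSpace Z] (h : Z → ℝ) (π : Fin k → Z → ℝ) : Prop :=
  IsLip h ∧ (∃ M : ℝ, ∀ z, |h z| ≤ M) ∧ ∀ j, IsLip (π j)

/-- Equality of currents: the same values on all admissible tuples. -/
def CurrentEq {k : ℕ} {Z : Type*} [MetricSpace Z] (T S : MetricFunctional k Z) : Prop :=
  ∀ h π, Admissible h π → T h π = S h π

/-- The boundary: `∂T (h, π₁, …, π_k) = T (1, h, π₁, …, π_k)`. -/
def boundary {k : ℕ} {Z : Type*} (T : MetricFunctional (k + 1) Z) : MetricFunctional k Z :=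
  fun h π => T (fun _ => 1) (Fin.cons h π)

/-- The push-forward: `f_# T (h, π) = T (h ∘ f, π ∘ f)`. -/
def pushforward {k : ℕ} {Z W : Type*} (f : Z → W) (T : MetricFunctional k Z) :
    MetricFunctional k W :=
  fun h π => T (fun z => h (f z)) (fun j z => π j (f z))

/-- A Lipschitz parametrisation by countably many pieces: measurable sets `K i ⊆ ℝ^k`, maps
`φ i` Lipschitz on `K i` and integer multiplicities `θ i`. -/
structure LipParam (k : ℕ) (Z : Type*) [MetricSpace Z] where
  /-- the pieces -/
  K : ℕ → Set (Rk k)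
  /-- the maps -/
  φ : ℕ → Rk k → Z
  /-- the multiplicities -/
  θ : ℕ → Rk k → ℤ
  measurableSet_K : ∀ i, MeasurableSet (K i)
  measurable_θ : ∀ i, Measurable (θ i)
  lipschitz : ∀ i, ∃ C : ℝ≥0, LipschitzOnWith C (φ i) (K i)

namespace LipParam

variable {k : ℕ} {Z : Type*} [MetricSpace Z]

/-- The current `∑ᵢ (φᵢ)_# [θᵢ]`, that is
`(h, π) ↦ ∑ᵢ ∫_{Kᵢ} θᵢ (h ∘ φᵢ) det (D (π ∘ φᵢ))`. -/
noncomputable def current (R : LipParam k Z) : MetricFunctional k Z := fun h π =>
  ∑' i, ∫ x in R.K i, (R.θ i x : ℝ) * h (R.φ i x) *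
    (fderivWithin ℝ (fun y j => π j (R.φ i y)) (R.K i) x).det

/-- The Finsler mass of a parametrisation:
`∑ᵢ ∫_{Kᵢ} |θᵢ| J(md φᵢ)`. -/
noncomputable def mass (J : FinslerVolume) (R : LipParam k Z) : ℝ≥0∞ :=
  ∑' i, ∫⁻ x in R.K i, ((R.θ i x).natAbs : ℝ≥0∞) * J k (metricDeriv (R.φ i) (R.K i) x)

/-- The parametrisation is injective: each `φ i` is bi-Lipschitz on `K i` and the images of the
pieces are pairwise disjoint. -/
def IsInjective (R : LipParam k Z) : Prop :=
  (∀ i, ∃ C : ℝ, ∀ x ∈ R.K i, ∀ y ∈ R.K i, dist x y ≤ C * dist (R.φ i x) (R.φ i y)) ∧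
  Pairwise (fun i j => Disjoint (R.φ i '' R.K i) (R.φ j '' R.K j))

end LipParam

/-- Integer rectifiable `k`-currents: `T = ∑ᵢ (φᵢ)_# [θᵢ]` with bi-Lipschitz maps `φᵢ`, pairwise
disjoint images and finite mass. -/
def IsIntegerRectifiable {k : ℕ} {Z : Type*} [MetricSpace Z] (T : MetricFunctional k Z) : Prop :=
  ∃ R : LipParam k Z, R.IsInjective ∧ R.mass busemann < ∞ ∧ CurrentEq T R.current

/-- Integral currents: `T` and `∂T` are integer rectifiable. -/
def IsIntegralCurrent {k : ℕ} {Z : Type*} [MetricSpace Z]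
    (T : MetricFunctional (k + 1) Z) : Prop :=
  IsIntegerRectifiable T ∧ IsIntegerRectifiable (boundary T)

/-- The Finsler mass of a current, as the infimum over its Lipschitz parametrisations.  For an
integer rectifiable current it equals `∑ᵢ ∫_{Kᵢ} |θᵢ| J(md φᵢ)` for *every* injective
parametrisation (`finslerMass_eq_mass`). -/
noncomputable def finslerMass {k : ℕ} {Z : Type*} [MetricSpace Z] (J : FinslerVolume)
    (T : MetricFunctional k Z) : ℝ≥0∞ :=
  ⨅ (R : LipParam k Z) (_ : CurrentEq T R.current), R.mass J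

/-- The support of a current. -/
def spt {k : ℕ} {Z : Type*} [MetricSpace Z] (T : MetricFunctional k Z) : Set Z :=
  {z | ∀ r > 0, ∃ h π, Admissible h π ∧ (∀ w, r ≤ dist w z → h w = 0) ∧ T h π ≠ 0}

/-- The current `[Y]` of integration over a subset `Y` of a normed space `E`; the linear
coordinates `e` fix the orientation. -/
noncomputable def integrationCurrent {n : ℕ} {E : Type*} [NormedAddCommGroup E]
    [NormedSpace ℝ E] (e : E ≃L[ℝ] Rk n) (Y : Set E) : MetricFunctional n E := fun h π =>
  ∫ x in e '' Y, h (e.symm x) * (fderiv ℝ (fun y j => π j (e.symm y)) x).det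

/-- The Ambrosio-Kirchheim mass `‖T‖ (U)` of an open set `U`: the supremum of
`∑ᵢ |T (hᵢ, πⁱ₁, …, πⁱ_k)|` over finite families with `hᵢ` Lipschitz and zero off `U`,
`∑ᵢ |hᵢ| ≤ 1` and all `πⁱⱼ` 1-Lipschitz. -/
noncomputable def massOn {k : ℕ} {Z : Type*} [MetricSpace Z] (T : MetricFunctional k Z)
    (U : Set Z) : ℝ≥0∞ :=
  ⨆ (N : ℕ) (h : Fin N → Z → ℝ) (π : Fin N → Fin k → Z → ℝ)
    (_ : (∀ i, IsLip (h i)) ∧ (∀ i, ∀ z ∉ U, h i z = 0) ∧ (∀ z, ∑ i, |h i z| ≤ 1) ∧
      ∀ i j, LipschitzWith 1 (π i j)), ∑ i, ENNReal.ofReal |T (h i) (π i)|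

/-- The canonical set `set T`: the points where `T` has positive lower density,
`liminf_{r → 0} ‖T‖ (B (z, r)) / r ^ k > 0`. -/
def canonicalSet {k : ℕ} {Z : Type*} [MetricSpace Z] (T : MetricFunctional k Z) : Set Z :=
  {z | ∃ c : ℝ, 0 < c ∧ ∀ᶠ r in 𝓝[>] (0 : ℝ),
    ENNReal.ofReal (c * r ^ k) ≤ massOn T (Metric.ball z r)}

/-- An integral current space of dimension `k + 1`: a metric space `X` with an integral current
`T` on its completion such that `set T ⊆ X ⊆ spt T`.  (Always `set T ⊆ spt T`, see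
`canonicalSet_subset_spt`; so both conventions `X = set T` and `X = spt T` are included.) -/
structure IntegralCurrentSpace (k : ℕ) where
  /-- the underlying metric space -/
  X : Type u
  [metric : MetricSpace X]
  /-- the current `[X]` on the completion -/
  T : MetricFunctional (k + 1) (UniformSpace.Completion X)
  isIntegral : IsIntegralCurrent T
  canonicalSet_subset : canonicalSet T ⊆ range ((↑) : X → UniformSpace.Completion X)
  subset_spt : range ((↑) : X → UniformSpace.Completion X) ⊆ spt T

attribute [instance] IntegralCurrentSpace.metric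

/-- Lipschitz-volume rigidity of `Y` among integral current spaces, with respect to the Finsler
mass given by `J`. -/
def LipschitzVolumeRigid {k : ℕ} (J : FinslerVolume) {E : Type*} [NormedAddCommGroup E]
    [NormedSpace ℝ E] (e : E ≃L[ℝ] Rk (k + 1)) (Y : Set E) : Prop :=
  ∀ (S : IntegralCurrentSpace.{u} k) (f : S.X → E), LipschitzWith 1 f → (∀ x, f x ∈ Y) →
    CurrentEq (pushforward (UniformSpace.Completion.extension f) S.T)
      (integrationCurrent e Y) →
    finslerMass J (boundary S.T) ≤ finslerMass J (boundary (integrationCurrent e Y)) →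
    finslerMass J S.T ≤ finslerMass J (integrationCurrent e Y) →
    Isometry f ∧ range f = Y

end FinslerRigid
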