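import Pool.Agent.FinslerRigid.Defs

/-!
# Density points: uniqueness of (metric) derivatives relative to measurable sets
-/

open MeasureTheory Set Filter Topology Asymptotics Metric
open scoped NNReal ENNReal Pointwise

namespace FinslerRigid

variable {k : ℕ}

/-- every direction is a limit of directions of small secants of `K` at `x` -/
def IsDP (K : Set (Rk k)) (x : Rk k) : Prop :=
  ∀ z : Rk k, ∃ (c : ℕ → ℝ) (w : ℕ → Rk k), (∀ n, 0 < c n) ∧ Tendsto c atTop (𝓝 0) ∧
    Tendsto w atTop (𝓝 z) ∧ ∀ n, x + c n • w n ∈ K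

theorem ae_isDP (K : Set (Rk k)) : ∀ᵐ x ∂(volume.restrict K), IsDP K x := by
  filter_upwards [Besicovitch.ae_tendsto_measure_inter_div (volume : Measure (Rk k)) K] with x hx z
  have key : ∀ n : ℕ, ∃ r : ℝ, 0 < r ∧ r < 1 / (n + 1) ∧
      ∃ w : Rk k, ‖w - z‖ ≤ 1 / ((n : ℝ) + 1) ∧ x + r • w ∈ K := by
    intro n
    have hn : (0 : ℝ) < 1 / ((n : ℝ) + 1) := by positivity
    have h1 := Measure.eventually_nonempty_inter_smul_of_density_one (volume : Measure (Rk k)) K x hx
      (closedBall z (1 / ((n : ℝ) + 1))) measurableSet_closedBall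
      (measure_closedBall_pos volume z hn).ne'
    have h2 : ∀ᶠ r : ℝ in 𝓝[>] 0, r < 1 / ((n : ℝ) + 1) :=
      nhdsWithin_le_nhds (Iio_mem_nhds hn)
    have h3 : ∀ᶠ r : ℝ in 𝓝[>] 0, 0 < r := self_mem_nhdsWithin
    obtain ⟨r, ⟨y, hyK, hy⟩, hr, hr0⟩ := (h1.and (h2.and h3)).exists
    rw [Set.mem_add] at hy
    obtain ⟨a, ha, b, hb, hab⟩ := hy
    rw [mem_singleton_iff] at ha
    obtain ⟨w, hw, rfl⟩ := mem_smul_set.1 hb
    refine ⟨r, hr0, hr, w, by simpa [mem_closedBall, dist_eq_norm] using hw, ?_⟩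
    rw [ha] at hab
    simpa [hab] using hyK
  choose c hc0 hc1 w hw hK using key
  have ht : Tendsto (fun n : ℕ => 1 / ((n : ℝ) + 1)) atTop (𝓝 0) :=
    tendsto_one_div_add_atTop_nhds_zero_nat
  refine ⟨c, w, hc0, ?_, ?_, hK⟩
  · exact squeeze_zero (fun n => (hc0 n).le) (fun n => (hc1 n).le) ht
  · rw [tendsto_iff_norm_sub_tendsto_zero]
    exact squeeze_zero (fun n => norm_nonneg _) hw ht

theorem IsDP.mem_closure {K : Set (Rk k)} {x : Rk k} (h : IsDP K x) : x ∈ closure K := by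
  obtain ⟨c, w, hc, hc0, hw, hK⟩ := h 0
  have : Tendsto (fun n => x + c n • w n) atTop (𝓝 x) := by
    simpa using tendsto_const_nhds.add (hc0.smul hw)
  exact mem_closure_of_tendsto this (Eventually.of_forall hK)

theorem IsDP.uniqueDiffWithinAt {K : Set (Rk k)} {x : Rk k} (h : IsDP K x) :
    UniqueDiffWithinAt ℝ K x := by
  refine ⟨?_, h.mem_closure⟩
  have : tangentConeAt ℝ K x = univ := by
    refine eq_univ_of_forall fun z => ?_
    obtain ⟨c, w, hc, hc0, hw, hK⟩ := h z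
    refine mem_tangentConeAt_of_seq atTop (fun n => (c n)⁻¹) (fun n => c n • w n) ?_
      (Eventually.of_forall hK) ?_
    · simpa using hc0.smul hw
    · refine hw.congr fun n => ?_
      rw [smul_smul, inv_mul_cancel₀ (hc n).ne', one_smul]
  rw [this]
  simp

/-- seminorms on `ℝ^k` are bounded -/
theorem seminorm_le (s : Seminorm ℝ (Rk k)) : ∃ C : ℝ, 0 ≤ C ∧ ∀ v, s v ≤ C * ‖v‖ := by
  refine ⟨∑ i, s (Pi.single i 1), Finset.sum_nonneg fun i _ => apply_nonneg _ _, fun v => ?_⟩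
  have hv : v = ∑ i, v i • (Pi.single i 1 : Rk k) := by
    ext j
    simp [Finset.sum_apply, Pi.single_apply]
  have h1 : s v ≤ ∑ i, s (v i • (Pi.single i 1 : Rk k)) := by
    conv_lhs => rw [hv]
    exact Finset.le_sum_of_subadditive s (map_zero s).le (map_add_le_add s) _ _
  refine h1.trans ?_
  rw [Finset.sum_mul]
  refine Finset.sum_le_sum fun i _ => ?_
  rw [map_smul_eq_mul, mul_comm]
  exact mul_le_mul_of_nonneg_left (norm_le_pi_norm v i) (apply_nonneg _ _)

theorem seminorm_lipschitz (s : Seminorm ℝ (Rk k)) : ∃ C : ℝ≥0, LipschitzWith C s := by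
  obtain ⟨C, hC, h⟩ := seminorm_le s
  refine ⟨⟨C, hC⟩, LipschitzWith.of_dist_le_mul fun x y => ?_⟩
  rw [Real.dist_eq, dist_eq_norm]
  exact (abs_sub_map_le_sub s x y).trans (h _)

theorem seminorm_continuous (s : Seminorm ℝ (Rk k)) : Continuous s :=
  (seminorm_lipschitz s).choose_spec.continuous

/-- comparison of first order expansions at a density point -/
theorem IsDP.le_of_littleO {K : Set (Rk k)} {x : Rk k} (h : IsDP K x) {P Q : Rk k → ℝ}
    (hP : Continuous P) (hQ : Continuous Q)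
    (hP1 : ∀ (c : ℝ) v, 0 < c → P (c • v) = c * P v) (hQ1 : ∀ (c : ℝ) v, 0 < c → Q (c • v) = c * Q v)
    (hle : ∀ ε > 0, ∀ᶠ y in 𝓝[K] x, P (y - x) ≤ Q (y - x) + ε * ‖y - x‖) (v : Rk k) :
    P v ≤ Q v := by
  obtain ⟨c, w, hc, hc0, hw, hK⟩ := h v
  have hy : Tendsto (fun n => x + c n • w n) atTop (𝓝[K] x) := by
    refine tendsto_nhdsWithin_iff.2 ⟨?_, Eventually.of_forall hK⟩
    simpa using tendsto_const_nhds.add (hc0.smul hw)
  refine le_of_forall_pos_le_add fun δ hδ => ?_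
  set ε : ℝ := δ / (‖v‖ + 1) with hε
  have hv1 : 0 < ‖v‖ + 1 := by positivity
  have hε0 : 0 < ε := by positivity
  have h1 : ∀ᶠ n in atTop, P (w n) ≤ Q (w n) + ε * ‖w n‖ := by
    filter_upwards [hy.eventually (hle ε hε0)] with n hn
    rw [add_sub_cancel_left, hP1 _ _ (hc n), hQ1 _ _ (hc n), norm_smul, Real.norm_eq_abs,
      abs_of_pos (hc n)] at hn
    have : c n * P (w n) ≤ c n * (Q (w n) + ε * ‖w n‖) := by linarith
    exact le_of_mul_le_mul_left this (hc n)
  have h2 : P v ≤ Q v + ε * ‖v‖ :=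
    le_of_tendsto_of_tendsto ((hP.tendsto v).comp hw)
      (((hQ.tendsto v).comp hw).add ((hw.norm).const_mul ε)) h1
  have h3 : ε * ‖v‖ ≤ δ := by
    rw [hε, div_mul_eq_mul_div, div_le_iff₀ hv1]
    nlinarith [norm_nonneg v]
  linarith

theorem seminorm_hom (s : Seminorm ℝ (Rk k)) (c : ℝ) (v : Rk k) (hc : 0 < c) :
    s (c • v) = c * s v := by
  rw [map_smul_eq_mul, Real.norm_eq_abs, abs_of_pos hc]

variable {Z : Type*} [MetricSpace Z]

theorem HasMetricDerivWithinAt.unique {φ : Rk k → Z} {s s' : Seminorm ℝ (Rk k)}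
    {K : Set (Rk k)} {x : Rk k} (hx : IsDP K x) (h : HasMetricDerivWithinAt φ s K x)
    (h' : HasMetricDerivWithinAt φ s' K x) : s = s' := by
  have aux : ∀ {s s' : Seminorm ℝ (Rk k)}, HasMetricDerivWithinAt φ s K x →
      HasMetricDerivWithinAt φ s' K x → ∀ v, s v ≤ s' v := by
    intro s s' h h' v
    refine hx.le_of_littleO (seminorm_continuous s) (seminorm_continuous s')
      (fun c v hc => seminorm_hom s c v hc) (fun c v hc => seminorm_hom s' c v hc) ?_ v
    intro ε hε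
    have h1 := (isLittleO_iff.1 h) (half_pos hε)
    have h2 := (isLittleO_iff.1 h') (half_pos hε)
    filter_upwards [h1, h2] with y hy1 hy2
    rw [Real.norm_eq_abs, abs_le] at hy1 hy2
    linarith [hy1.1, hy1.2, hy2.1, hy2.2]
  ext v
  exact le_antisymm (aux h h' v) (aux h' h v)

theorem HasMetricDerivWithinAt.mono {φ : Rk k → Z} {s : Seminorm ℝ (Rk k)}
    {K K' : Set (Rk k)} {x : Rk k} (h : HasMetricDerivWithinAt φ s K x) (hK : K' ⊆ K) :
    HasMetricDerivWithinAt φ s K' x :=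
  IsLittleO.mono h (nhdsWithin_mono x hK)

theorem hasMetricDerivWithinAt_metricDeriv {φ : Rk k → Z} {K : Set (Rk k)} {x : Rk k}
    (h : ∃ s, HasMetricDerivWithinAt φ s K x) :
    HasMetricDerivWithinAt φ (metricDeriv φ K x) K x := by
  rw [metricDeriv, dif_pos h]
  exact h.choose_spec

theorem HasMetricDerivWithinAt.metricDeriv_eq {φ : Rk k → Z} {s : Seminorm ℝ (Rk k)}
    {K : Set (Rk k)} {x : Rk k} (hx : IsDP K x) (h : HasMetricDerivWithinAt φ s K x) :
    metricDeriv φ K x = s :=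
  (hasMetricDerivWithinAt_metricDeriv ⟨s, h⟩).unique hx h

/-- a bi-Lipschitz map has metric derivative a norm -/
theorem HasMetricDerivWithinAt.norm_le {φ : Rk k → Z} {s : Seminorm ℝ (Rk k)}
    {K : Set (Rk k)} {x : Rk k} (hx : IsDP K x) (hxK : x ∈ K)
    (h : HasMetricDerivWithinAt φ s K x) {C : ℝ}
    (hC : ∀ x ∈ K, ∀ y ∈ K, dist x y ≤ C * dist (φ x) (φ y)) (v : Rk k) : ‖v‖ ≤ C * s v := by
  refine hx.le_of_littleO (P := fun v => ‖v‖) (Q := fun v => C * s v) continuous_norm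
    (continuous_const.mul (seminorm_continuous s))
    (fun c v hc => by rw [norm_smul, Real.norm_eq_abs, abs_of_pos hc])
    (fun c v hc => by rw [seminorm_hom s c v hc]; ring) ?_ v
  intro ε hε
  have h1 := (isLittleO_iff.1 h) (show (0 : ℝ) < ε / (|C| + 1) by positivity)
  filter_upwards [h1, self_mem_nhdsWithin] with y hy hyK
  have h2 := hC y hyK x hxK
  rw [dist_eq_norm] at h2
  have h3 : C * (dist (φ y) (φ x) - s (y - x)) ≤ ε * ‖y - x‖ := by
    refine (le_abs_self _).trans ?_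
    rw [abs_mul]
    rw [Real.norm_eq_abs] at hy
    calc |C| * |dist (φ y) (φ x) - s (y - x)| ≤ |C| * (ε / (|C| + 1) * ‖y - x‖) := by gcongr
      _ = (|C| / (|C| + 1)) * (ε * ‖y - x‖) := by ring
      _ ≤ 1 * (ε * ‖y - x‖) := by
          gcongr
          rw [div_le_one (by positivity)]
          linarith
      _ = ε * ‖y - x‖ := one_mul _
  linarith

/-- first order comparison: if `ψ : ℝ^k → F` satisfies `P (ψ y - ψ x) ≤ d (φ y) (φ x)` for a
continuous seminorm `P`, then `P (Dψ v) ≤ md φ v` -/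
theorem HasMetricDerivWithinAt.apply_le {F : Type*} [NormedAddCommGroup F] [NormedSpace ℝ F]
    {φ : Rk k → Z} {s : Seminorm ℝ (Rk k)} {K : Set (Rk k)} {x : Rk k} (hx : IsDP K x)
    (h : HasMetricDerivWithinAt φ s K x) {ψ : Rk k → F} {A : Rk k →L[ℝ] F}
    (hψ : HasFDerivWithinAt ψ A K x) {P : Seminorm ℝ F} {C : ℝ} (hPC : ∀ w, P w ≤ C * ‖w‖)
    {L : ℝ} (hL : ∀ y ∈ K, P (ψ y - ψ x) ≤ L * dist (φ y) (φ x)) (v : Rk k) :
    P (A v) ≤ L * s v := by
  have hPcont : Continuous P := by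
    refine Seminorm.continuous_of_continuousAt_zero ?_
    rw [ContinuousAt, map_zero]
    refine squeeze_zero (fun w => apply_nonneg P w) hPC ?_
    simpa using (tendsto_norm_zero (E := F)).const_mul C
  refine hx.le_of_littleO (P := fun v => P (A v)) (Q := fun v => L * s v)
    (hPcont.comp A.continuous) (continuous_const.mul (seminorm_continuous s))
    (fun c v hc => by simp [map_smul_eq_mul, abs_of_pos hc])
    (fun c v hc => by rw [seminorm_hom s c v hc]; ring) ?_ v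
  intro ε hε
  have h1 := (isLittleO_iff.1 h) (show (0 : ℝ) < (ε / 2) / (|L| + 1) by positivity)
  have h2 := (isLittleO_iff.1 hψ.isLittleO) (show (0 : ℝ) < (ε / 2) / (|C| + 1) by positivity)
  filter_upwards [h1, h2, self_mem_nhdsWithin] with y hy hy2 hyK
  have h3 : L * (dist (φ y) (φ x) - s (y - x)) ≤ ε / 2 * ‖y - x‖ := by
    refine (le_abs_self _).trans ?_
    rw [abs_mul]
    rw [Real.norm_eq_abs] at hy
    calc |L| * |dist (φ y) (φ x) - s (y - x)| ≤ |L| * ((ε / 2) / (|L| + 1) * ‖y - x‖) := by gcongr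
      _ = (|L| / (|L| + 1)) * (ε / 2 * ‖y - x‖) := by ring
      _ ≤ 1 * (ε / 2 * ‖y - x‖) := by
          gcongr
          rw [div_le_one (by positivity)]
          linarith
      _ = ε / 2 * ‖y - x‖ := one_mul _
  have h4 : P (ψ y - ψ x - A (y - x)) ≤ ε / 2 * ‖y - x‖ := by
    refine (hPC _).trans ?_
    calc C * ‖ψ y - ψ x - A (y - x)‖ ≤ |C| * ((ε / 2) / (|C| + 1) * ‖y - x‖) := by
          refine mul_le_mul (le_abs_self C) hy2 (norm_nonneg _) (abs_nonneg _)
      _ = (|C| / (|C| + 1)) * (ε / 2 * ‖y - x‖) := by ring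
      _ ≤ 1 * (ε / 2 * ‖y - x‖) := by
          gcongr
          rw [div_le_one (by positivity)]
          linarith
      _ = ε / 2 * ‖y - x‖ := one_mul _
  have h5 : P (A (y - x)) ≤ P (ψ y - ψ x) + P (ψ y - ψ x - A (y - x)) := by
    have := map_sub_le_add P (ψ y - ψ x) (ψ y - ψ x - A (y - x))
    simpa using this
  have h6 := hL y hyK
  linarith

/-- chain rule for the metric derivative -/
theorem HasMetricDerivWithinAt.comp {l : ℕ} {φ : Rk l → Z} {s : Seminorm ℝ (Rk l)}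
    {K : Set (Rk l)} {τ : Rk k → Rk l} {A : Rk k →L[ℝ] Rk l} {K' : Set (Rk k)} {x : Rk k}
    (h : HasMetricDerivWithinAt φ s K (τ x)) (hτ : HasFDerivWithinAt τ A K' x)
    (hmaps : MapsTo τ K' K) :
    HasMetricDerivWithinAt (φ ∘ τ) (s.comp (A : Rk k →ₗ[ℝ] Rk l)) K' x := by
  obtain ⟨C, hC0, hC⟩ := seminorm_le s
  rw [HasMetricDerivWithinAt]
  have h1 : (fun y => dist (φ (τ y)) (φ (τ x)) - s (τ y - τ x)) =o[𝓝[K'] x]
      (fun y => τ y - τ x) := by
    have ht : Tendsto τ (𝓝[K'] x) (𝓝[K] (τ x)) :=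
      hτ.continuousWithinAt.tendsto_nhdsWithin hmaps
    exact IsLittleO.comp_tendsto h ht
  have h2 : (fun y => τ y - τ x) =O[𝓝[K'] x] (fun y => y - x) := hτ.isBigO_sub
  have h3 := h1.trans_isBigO h2
  have h4 : (fun y => s (τ y - τ x) - s (A (y - x))) =o[𝓝[K'] x] (fun y => y - x) := by
    have h5 : (fun y => s (τ y - τ x) - s (A (y - x))) =O[𝓝[K'] x]
        (fun y => τ y - τ x - A (y - x)) := by
      refine IsBigO.of_bound C (Eventually.of_forall fun y => ?_)
      rw [Real.norm_eq_abs]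
      exact (abs_sub_map_le_sub s _ _).trans (hC _)
    exact h5.trans_isLittleO hτ.isLittleO
  have h6 := h3.add h4
  refine h6.congr_left fun y => ?_
  simp [Seminorm.comp_apply]

end FinslerRigid
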