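import Pool.Agent.FinslerRigid.Body

/-!
# Injectivity of `f` on a full set
-/

open MeasureTheory Set Filter Topology Asymptotics Metric
open scoped NNReal ENNReal

namespace FinslerRigid

variable {n : ℕ} {E : Type*} [NormedAddCommGroup E] [NormedSpace ℝ E]
  {Z : Type*} [MetricSpace Z]

namespace Setup

variable {J : FinslerVolume} {e : E ≃L[ℝ] Rk n} {Y : Set E} {f : Z → E}
  {T : MetricFunctional n Z} {R : LipParam n Z} (S : Setup J e Y f T R)

include S

/-- the unsigned area formula -/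
theorem lintegral_dens {B : Set (Rk n)} (hB : MeasurableSet B) :
    ∫⁻ q in (fun q => coordMap e f (R.Φ q)) ⁻¹' B, ‖dens e f R q‖ₑ ∂(R.vol) =
      volume (e '' Y ∩ B) := by
  have h1 := S.integral_dens hB
  have hpos : 0 ≤ᵐ[R.vol.restrict ((fun q => coordMap e f (R.Φ q)) ⁻¹' B)] dens e f R :=
    ae_restrict_of_ae (by filter_upwards [S.ae_rigid] with q hq using hq.1)
  have hfin : volume (e '' Y ∩ B) ≠ ∞ :=
    (measure_mono inter_subset_left |>.trans_lt S.volume_body_lt_top).ne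
  have h2 := ofReal_integral_eq_lintegral_ofReal S.integrable_dens.integrableOn hpos
  rw [h1, ENNReal.ofReal_toReal hfin] at h2
  rw [h2]
  refine lintegral_congr_ae ?_
  filter_upwards [hpos] with q hq
  rw [← ofReal_norm, Real.norm_eq_abs, abs_of_nonneg hq]

theorem aemeasurable_enorm_dens : AEMeasurable (fun q => ‖dens e f R q‖ₑ) R.vol :=
  S.integrable_dens.aestronglyMeasurable.enorm

/-- transfer of integrals -/
theorem integral_transfer {g : Rk n → ℝ} (hg : Measurable g) :
    ∫ x in e '' Y, g x = ∫ q, dens e f R q * g (coordMap e f (R.Φ q)) ∂(R.vol) := by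
  set β := R.vol.withDensity (fun q => ‖dens e f R q‖ₑ) with hβ
  have hFβ : AEMeasurable (fun q => coordMap e f (R.Φ q)) β :=
    S.aemeasurable_F.mono_ac (withDensity_absolutelyContinuous _ _)
  have hmap : β.map (fun q => coordMap e f (R.Φ q)) = volume.restrict (e '' Y) := by
    ext B hB
    rw [Measure.map_apply_of_aemeasurable hFβ hB, hβ, withDensity_apply₀, S.lintegral_dens hB,
      Measure.restrict_apply hB, inter_comm]
    exact S.aemeasurable_F.nullMeasurableSet_preimage hB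
  rw [← hmap, integral_map hFβ hg.aestronglyMeasurable, hβ,
    integral_withDensity_eq_integral_toReal_smul₀ S.aemeasurable_enorm_dens
      (Eventually.of_forall fun q => by simp)]
  refine integral_congr_ae ?_
  filter_upwards [S.ae_rigid] with q hq
  rw [toReal_enorm, Real.norm_eq_abs, abs_of_nonneg hq.1, smul_eq_mul]

/-- **`f` is injective on a full set** -/
theorem exists_injective : ∃ (D : Set (ℕ × Rk n)) (F : ℕ × Rk n → Rk n),
    MeasurableSet D ∧ Measurable F ∧ InjOn F D ∧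
    (∀ q ∈ D, q.2 ∈ R.K q.1 ∧ F q = coordMap e f (R.Φ q)) ∧
    ∀ᵐ q ∂(R.vol), R.Θ q ≠ 0 → q ∈ D := by
  choose C hC using fun i => R.lipschitzOn_comp S.lip i
  choose G hG he using fun i => (hC i).extend_pi
  choose t htm htd htK htinj htdiff htae using fun i =>
    exists_injective_pieces (hG i) (R.measurableSet_K i)
  set F : ℕ × Rk n → Rk n := fun q => G q.1 q.2 with hF
  have hFm : Measurable F := measurable_from_prod_countable_right fun i => (hG i).continuous.measurable
  have hFe : ∀ q : ℕ × Rk n, q.2 ∈ R.K q.1 → F q = coordMap e f (R.Φ q) := fun q hq =>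
    (he q.1 hq).symm
  -- pieces
  set s : ℕ × ℕ → Set (Rk n) := fun p => t p.1 p.2 ∩ {x | R.θ p.1 x ≠ 0} with hs
  have hsm : ∀ p, MeasurableSet (s p) := fun p =>
    (htm p.1 p.2).inter ((R.measurable_θ p.1) (MeasurableSet.singleton 0)).compl
  set P : ℕ × ℕ → Set (ℕ × Rk n) := fun p => Prod.mk p.1 '' s p with hP
  have hPm : ∀ p, MeasurableSet (P p) := fun p =>
    (measurableEmbedding_prodMk_left p.1).measurableSet_image.2 (hsm p)
  have hPd : Pairwise fun p p' => Disjoint (P p) (P p') := by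
    intro p p' hne
    rw [Set.disjoint_left]
    rintro _ ⟨x, hx, rfl⟩ ⟨x', hx', hxx⟩
    rw [Prod.mk.injEq] at hxx
    have h1 : p'.1 = p.1 := hxx.1
    have h2 : x' = x := hxx.2
    have h3 : p.2 ≠ p'.2 := fun h => hne (Prod.ext h1.symm h)
    have h4 : Disjoint (t p.1 p.2) (t p.1 p'.2) := htd p.1 h3
    rw [Set.disjoint_left] at h4
    refine h4 hx.1 ?_
    rw [← h1, ← h2]
    exact hx'.1
  have hinjP : ∀ p, InjOn (G p.1) (s p) := fun p => (htinj p.1 p.2).mono inter_subset_left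
  have hFm' : ∀ p (A : Set (Rk n)), MeasurableSet A → A ⊆ s p → MeasurableSet (G p.1 '' A) :=
    fun p A hA hAs => hA.image_of_continuousOn_injOn (hG p.1).continuous.continuousOn
      ((hinjP p).mono hAs)
  -- volume of the image of a subset of a piece
  have hvolle : ∀ p (A : Set (Rk n)), MeasurableSet A → A ⊆ s p →
      volume (G p.1 '' A) ≤ ∫⁻ q in Prod.mk p.1 '' A, ‖dens e f R q‖ₑ ∂(R.vol) := by
    intro p A hA hAs
    have hAK : A ⊆ R.K p.1 := fun x hx => htK p.1 p.2 (hAs hx).1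
    have h1 := lintegral_abs_det_fderiv_eq_addHaar_image volume hA
      (f := G p.1) (f' := fun x => fderiv ℝ (G p.1) x)
      (fun x hx => (htdiff p.1 p.2 x (hAs hx).1).1.hasFDerivAt.hasFDerivWithinAt)
      ((hinjP p).mono hAs)
    rw [← h1]
    have hAm : MeasurableSet (Prod.mk p.1 '' A) :=
      (measurableEmbedding_prodMk_left p.1).measurableSet_image.2 hA
    have h2 : ∫⁻ q in Prod.mk p.1 '' A, ‖dens e f R q‖ₑ ∂(R.vol) =
        ∫⁻ x in A, ‖dens e f R (p.1, x)‖ₑ := by
      rw [← lintegral_indicator hAm, R.lintegral_vol, tsum_eq_single p.1]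
      · have h3 : ∀ x, (Prod.mk p.1 '' A).indicator (fun q => ‖dens e f R q‖ₑ) (p.1, x) =
            A.indicator (fun x => ‖dens e f R (p.1, x)‖ₑ) x := by
          intro x
          by_cases hx : x ∈ A
          · rw [indicator_of_mem (mem_image_of_mem _ hx), indicator_of_mem hx]
          · rw [indicator_of_notMem, indicator_of_notMem hx]
            rintro ⟨y, hy, hyx⟩
            rw [Prod.mk.injEq] at hyx
            exact hx (hyx.2 ▸ hy)
        simp_rw [h3]
        rw [lintegral_indicator hA, Measure.restrict_restrict hA, inter_eq_left.2 hAK]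
      · intro i hi
        rw [← lintegral_zero (μ := volume.restrict (R.K i))]
        refine lintegral_congr fun x => ?_
        refine indicator_of_notMem ?_ _
        rintro ⟨y, -, hyx⟩
        rw [Prod.mk.injEq] at hyx
        exact hi hyx.1.symm
    rw [h2]
    refine lintegral_mono_ae ?_
    filter_upwards [ae_restrict_mem hA, ae_restrict_of_ae_restrict_of_subset hAK
      (ae_fderivWithin_eq_of_eqOn (hG p.1) (he p.1) (R.measurableSet_K p.1))] with x hx hx2
    have h4 : R.D (coordMap e f) (p.1, x) = fderiv ℝ (G p.1) x := hx2.2.2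
    rw [dens, h4, enorm_mul, enorm_intCast]
    have e2 : ‖(fderiv ℝ (G p.1) x).det‖ₑ = ENNReal.ofReal |(fderiv ℝ (G p.1) x).det| := by
      rw [← ofReal_norm, Real.norm_eq_abs]
    rw [e2]
    have h5 : (1 : ℝ≥0∞) ≤ ((R.Θ (p.1, x)).natAbs : ℝ≥0∞) := by
      have h6 : R.θ p.1 x ≠ 0 := (hAs hx).2
      have h7 : 1 ≤ (R.Θ (p.1, x)).natAbs := Nat.one_le_iff_ne_zero.2 (Int.natAbs_ne_zero.2 h6)
      exact_mod_cast h7
    calc ENNReal.ofReal |(fderiv ℝ (G p.1) x).det|
        = 1 * ENNReal.ofReal |(fderiv ℝ (G p.1) x).det| := (one_mul _).symm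
      _ ≤ _ := by gcongr
  -- overlaps are null
  set O : (ℕ × ℕ) × (ℕ × ℕ) → Set (Rk n) := fun pp =>
    if pp.1 = pp.2 then ∅ else G pp.1.1 '' s pp.1 ∩ G pp.2.1 '' s pp.2 with hO
  have hOm : ∀ pp, MeasurableSet (O pp) := by
    intro pp
    rw [hO]
    dsimp only
    split_ifs
    · exact MeasurableSet.empty
    · exact (hFm' _ _ (hsm _) Subset.rfl).inter (hFm' _ _ (hsm _) Subset.rfl)
  have hO0 : ∀ pp, volume (O pp) = 0 := by
    intro pp
    by_cases hpp : pp.1 = pp.2
    · have : O pp = ∅ := if_pos hpp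
      rw [this, measure_empty]
    obtain ⟨p, p'⟩ := pp
    have hpp' : p ≠ p' := hpp
    have hOe : O (p, p') = G p.1 '' s p ∩ G p'.1 '' s p' := if_neg hpp
    set B := O (p, p') with hB
    have hBm : MeasurableSet B := hOm _
    have key : ∀ p'' : ℕ × ℕ, B ⊆ G p''.1 '' s p'' →
        volume B ≤ ∫⁻ q in Prod.mk p''.1 '' (s p'' ∩ G p''.1 ⁻¹' B), ‖dens e f R q‖ₑ ∂(R.vol) := by
      intro p'' hsub
      have hA : MeasurableSet (s p'' ∩ G p''.1 ⁻¹' B) :=
        (hsm p'').inter ((hG p''.1).continuous.measurable hBm)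
      have h1 := hvolle p'' _ hA inter_subset_left
      refine le_trans (measure_mono ?_) h1
      intro y hy
      obtain ⟨x, hx, hxy⟩ := hsub hy
      exact ⟨x, ⟨hx, by rw [mem_preimage, hxy]; exact hy⟩, hxy⟩
    have h1 := key p (by rw [hOe]; exact inter_subset_left)
    have h2 := key p' (by rw [hOe]; exact inter_subset_right)
    set A1 := Prod.mk p.1 '' (s p ∩ G p.1 ⁻¹' B) with hA1
    set A2 := Prod.mk p'.1 '' (s p' ∩ G p'.1 ⁻¹' B) with hA2
    have hA2m : MeasurableSet A2 := (measurableEmbedding_prodMk_left p'.1).measurableSet_image.2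
      ((hsm p').inter ((hG p'.1).continuous.measurable hBm))
    have hdisj : Disjoint A1 A2 := (hPd hpp').mono (image_mono inter_subset_left)
      (image_mono inter_subset_left)
    have hsubF : ∀ p'' : ℕ × ℕ, Prod.mk p''.1 '' (s p'' ∩ G p''.1 ⁻¹' B) ⊆
        (fun q => coordMap e f (R.Φ q)) ⁻¹' B := by
      rintro p'' _ ⟨x, hx, rfl⟩
      show coordMap e f (R.Φ (p''.1, x)) ∈ B
      rw [← hFe (p''.1, x) (htK _ _ hx.1.1)]
      exact hx.2
    have h3 : volume B + volume B ≤ volume B := by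
      calc volume B + volume B ≤ ∫⁻ q in A1, ‖dens e f R q‖ₑ ∂(R.vol) +
            ∫⁻ q in A2, ‖dens e f R q‖ₑ ∂(R.vol) := add_le_add h1 h2
        _ = ∫⁻ q in A1 ∪ A2, ‖dens e f R q‖ₑ ∂(R.vol) := by
          rw [← lintegral_add_measure, ← Measure.restrict_union hdisj hA2m]
        _ ≤ ∫⁻ q in (fun q => coordMap e f (R.Φ q)) ⁻¹' B, ‖dens e f R q‖ₑ ∂(R.vol) :=
          lintegral_mono_set (union_subset (hsubF p) (hsubF p'))
        _ = volume (e '' Y ∩ B) := S.lintegral_dens hBm
        _ ≤ volume B := measure_mono inter_subset_right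
    have hfin : volume B ≠ ∞ := by
      refine ne_top_of_le_ne_top S.volume_body_lt_top.ne ?_
      calc volume B ≤ ∫⁻ q in A1, ‖dens e f R q‖ₑ ∂(R.vol) := h1
        _ ≤ ∫⁻ q in (fun q => coordMap e f (R.Φ q)) ⁻¹' B, ‖dens e f R q‖ₑ ∂(R.vol) :=
          lintegral_mono_set (hsubF p)
        _ = volume (e '' Y ∩ B) := S.lintegral_dens hBm
        _ ≤ volume (e '' Y) := measure_mono inter_subset_left
    by_contra hne
    exact absurd h3 (not_le.2 (ENNReal.lt_add_right hfin hne))
  set N := ⋃ pp, O pp with hN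
  have hNm : MeasurableSet N := MeasurableSet.iUnion hOm
  have hN0 : volume N = 0 := measure_iUnion_null hO0
  refine ⟨(⋃ p, P p) \ F ⁻¹' N, F, (MeasurableSet.iUnion hPm).diff (hFm hNm), hFm, ?_, ?_, ?_⟩
  · rintro q ⟨hq, hqN⟩ q' ⟨hq', -⟩ hqq
    obtain ⟨p, x, hx, rfl⟩ := mem_iUnion.1 hq
    obtain ⟨p', x', hx', rfl⟩ := mem_iUnion.1 hq'
    by_cases hpp : p = p'
    · subst hpp
      have : x = x' := hinjP p hx hx' hqq
      rw [this]
    · exfalso
      refine hqN (mem_iUnion.2 ⟨(p, p'), ?_⟩)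
      have hOe : O (p, p') = G p.1 '' s p ∩ G p'.1 '' s p' := if_neg hpp
      rw [hOe]
      exact ⟨⟨x, hx, rfl⟩, ⟨x', hx', hqq.symm⟩⟩
  · rintro q ⟨hq, -⟩
    obtain ⟨p, x, hx, rfl⟩ := mem_iUnion.1 hq
    have hxK : x ∈ R.K p.1 := htK _ _ hx.1
    exact ⟨hxK, hFe _ hxK⟩
  · have hae : ∀ᵐ q ∂(R.vol), (q.2 ∉ ⋃ l, t q.1 l → (R.D (coordMap e f) q).det = 0) ∧
        (F q ∈ N → (R.D (coordMap e f) q).det = 0) := by
      refine R.ae_vol.2 fun i => ?_
      filter_upwards [htae i, ae_det_eq_zero_of_mem_preimage_null (hG i) (R.measurableSet_K i) hN0,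
        ae_fderivWithin_eq_of_eqOn (hG i) (he i) (R.measurableSet_K i)] with x h1 h2 h3
      have h4 : R.D (coordMap e f) (i, x) = fderiv ℝ (G i) x := h3.2.2
      rw [h4]
      exact ⟨h1, h2⟩
    filter_upwards [hae, S.ae_rigid] with q h1 h2 h3
    have hdet := (h2.2 h3).2.1
    refine ⟨?_, fun hcon => hdet (h1.2 hcon)⟩
    by_contra hcon
    refine hdet (h1.1 fun hmem => hcon ?_)
    obtain ⟨l, hl⟩ := mem_iUnion.1 hmem
    exact mem_iUnion.2 ⟨(q.1, l), q.2, ⟨hl, h3⟩, rfl⟩

end Setup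

end FinslerRigid
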