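import Pool.Agent.FinslerRigid.Param
import Pool.Agent.FinslerRigid.Borel

/-!
# The Finsler mass does not depend on the injective parametrisation
-/

open MeasureTheory Set Filter Topology Asymptotics Metric
open scoped NNReal ENNReal

namespace FinslerRigid

variable {k : ℕ} {Z : Type*} [MetricSpace Z]

theorem measurableSet_inter_preimage {X Y : Type*} [TopologicalSpace X] [MeasurableSpace X]
    [BorelSpace X] [TopologicalSpace Y] [MeasurableSpace Y] [BorelSpace Y] {φ : X → Y}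
    {K : Set X} (hφ : ContinuousOn φ K) (hK : MeasurableSet K) {A : Set Y}
    (hA : MeasurableSet A) : MeasurableSet (K ∩ φ ⁻¹' A) := by
  have h1 : Measurable (K.domRestrict φ) := hφ.domRestrict.measurable
  have h2 : K ∩ φ ⁻¹' A = Subtype.val '' ((K.domRestrict φ) ⁻¹' A) := by
    ext x
    constructor
    · rintro ⟨hx, hxA⟩
      exact ⟨⟨x, hx⟩, hxA, rfl⟩
    · rintro ⟨⟨y, hy⟩, hyA, rfl⟩
      exact ⟨hy, hyA⟩
  rw [h2]
  exact hK.subtype_image (h1 hA)

theorem setIntegral_eq_of_lipschitz' {Ω Ω' : Type*} [MeasurableSpace Ω] [MeasurableSpace Ω']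
    {μ : Measure Ω} {μ' : Measure Ω'} [MeasurableSpace Z] [BorelSpace Z]
    {Φ : Ω → Z} {Φ' : Ω' → Z} (hΦ : AEMeasurable Φ μ)
    (hΦ' : AEMeasurable Φ' μ') {a : Ω → ℝ} {a' : Ω' → ℝ} (ha : Integrable a μ)
    (ha' : Integrable a' μ')
    (H : ∀ h : Z → ℝ, IsLip h → (∀ z, 0 ≤ h z ∧ h z ≤ 1) →
      ∫ p, h (Φ p) * a p ∂μ = ∫ p, h (Φ' p) * a' p ∂μ')
    {B : Set Z} (hB : MeasurableSet B) :
    ∫ p in Φ ⁻¹' B, a p ∂μ = ∫ p in Φ' ⁻¹' B, a' p ∂μ' := by
  have h1 : (Φ ⁻¹' B : Set Ω) =ᵐ[μ] (hΦ.mk Φ ⁻¹' B : Set Ω) := by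
    filter_upwards [hΦ.ae_eq_mk] with p hp
    refine propext ?_
    show Φ p ∈ B ↔ hΦ.mk Φ p ∈ B
    rw [hp]
  have h2 : (Φ' ⁻¹' B : Set Ω') =ᵐ[μ'] (hΦ'.mk Φ' ⁻¹' B : Set Ω') := by
    filter_upwards [hΦ'.ae_eq_mk] with p hp
    refine propext ?_
    show Φ' p ∈ B ↔ hΦ'.mk Φ' p ∈ B
    rw [hp]
  rw [setIntegral_congr_set h1, setIntegral_congr_set h2]
  refine setIntegral_eq_of_lipschitz hΦ.measurable_mk hΦ'.measurable_mk ha ha' ?_ hB
  intro h hh hh1
  have h3 := H h hh hh1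
  have h4 : ∫ p, h (hΦ.mk Φ p) * a p ∂μ = ∫ p, h (Φ p) * a p ∂μ := by
    refine integral_congr_ae ?_
    filter_upwards [hΦ.ae_eq_mk] with p hp
    rw [hp]
  have h5 : ∫ p, h (hΦ'.mk Φ' p) * a' p ∂μ' = ∫ p, h (Φ' p) * a' p ∂μ' := by
    refine integral_congr_ae ?_
    filter_upwards [hΦ'.ae_eq_mk] with p hp
    rw [hp]
  rw [h4, h5, h3]

namespace LipParam

variable {R : LipParam k Z}

theorem IsInjective.injOn (hR : R.IsInjective) (i : ℕ) : InjOn (R.φ i) (R.K i) := by
  obtain ⟨C, hC⟩ := hR.1 i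
  intro x hx y hy hxy
  have := hC x hx y hy
  rw [hxy, dist_self, mul_zero] at this
  exact dist_le_zero.1 this

/-- a Lipschitz left inverse on the whole space -/
theorem IsInjective.exists_leftInv (hR : R.IsInjective) (i : ℕ) :
    ∃ (p : Z → Rk k) (L : ℝ≥0), LipschitzWith L p ∧ ∀ x ∈ R.K i, p (R.φ i x) = x := by
  classical
  obtain ⟨C, hC⟩ := hR.1 i
  set q : Z → Rk k := fun z => if h : ∃ x ∈ R.K i, R.φ i x = z then h.choose else 0 with hq
  have hqx : ∀ x ∈ R.K i, q (R.φ i x) = x := by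
    intro x hx
    have hex : ∃ x' ∈ R.K i, R.φ i x' = R.φ i x := ⟨x, hx, rfl⟩
    rw [hq]
    dsimp only
    rw [dif_pos hex]
    exact hR.injOn i hex.choose_spec.1 hx hex.choose_spec.2
  have hlip : LipschitzOnWith C.toNNReal q (R.φ i '' R.K i) := by
    refine LipschitzOnWith.of_dist_le_mul ?_
    rintro _ ⟨x, hx, rfl⟩ _ ⟨y, hy, rfl⟩
    rw [hqx x hx, hqx y hy]
    refine (hC x hx y hy).trans ?_
    gcongr
    exact Real.le_coe_toNNReal C
  obtain ⟨p, hp, he⟩ := hlip.extend_pi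
  refine ⟨p, _, hp, fun x hx => ?_⟩
  rw [← he (mem_image_of_mem _ hx), hqx x hx]

theorem IsInjective.isNormLike (hR : R.IsInjective) : ∀ᵐ p ∂(R.vol), IsNormLike (R.md p) := by
  filter_upwards [R.ae_mem, R.ae_isDP', R.ae_hasMD] with p h1 h2 h3
  obtain ⟨C, hC⟩ := hR.1 p.1
  exact ⟨C, fun v => h3.norm_le h2 h1 hC v⟩

variable [MeasurableSpace Z] [BorelSpace Z]

theorem IsInjective.measurableSet_image (hR : R.IsInjective) (i : ℕ) :
    MeasurableSet (R.φ i '' R.K i) := by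
  obtain ⟨C, hC⟩ := R.lipschitz i
  exact (R.measurableSet_K i).image_of_continuousOn_injOn hC.continuousOn (hR.injOn i)

/-- pointwise comparison of two parametrisations -/
theorem IsInjective.ae_compare (hR : R.IsInjective) {J : FinslerVolume} (hJ : IsGoodVolume J)
    (R' : LipParam k Z) (i : ℕ) {p : Z → Rk k} {L : ℝ≥0} (hp : LipschitzWith L p)
    (hpφ : ∀ x ∈ R.K i, p (R.φ i x) = x) {S : Rk k → Seminorm ℝ (Rk k)}
    (hS : ∀ᵐ x ∂(volume.restrict (R.K i)), metricDeriv (R.φ i) (R.K i) x = S x) :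
    ∀ᵐ q ∂(R'.vol), R'.Φ q ∈ R.φ i '' R.K i →
      ENNReal.ofReal |(R'.D p q).det| * J k (S (p (R'.Φ q))) ≤ J k (R'.md q) := by
  refine R'.ae_vol.2 fun j => ?_
  obtain ⟨C, hC⟩ := R.lipschitz i
  obtain ⟨C', hC'⟩ := R'.lipschitz j
  set N : Set (Rk k) := {y | ¬ (y ∈ R.K i → HasMetricDerivWithinAt (R.φ i) (S y) (R.K i) y)} with hN
  have hN0 : volume N = 0 := by
    have h1 : ∀ᵐ y, y ∈ R.K i → HasMetricDerivWithinAt (R.φ i) (S y) (R.K i) y := by
      rw [← ae_restrict_iff' (R.measurableSet_K i)]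
      filter_upwards [hS, ae_hasMetricDerivWithinAt (R.measurableSet_K i) hC] with y h1 h2
      rwa [h1] at h2
    exact h1
  set K'' : Set (Rk k) := R'.K j ∩ R'.φ j ⁻¹' (R.φ i '' R.K i) with hK''
  have hK''m : MeasurableSet K'' :=
    measurableSet_inter_preimage hC'.continuousOn (R'.measurableSet_K j)
      (hR.measurableSet_image i)
  set H : Rk k → Rk k := fun y => p (R'.φ j y) with hH
  have hHlip : LipschitzOnWith (L * C') H (R'.K j) := hp.comp_lipschitzOnWith hC'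
  have hmaps : ∀ x ∈ K'', H x ∈ R.K i ∧ R.φ i (H x) = R'.φ j x := by
    rintro x ⟨hx, y, hy, hyx⟩
    have : H x = y := by rw [hH]; dsimp only; rw [← hyx, hpφ y hy]
    rw [this]
    exact ⟨hy, hyx⟩
  have key : ∀ᵐ x ∂(volume.restrict K''),
      ENNReal.ofReal |(fderivWithin ℝ H (R'.K j) x).det| * J k (S (H x)) ≤
        J k (metricDeriv (R'.φ j) (R'.K j) x) := by
    filter_upwards [ae_det_fderivWithin_eq_zero_of_mem_null (hHlip.mono inter_subset_left) hK''m hN0,
      ae_fderivWithin_subset hHlip (R'.measurableSet_K j) (inter_subset_left : K'' ⊆ R'.K j),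
      ae_isDP K'', ae_restrict_mem hK''m,
      ae_restrict_of_ae_restrict_of_subset inter_subset_left
        (ae_hasMetricDerivWithinAt (R'.measurableSet_K j) hC')] with x h1 h2 h3 h4 h5
    by_cases hdet : (fderivWithin ℝ H (R'.K j) x).det = 0
    · rw [hdet]; simp
    have hHN : H x ∉ N := by
      intro hcon
      have := h1 hcon
      rw [h2.2] at this
      exact hdet this
    have hHK := hmaps x h4
    have hmd : HasMetricDerivWithinAt (R.φ i) (S (H x)) (R.K i) (H x) := by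
      rw [hN, mem_ofPred_eq, not_not] at hHN
      exact hHN hHK.1
    have hcomp := hmd.comp (h2.1.mono (inter_subset_left : K'' ⊆ R'.K j))
      (fun y hy => (hmaps y hy).1)
    have hcomp' : HasMetricDerivWithinAt (R'.φ j)
        ((S (H x)).comp (fderivWithin ℝ H (R'.K j) x : Rk k →ₗ[ℝ] Rk k)) K'' x := by
      refine hcomp.congr' ?_ EventuallyEq.rfl
      filter_upwards [self_mem_nhdsWithin] with y hy
      simp only [Function.comp]
      rw [(hmaps y hy).2, hHK.2]
    have huniq := (h5.mono (inter_subset_left : K'' ⊆ R'.K j)).unique h3 hcomp'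
    rw [huniq, hJ.comp k _ _ hdet]
  rw [ae_restrict_iff' hK''m] at key
  rw [ae_restrict_iff' (R'.measurableSet_K j)]
  filter_upwards [key] with x hx hxK hxA
  exact hx ⟨hxK, hxA⟩

/-- comparison of the multiplicity measures -/
theorem IsInjective.measure_le (hR : R.IsInjective) {J₁ : FinslerVolume} (hJ₁ : IsGoodVolume J₁)
    (hm₁ : R.mass J₁ < ∞) {R' : LipParam k Z} {J₂ : FinslerVolume} (hJ₂ : IsGoodVolume J₂)
    (hm₂ : R'.mass J₂ < ∞) (H : CurrentEq R.current R'.current) (i : ℕ)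
    {p : Z → Rk k} {L : ℝ≥0} (hp : LipschitzWith L p) (hpφ : ∀ x ∈ R.K i, p (R.φ i x) = x)
    {B : Set (Rk k)} (hB : MeasurableSet B) :
    ∫⁻ x in R.K i ∩ B, ((R.θ i x).natAbs : ℝ≥0∞) ≤
      ∫⁻ q in R'.Φ ⁻¹' ((R.φ i '' R.K i) ∩ p ⁻¹' B),
        ‖(R'.Θ q : ℝ) * (R'.D p q).det‖ₑ ∂(R'.vol) := by
  have hA := hR.measurableSet_image i
  have hint := R.integrable_det hJ₁ hm₁ hp
  have hint' := R'.integrable_det hJ₂ hm₂ hp
  have hcur : ∀ h : Z → ℝ, IsLip h → (∀ z, 0 ≤ h z ∧ h z ≤ 1) →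
      ∫ q, h (R.Φ q) * ((R.Θ q : ℝ) * (R.D p q).det) ∂(R.vol) =
        ∫ q, h (R'.Φ q) * ((R'.Θ q : ℝ) * (R'.D p q).det) ∂(R'.vol) := by
    intro h hh hh1
    have hM : ∀ z, |h z| ≤ 1 := fun z => abs_le.2 ⟨by linarith [(hh1 z).1], (hh1 z).2⟩
    have hadm : Admissible h (fun j z => p z j) := by
      refine ⟨hh, ⟨1, hM⟩, fun j => ⟨L, ?_⟩⟩
      exact LipschitzWith.of_dist_le_mul fun x y =>
        (dist_le_pi_dist (p x) (p y) j).trans (hp.dist_le_mul x y)
    have h1 := H h _ hadm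
    obtain ⟨Ch, hCh⟩ := hh
    rw [R.current_eq hJ₁ hm₁ hCh.continuous hM (π := fun j z => p z j) (L := L) hp,
      R'.current_eq hJ₂ hm₂ hCh.continuous hM (π := fun j z => p z j) (L := L) hp] at h1
    have e : ∀ (Q : LipParam k Z), ∫ q, h (Q.Φ q) * ((Q.Θ q : ℝ) * (Q.D p q).det) ∂(Q.vol) =
        ∫ q, (Q.Θ q : ℝ) * h (Q.Φ q) * (Q.D (fun z j => p z j) q).det ∂(Q.vol) := fun Q =>
      integral_congr_ae (Eventually.of_forall fun q => by
        show h (Q.Φ q) * ((Q.Θ q : ℝ) * (Q.D p q).det) = (Q.Θ q : ℝ) * h (Q.Φ q) * (Q.D p q).det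
        ring)
    rw [e R, e R', h1]
  -- the basic estimate
  have hbasic : ∀ B : Set (Rk k), MeasurableSet B →
      ‖∫ x in R.K i ∩ B, (R.θ i x : ℝ)‖ₑ ≤
        ∫⁻ q in R'.Φ ⁻¹' ((R.φ i '' R.K i) ∩ p ⁻¹' B),
          ‖(R'.Θ q : ℝ) * (R'.D p q).det‖ₑ ∂(R'.vol) := by
    intro B hB
    have hBm : MeasurableSet ((R.φ i '' R.K i) ∩ p ⁻¹' B) := hA.inter (hp.continuous.measurable hB)
    have h1 := setIntegral_eq_of_lipschitz' R.aemeasurable_Φ R'.aemeasurable_Φ hint hint' hcur hBm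
    have h2 : ∫ q in R.Φ ⁻¹' ((R.φ i '' R.K i) ∩ p ⁻¹' B), (R.Θ q : ℝ) * (R.D p q).det ∂(R.vol) =
        ∫ x in R.K i ∩ B, (R.θ i x : ℝ) := by
      have hnull : NullMeasurableSet (R.Φ ⁻¹' ((R.φ i '' R.K i) ∩ p ⁻¹' B)) R.vol :=
        R.aemeasurable_Φ.nullMeasurableSet_preimage hBm
      rw [← integral_indicator₀ hnull, R.integral_vol (hint.indicator₀ hnull)]
      rw [tsum_eq_single i]
      · rw [← setIntegral_indicator hB]
        refine setIntegral_congr_ae (R.measurableSet_K i) ?_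
        have hd : ∀ᵐ x ∂(volume.restrict (R.K i)), (R.D p (i, x)).det = 1 := by
          filter_upwards [ae_isDP (R.K i), ae_restrict_mem (R.measurableSet_K i)] with x h3 h4
          have h5 : HasFDerivWithinAt (fun y => p (R.φ i y)) (ContinuousLinearMap.id ℝ (Rk k))
              (R.K i) x := (hasFDerivWithinAt_id x (R.K i)).congr (fun y hy => hpφ y hy) (hpφ x h4)
          have h6 : R.D p (i, x) = ContinuousLinearMap.id ℝ (Rk k) :=
            h5.fderivWithin h3.uniqueDiffWithinAt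
          rw [h6]
          exact LinearMap.det_id
        rw [ae_restrict_iff' (R.measurableSet_K i)] at hd
        filter_upwards [hd] with x hx hxK
        by_cases hxB : x ∈ B
        · have hmem : (i, x) ∈ R.Φ ⁻¹' ((R.φ i '' R.K i) ∩ p ⁻¹' B) := by
            refine ⟨⟨x, hxK, rfl⟩, ?_⟩
            show p (R.φ i x) ∈ B
            rwa [hpφ x hxK]
          rw [indicator_of_mem hmem, indicator_of_mem hxB, hx hxK, mul_one]
          rfl
        · have hmem : (i, x) ∉ R.Φ ⁻¹' ((R.φ i '' R.K i) ∩ p ⁻¹' B) := by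
            rintro ⟨-, h3⟩
            have h4 : p (R.φ i x) ∈ B := h3
            rw [hpφ x hxK] at h4
            exact hxB h4
          rw [indicator_of_notMem hmem, indicator_of_notMem hxB]
      · intro j hj
        rw [setIntegral_eq_zero_of_forall_eq_zero]
        intro x hx
        refine indicator_of_notMem ?_ _
        rintro ⟨h3, -⟩
        exact (Set.disjoint_left.1 (hR.2 hj) (mem_image_of_mem _ hx)) h3
    rw [← h2, h1]
    exact enorm_integral_le_lintegral_enorm _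
  -- split according to the sign
  have hθm : Measurable fun x => (R.θ i x : ℝ) := measurable_from_top.comp (R.measurable_θ i)
  set P : Set (Rk k) := {x | 0 ≤ (R.θ i x : ℝ)} with hP
  have hPm : MeasurableSet P := measurableSet_le measurable_const hθm
  have hintθ : IntegrableOn (fun x => (R.θ i x : ℝ)) (R.K i) := by
    have h1 : Integrable (fun x => (R.Θ (i, x) : ℝ) * (R.D p (i, x)).det)
        (volume.restrict (R.K i)) := by
      rw [vol] at hint
      have h2 := hint.mono_measure (Measure.le_sum _ i)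
      exact ((measurableEmbedding_prodMk_left i).integrable_map_iff).1 h2
    refine h1.congr ?_
    filter_upwards [ae_isDP (R.K i), ae_restrict_mem (R.measurableSet_K i)] with x h3 h4
    have h5 : HasFDerivWithinAt (fun y => p (R.φ i y)) (ContinuousLinearMap.id ℝ (Rk k))
        (R.K i) x := (hasFDerivWithinAt_id x (R.K i)).congr (fun y hy => hpφ y hy) (hpφ x h4)
    have h6 : R.D p (i, x) = ContinuousLinearMap.id ℝ (Rk k) :=
      h5.fderivWithin h3.uniqueDiffWithinAt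
    rw [h6]
    have : (ContinuousLinearMap.id ℝ (Rk k)).det = 1 := LinearMap.det_id
    rw [this, mul_one]
    rfl
  have hsplit : ∀ B' : Set (Rk k), MeasurableSet B' → (B' ⊆ P ∨ B' ⊆ Pᶜ) →
      ∫⁻ x in R.K i ∩ B', ((R.θ i x).natAbs : ℝ≥0∞) = ‖∫ x in R.K i ∩ B', (R.θ i x : ℝ)‖ₑ := by
    intro B' hB' hor
    have hm : MeasurableSet (R.K i ∩ B') := (R.measurableSet_K i).inter hB'
    have hi : Integrable (fun x => (R.θ i x : ℝ)) (volume.restrict (R.K i ∩ B')) :=
      IntegrableOn.mono_set hintθ inter_subset_left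
    rcases hor with hor | hor
    · have h0 : 0 ≤ᵐ[volume.restrict (R.K i ∩ B')] fun x => (R.θ i x : ℝ) := by
        filter_upwards [ae_restrict_mem hm] with x hx using hor hx.2
      rw [← ofReal_norm, Real.norm_eq_abs, abs_of_nonneg (integral_nonneg_of_ae h0),
        ofReal_integral_eq_lintegral_ofReal hi h0]
      refine lintegral_congr_ae ?_
      filter_upwards [h0] with x hx
      rw [← enorm_intCast, ← ofReal_norm, Real.norm_eq_abs, abs_of_nonneg hx]
    · have h0 : 0 ≤ᵐ[volume.restrict (R.K i ∩ B')] fun x => -(R.θ i x : ℝ) := by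
        filter_upwards [ae_restrict_mem hm] with x hx
        have : ¬ (0 ≤ (R.θ i x : ℝ)) := hor hx.2
        simp only [Pi.zero_apply]
        linarith
      rw [← enorm_neg, ← integral_neg, ← ofReal_norm, Real.norm_eq_abs,
        abs_of_nonneg (integral_nonneg_of_ae h0),
        ofReal_integral_eq_lintegral_ofReal (f := fun x => -(R.θ i x : ℝ)) hi.neg h0]
      refine lintegral_congr_ae ?_
      filter_upwards [h0] with x hx
      rw [← enorm_intCast, ← enorm_neg, ← ofReal_norm, Real.norm_eq_abs, abs_of_nonneg hx]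
  have hdec : R.K i ∩ B = (R.K i ∩ (B ∩ P)) ∪ (R.K i ∩ (B ∩ Pᶜ)) := by
    rw [← inter_union_distrib_left, ← inter_union_distrib_left, union_compl_self, inter_univ]
  have hdisj1 : Disjoint (R.K i ∩ (B ∩ P)) (R.K i ∩ (B ∩ Pᶜ)) := by
    rw [Set.disjoint_left]
    rintro x ⟨-, -, h1⟩ ⟨-, -, h2⟩
    exact h2 h1
  have hdec2 : R'.Φ ⁻¹' ((R.φ i '' R.K i) ∩ p ⁻¹' B) =
      R'.Φ ⁻¹' ((R.φ i '' R.K i) ∩ p ⁻¹' (B ∩ P)) ∪
      R'.Φ ⁻¹' ((R.φ i '' R.K i) ∩ p ⁻¹' (B ∩ Pᶜ)) := by
    rw [← preimage_union, ← inter_union_distrib_left, ← preimage_union, ← inter_union_distrib_left,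
      union_compl_self, inter_univ]
  have hdisj2 : Disjoint (R'.Φ ⁻¹' ((R.φ i '' R.K i) ∩ p ⁻¹' (B ∩ P)))
      (R'.Φ ⁻¹' ((R.φ i '' R.K i) ∩ p ⁻¹' (B ∩ Pᶜ))) := by
    rw [Set.disjoint_left]
    rintro x ⟨-, -, h1⟩ ⟨-, -, h2⟩
    exact h2 h1
  rw [hdec, Measure.restrict_union₀ hdisj1.aedisjoint
      ((R.measurableSet_K i).inter (hB.inter hPm.compl)).nullMeasurableSet, lintegral_add_measure,
    hdec2, Measure.restrict_union₀ hdisj2.aedisjoint
      (R'.aemeasurable_Φ.nullMeasurableSet_preimage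
      (hA.inter (hp.continuous.measurable (hB.inter hPm.compl)))), lintegral_add_measure]
  refine add_le_add ?_ ?_
  · rw [hsplit _ (hB.inter hPm) (Or.inl inter_subset_right)]
    exact hbasic _ (hB.inter hPm)
  · rw [hsplit _ (hB.inter hPm.compl) (Or.inr inter_subset_right)]
    exact hbasic _ (hB.inter hPm.compl)

/-- **An injective parametrisation has minimal mass** among all Lipschitz parametrisations of the
same current. -/
theorem IsInjective.mass_le (hR : R.IsInjective) {J₁ : FinslerVolume} (hJ₁ : IsGoodVolume J₁)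
    (hm₁ : R.mass J₁ < ∞) {R' : LipParam k Z} {J₂ : FinslerVolume} (hJ₂ : IsGoodVolume J₂)
    (hm₂ : R'.mass J₂ < ∞) (H : CurrentEq R.current R'.current) {J : FinslerVolume}
    (hJ : IsGoodVolume J) : R.mass J ≤ R'.mass J := by
  have hpiece : ∀ i, ∫⁻ x in R.K i, ((R.θ i x).natAbs : ℝ≥0∞) *
      J k (metricDeriv (R.φ i) (R.K i) x) ≤
      ∫⁻ q in R'.Φ ⁻¹' (R.φ i '' R.K i), ((R'.Θ q).natAbs : ℝ≥0∞) * J k (R'.md q) ∂(R'.vol) := by
    intro i
    obtain ⟨p, L, hp, hpφ⟩ := hR.exists_leftInv i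
    obtain ⟨C, hC⟩ := R.lipschitz i
    obtain ⟨S, hSm, hS⟩ := exists_measurable_metricDeriv (R.measurableSet_K i) hC
    have hJS : Measurable fun x => J k (S x) := hJ.meas k S hSm
    have hA := hR.measurableSet_image i
    have hnA : NullMeasurableSet (R'.Φ ⁻¹' (R.φ i '' R.K i)) R'.vol :=
      R'.aemeasurable_Φ.nullMeasurableSet_preimage hA
    set a' : ℕ × Rk k → ℝ≥0∞ := fun q => ‖(R'.Θ q : ℝ) * (R'.D p q).det‖ₑ with ha'
    have ha'm : AEMeasurable a' R'.vol :=
      (R'.integrable_det hJ₂ hm₂ hp).aestronglyMeasurable.enorm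
    have hqm : AEMeasurable (fun q => p (R'.Φ q)) R'.vol :=
      hp.continuous.measurable.comp_aemeasurable R'.aemeasurable_Φ
    set m' : Measure (ℕ × Rk k) := (R'.vol.restrict (R'.Φ ⁻¹' (R.φ i '' R.K i))).withDensity a'
      with hm'
    have hqm' : AEMeasurable (fun q => p (R'.Φ q)) m' :=
      (hqm.mono_measure Measure.restrict_le_self).mono_ac (withDensity_absolutelyContinuous _ _)
    set β : Measure (Rk k) := m'.map (fun q => p (R'.Φ q)) with hβ
    set α : Measure (Rk k) := (volume.restrict (R.K i)).withDensity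
      (fun x => ((R.θ i x).natAbs : ℝ≥0∞)) with hα
    have hθm : Measurable fun x => ((R.θ i x).natAbs : ℝ≥0∞) :=
      (measurable_from_top (f := fun n : ℤ => (n.natAbs : ℝ≥0∞))).comp (R.measurable_θ i)
    have hαβ : α ≤ β := by
      refine Measure.le_iff.2 fun B hB => ?_
      rw [hα, withDensity_apply _ hB, Measure.restrict_restrict hB, inter_comm B]
      refine (hR.measure_le hJ₁ hm₁ hJ₂ hm₂ H i hp hpφ hB).trans (le_of_eq ?_)
      rw [hβ, Measure.map_apply_of_aemeasurable hqm' hB, hm']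
      have hnB : NullMeasurableSet ((fun q => p (R'.Φ q)) ⁻¹' B)
          (R'.vol.restrict (R'.Φ ⁻¹' (R.φ i '' R.K i))) :=
        (hqm.mono_measure Measure.restrict_le_self).nullMeasurableSet_preimage hB
      rw [withDensity_apply₀ _ hnB, Measure.restrict_restrict₀ hnB]
      congr 2
      ext q
      exact and_comm
    have h1 : ∫⁻ x in R.K i, ((R.θ i x).natAbs : ℝ≥0∞) *
        J k (metricDeriv (R.φ i) (R.K i) x) = ∫⁻ x, J k (S x) ∂α := by
      rw [hα, lintegral_withDensity_eq_lintegral_mul _ hθm hJS]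
      refine lintegral_congr_ae ?_
      filter_upwards [hS] with x hx
      rw [hx]
      rfl
    have h2 : ∫⁻ x, J k (S x) ∂β = ∫⁻ q in R'.Φ ⁻¹' (R.φ i '' R.K i),
        a' q * J k (S (p (R'.Φ q))) ∂(R'.vol) := by
      rw [hβ, lintegral_map' hJS.aemeasurable hqm', hm',
        lintegral_withDensity_eq_lintegral_mul₀
          (ha'm.mono_measure Measure.restrict_le_self)
          (g := fun q => J k (S (p (R'.Φ q))))
          (hJS.comp_aemeasurable (hqm.mono_measure Measure.restrict_le_self))]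
      rfl
    rw [h1]
    refine (lintegral_mono' hαβ le_rfl).trans ?_
    rw [h2]
    refine lintegral_mono_ae ?_
    rw [ae_restrict_iff'₀ hnA]
    filter_upwards [hR.ae_compare hJ R' i hp hpφ hS] with q hq hqA
    have h3 := hq hqA
    rw [ha']
    dsimp only
    rw [enorm_mul, enorm_intCast]
    have e2 : ‖(R'.D p q).det‖ₑ = ENNReal.ofReal |(R'.D p q).det| := by
      rw [← ofReal_norm, Real.norm_eq_abs]
    rw [e2, mul_assoc]
    gcongr
  have hdisj : Pairwise (fun i j => AEDisjoint R'.vol (R'.Φ ⁻¹' (R.φ i '' R.K i))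
      (R'.Φ ⁻¹' (R.φ j '' R.K j))) := fun i j hij =>
    ((hR.2 hij).preimage R'.Φ).aedisjoint
  calc R.mass J ≤ ∑' i, ∫⁻ q in R'.Φ ⁻¹' (R.φ i '' R.K i),
        ((R'.Θ q).natAbs : ℝ≥0∞) * J k (R'.md q) ∂(R'.vol) := ENNReal.tsum_le_tsum hpiece
    _ = ∫⁻ q in ⋃ i, R'.Φ ⁻¹' (R.φ i '' R.K i),
        ((R'.Θ q).natAbs : ℝ≥0∞) * J k (R'.md q) ∂(R'.vol) :=
        (lintegral_iUnion₀ (fun i => R'.aemeasurable_Φ.nullMeasurableSet_preimage
          (hR.measurableSet_image i)) hdisj _).symm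
    _ ≤ ∫⁻ q, ((R'.Θ q).natAbs : ℝ≥0∞) * J k (R'.md q) ∂(R'.vol) := setLIntegral_le_lintegral _ _
    _ = R'.mass J := (R'.mass_eq J).symm

end LipParam

/-- **The Finsler mass of a current is the mass of any of its injective parametrisations.** -/
theorem finslerMass_eq_mass {T : MetricFunctional k Z} {R : LipParam k Z} (hR : R.IsInjective)
    (hm : R.mass busemann < ∞) (hT : CurrentEq T R.current) {J : FinslerVolume}
    (hJ : IsGoodVolume J) : finslerMass J T = R.mass J := by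
  let _ : MeasurableSpace Z := borel Z
  have : BorelSpace Z := ⟨rfl⟩
  refine le_antisymm (iInf₂_le R hT) ?_
  refine le_iInf₂ fun R' hT' => ?_
  by_cases hfin : R'.mass J = ∞
  · rw [hfin]; exact le_top
  · exact hR.mass_le isGoodVolume_busemann hm hJ (lt_top_iff_ne_top.2 hfin)
      (fun h π hadm => (hT h π hadm).symm.trans (hT' h π hadm)) hJ

end FinslerRigid
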