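import Pool.Agent.FinslerRigid.Density

/-!
# Kirchheim's theorem: metric differentiability almost everywhere
-/

open MeasureTheory Set Filter Topology Asymptotics Metric
open scoped NNReal ENNReal

namespace FinslerRigid

variable {k : ℕ} {w : ℕ → Rk k → ℝ} {C : ℝ≥0}

/-- `sup_m |D w_m (x) v|` -/
noncomputable def supD (w : ℕ → Rk k → ℝ) (v x : Rk k) : ℝ := ⨆ m, |fderiv ℝ (w m) x v|

theorem abs_fderiv_le (hw : ∀ m, LipschitzWith C (w m)) (m : ℕ) (v x : Rk k) :
    |fderiv ℝ (w m) x v| ≤ C * ‖v‖ := by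
  rw [← Real.norm_eq_abs]
  refine (ContinuousLinearMap.le_opNorm _ _).trans ?_
  exact mul_le_mul_of_nonneg_right (norm_fderiv_le_of_lipschitz ℝ (hw m)) (norm_nonneg _)

theorem bddAbove_fderiv (hw : ∀ m, LipschitzWith C (w m)) (v x : Rk k) :
    BddAbove (range fun m => |fderiv ℝ (w m) x v|) :=
  ⟨C * ‖v‖, by rintro _ ⟨m, rfl⟩; exact abs_fderiv_le hw m v x⟩

theorem le_supD (hw : ∀ m, LipschitzWith C (w m)) (m : ℕ) (v x : Rk k) :
    |fderiv ℝ (w m) x v| ≤ supD w v x := le_ciSup (bddAbove_fderiv hw v x) m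

theorem supD_le (hw : ∀ m, LipschitzWith C (w m)) (v x : Rk k) : supD w v x ≤ C * ‖v‖ :=
  ciSup_le fun m => abs_fderiv_le hw m v x

theorem supD_nonneg (hw : ∀ m, LipschitzWith C (w m)) (v x : Rk k) : 0 ≤ supD w v x :=
  (abs_nonneg _).trans (le_supD hw 0 v x)

theorem measurable_supD (v : Rk k) : Measurable (supD w v) := by
  refine Measurable.iSup fun m => ?_
  exact (measurable_fderiv_apply_const ℝ (w m) v).abs

/-- the candidate for the metric derivative -/
noncomputable def supDSeminorm (hw : ∀ m, LipschitzWith C (w m)) (x : Rk k) :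
    Seminorm ℝ (Rk k) :=
  Seminorm.of (fun v => supD w v x)
    (fun u v => by
      refine ciSup_le fun m => ?_
      rw [map_add]
      exact (abs_add_le _ _).trans (add_le_add (le_supD hw m u x) (le_supD hw m v x)))
    (fun a v => by
      simp only [supD, map_smul, smul_eq_mul, abs_mul, Real.norm_eq_abs]
      exact (Real.mul_iSup_of_nonneg (abs_nonneg a) _).symm)

@[simp]
theorem supDSeminorm_apply (hw : ∀ m, LipschitzWith C (w m)) (x v : Rk k) :
    supDSeminorm hw x v = supD w v x := rfl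

theorem tendsto_floor_seq {F : ℝ → ℝ} {g : ℝ} (h0 : F 0 = 0) (h : HasDerivAt F g 0) :
    Tendsto (fun n : ℕ => ((n : ℝ) + 1) * F (1 / (n : ℝ))) atTop (𝓝 g) := by
  have h1 := hasDerivAt_iff_tendsto_slope_zero.1 h
  have h2 : Tendsto (fun n : ℕ => 1 / (n : ℝ)) atTop (𝓝[≠] 0) := by
    refine tendsto_nhdsWithin_iff.2 ⟨tendsto_one_div_atTop_nhds_zero_nat, ?_⟩
    filter_upwards [eventually_gt_atTop 0] with n hn
    have : (0 : ℝ) < n := by exact_mod_cast hn
    simp only [mem_compl_iff, mem_singleton_iff]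
    positivity
  have h3 := h1.comp h2
  have h4 : Tendsto (fun n : ℕ => (1 + 1 / (n : ℝ))) atTop (𝓝 (1 + 0)) :=
    tendsto_const_nhds.add tendsto_one_div_atTop_nhds_zero_nat
  have h5 := h4.mul h3
  rw [add_zero, one_mul] at h5
  refine h5.congr' ?_
  filter_upwards [eventually_gt_atTop 0] with n hn
  have : (0 : ℝ) < n := by exact_mod_cast hn
  simp only [Function.comp, zero_add, h0, sub_zero, smul_eq_mul]
  field_simp

theorem locallyIntegrable_line (hw : ∀ m, LipschitzWith C (w m)) (v x : Rk k) :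
    LocallyIntegrable (fun τ : ℝ => supD w v (x + τ • v)) volume := by
  have hm : Measurable (fun τ : ℝ => supD w v (x + τ • v)) :=
    (measurable_supD v).comp (by fun_prop)
  have : MemLp (fun τ : ℝ => supD w v (x + τ • v)) ∞ volume := by
    refine memLp_top_of_bound hm.aestronglyMeasurable (C * ‖v‖) (Eventually.of_forall fun τ => ?_)
    rw [Real.norm_eq_abs, abs_of_nonneg (supD_nonneg hw _ _)]
    exact supD_le hw _ _
  exact this.locallyIntegrable le_top

/-- Lebesgue points along lines -/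
theorem ae_tendsto_line (hw : ∀ m, LipschitzWith C (w m)) (v : Rk k) :
    ∀ᵐ x : Rk k, Tendsto (fun n : ℕ => ((n : ℝ) + 1) *
      ∫ τ in (0 : ℝ)..(1 / (n : ℝ)), supD w v (x + τ • v)) atTop (𝓝 (supD w v x)) := by
  let L : ℝ →ₗ[ℝ] Rk k := LinearMap.toSpanSingleton ℝ (Rk k) v
  have hmeas : ∀ n : ℕ, Measurable (fun x : Rk k => ((n : ℝ) + 1) *
      ∫ τ in (0 : ℝ)..(1 / (n : ℝ)), supD w v (x + τ • v)) := by
    intro n
    refine Measurable.const_mul ?_ _
    have h1 : (fun x : Rk k => ∫ τ in (0 : ℝ)..(1 / (n : ℝ)), supD w v (x + τ • v)) =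
        fun x => ∫ τ in Ioc (0 : ℝ) (1 / (n : ℝ)), supD w v (x + τ • v) := by
      ext x
      rw [intervalIntegral.integral_of_le (by positivity)]
    rw [h1]
    have h2 : StronglyMeasurable (fun p : Rk k × ℝ => supD w v (p.1 + p.2 • v)) :=
      ((measurable_supD v).comp (by fun_prop)).stronglyMeasurable
    exact h2.integral_prod_right'.measurable
  refine ae_mem_of_ae_add_linearMap_mem L volume volume
    (s := {x : Rk k | Tendsto (fun n : ℕ => ((n : ℝ) + 1) *
      ∫ τ in (0 : ℝ)..(1 / (n : ℝ)), supD w v (x + τ • v)) atTop (𝓝 (supD w v x))})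
    (measurableSet_tendsto_fun hmeas (measurable_supD v)) ?_
  intro x
  filter_upwards [_root_.LocallyIntegrable.ae_hasDerivAt_integral (locallyIntegrable_line hw v x)] with s hs
  have h1 := hs s
  set F : ℝ → ℝ := fun h => ∫ τ in (0 : ℝ)..h, supD w v ((x + s • v) + τ • v) with hF
  have h2 : ∀ h, F h = ∫ τ in s..(s + h), supD w v (x + τ • v) := by
    intro h
    have := intervalIntegral.integral_comp_add_left (a := 0) (b := h)
      (fun τ => supD w v (x + τ • v)) s
    rw [add_zero] at this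
    rw [← this, hF]
    simp only [add_smul, add_assoc]
  have h3 : HasDerivAt F (supD w v (x + s • v)) 0 := by
    have h4 : HasDerivAt (fun h : ℝ => s + h) 1 0 := (hasDerivAt_id 0).const_add s
    have h5 : HasDerivAt (fun y => ∫ τ in s..y, supD w v (x + τ • v))
        (supD w v (x + s • v)) (s + 0) := by rwa [add_zero]
    have h6 := h5.comp (0 : ℝ) h4
    rw [mul_one] at h6
    refine h6.congr_of_eventuallyEq (Eventually.of_forall fun h => ?_)
    simp only [Function.comp]
    exact h2 h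
  have h0 : F 0 = 0 := by simp [hF]
  have := tendsto_floor_seq h0 h3
  simpa [L, hF] using this

/-- along almost all lines, the increments are controlled -/
theorem ae_line_bound (hw : ∀ m, LipschitzWith C (w m)) (v : Rk k) :
    ∀ᵐ x : Rk k, ∀ m, ∀ t : ℝ, 0 ≤ t →
      |w m (x + t • v) - w m x| ≤ ∫ τ in (0 : ℝ)..t, supD w v (x + τ • v) := by
  have hD : ∀ m, ∀ᵐ x : Rk k, ∀ᵐ τ : ℝ, DifferentiableAt ℝ (w m) (x + τ • v) := by
    intro m
    have hms : MeasurableSet {p : Rk k × ℝ | DifferentiableAt ℝ (w m) (p.1 + p.2 • v)} :=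
      (measurableSet_of_differentiableAt ℝ (w m)).preimage
        (show Measurable fun p : Rk k × ℝ => p.1 + p.2 • v by fun_prop)
    rw [Measure.ae_ae_comm (p := fun (x : Rk k) (τ : ℝ) => DifferentiableAt ℝ (w m) (x + τ • v)) hms]
    refine Eventually.of_forall fun τ => ?_
    have := (hw m).ae_differentiableAt (μ := (volume : Measure (Rk k)))
    exact (measurePreserving_add_right (volume : Measure (Rk k)) (τ • v)).quasiMeasurePreserving.ae this
  filter_upwards [ae_all_iff.2 hD] with x hx m t ht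
  set f : ℝ → ℝ := fun τ => w m (x + τ • v) with hf
  have hfl : LipschitzWith (C * ‖v‖₊) f := by
    refine LipschitzWith.of_dist_le_mul fun a b => ?_
    refine ((hw m).dist_le_mul _ _).trans ?_
    rw [dist_add_left, dist_eq_norm, ← sub_smul, norm_smul, dist_eq_norm]
    simp only [NNReal.coe_mul, coe_nnnorm]
    exact le_of_eq (by ring)
  have h1 : ∫ τ in (0 : ℝ)..t, deriv f τ = f t - f 0 :=
    (hfl.lipschitzOnWith (s := uIcc 0 t)).absolutelyContinuousOnInterval.integral_deriv_eq_sub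
  have h2 : w m (x + t • v) - w m x = ∫ τ in (0 : ℝ)..t, deriv f τ := by
    rw [h1, hf]; simp
  have h3 : ∀ᵐ τ : ℝ, ‖deriv f τ‖ ≤ supD w v (x + τ • v) := by
    filter_upwards [hx m] with τ hτ
    have h4 : HasDerivAt (fun τ : ℝ => x + τ • v) v τ := by
      simpa using ((hasDerivAt_id τ).smul_const v).const_add x
    have h5 := hτ.hasFDerivAt.comp_hasDerivAt τ h4
    have h6 : deriv f τ = fderiv ℝ (w m) (x + τ • v) v := h5.deriv
    rw [h6, Real.norm_eq_abs]
    exact le_supD hw m v _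
  rw [h2, ← Real.norm_eq_abs]
  refine intervalIntegral.norm_integral_le_of_norm_le ht ?_ ?_
  · filter_upwards [h3] with τ hτ _ using hτ
  · exact intervalIntegrable_iff.2 <|
      ((locallyIntegrable_line hw v x).integrableOn_isCompact isCompact_uIcc).mono_set
        uIoc_subset_uIcc

/-- upper bound in a fixed direction -/
theorem ae_dir_upper (hw : ∀ m, LipschitzWith C (w m)) (v : Rk k) :
    ∀ᵐ x : Rk k, ∀ ε > 0, ∀ᶠ t : ℝ in 𝓝[>] 0, ∀ m,
      |w m (x + t • v) - w m x| ≤ t * (supD w v x + ε) := by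
  filter_upwards [ae_tendsto_line hw v, ae_line_bound hw v] with x hx1 hx2 ε hε
  set F : ℝ → ℝ := fun t => ∫ τ in (0 : ℝ)..t, supD w v (x + τ • v) with hF
  have hint : ∀ a b : ℝ, IntervalIntegrable (fun τ : ℝ => supD w v (x + τ • v)) volume a b :=
    fun a b => intervalIntegrable_iff.2 <|
      ((locallyIntegrable_line hw v x).integrableOn_isCompact isCompact_uIcc).mono_set
        uIoc_subset_uIcc
  have hmono : ∀ a b : ℝ, a ≤ b → F a ≤ F b := by
    intro a b hab
    have := intervalIntegral.integral_add_adjacent_intervals (hint 0 a) (hint a b)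
    have h0 : 0 ≤ ∫ τ in a..b, supD w v (x + τ • v) :=
      intervalIntegral.integral_nonneg hab fun τ _ => supD_nonneg hw _ _
    simp only [hF]
    linarith
  have h1 : ∀ᶠ n : ℕ in atTop, ((n : ℝ) + 1) * F (1 / (n : ℝ)) ≤ supD w v x + ε :=
    hx1.eventually (eventually_le_nhds (by linarith))
  have h2 : Tendsto (fun t : ℝ => ⌊t⁻¹⌋₊) (𝓝[>] 0) atTop :=
    tendsto_nat_floor_atTop.comp tendsto_inv_nhdsGT_zero
  have h3 : ∀ᶠ t : ℝ in 𝓝[>] 0, t < 1 := nhdsWithin_le_nhds (Iio_mem_nhds one_pos)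
  filter_upwards [h2.eventually h1, h3, self_mem_nhdsWithin] with t ht ht1 ht0 m
  have ht0' : (0 : ℝ) < t := ht0
  set n := ⌊t⁻¹⌋₊ with hn
  have hinv : 1 ≤ t⁻¹ := (one_le_inv₀ ht0').2 ht1.le
  have hn1 : (1 : ℝ) ≤ n := by
    have : 1 ≤ n := Nat.le_floor (by simpa using hinv)
    exact_mod_cast this
  have hn2 : (n : ℝ) ≤ t⁻¹ := Nat.floor_le (by positivity)
  have hn3 : t⁻¹ < (n : ℝ) + 1 := Nat.lt_floor_add_one _
  have ht4 : t ≤ 1 / (n : ℝ) := by
    rw [le_div_iff₀ (by linarith)]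
    calc t * n ≤ t * t⁻¹ := by gcongr
      _ = 1 := mul_inv_cancel₀ ht0'.ne'
  have hF0 : 0 ≤ F (1 / (n : ℝ)) := by
    have : F 0 ≤ F (1 / (n : ℝ)) := hmono _ _ (by positivity)
    simpa [hF] using this
  calc |w m (x + t • v) - w m x| ≤ F t := hx2 m t ht0'.le
    _ ≤ F (1 / (n : ℝ)) := hmono _ _ ht4
    _ = t * (t⁻¹ * F (1 / (n : ℝ))) := by
        rw [← mul_assoc, mul_inv_cancel₀ ht0'.ne', one_mul]
    _ ≤ t * (((n : ℝ) + 1) * F (1 / (n : ℝ))) := by gcongr
    _ ≤ t * (supD w v x + ε) := by gcongr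

theorem exists_finite_net {ε : ℝ} (hε : 0 < ε) {q : ℕ → Rk k} (hq : DenseRange q) :
    ∃ t : Finset ℕ, ∀ v : Rk k, ‖v‖ = 1 → ∃ j ∈ t, ‖v - q j‖ < ε := by
  have hc : IsCompact (sphere (0 : Rk k) 1) := isCompact_sphere _ _
  obtain ⟨t, ht⟩ := hc.elim_finite_subcover (fun j => ball (q j) ε) (fun j => isOpen_ball) (by
    intro v _
    obtain ⟨j, hj⟩ := hq.exists_dist_lt v hε
    exact mem_iUnion.2 ⟨j, hj⟩)
  refine ⟨t, fun v hv => ?_⟩
  have := ht (by simpa using hv : v ∈ sphere (0 : Rk k) 1)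
  simp only [mem_iUnion, mem_ball, dist_eq_norm, exists_prop] at this
  exact this

theorem supD_smul (a : ℝ) (v x : Rk k) : supD w (a • v) x = |a| * supD w v x := by
  simp only [supD, map_smul, smul_eq_mul, abs_mul]
  exact (Real.mul_iSup_of_nonneg (abs_nonneg a) _).symm

theorem supD_sub_le (hw : ∀ m, LipschitzWith C (w m)) (u v x : Rk k) :
    supD w u x ≤ supD w v x + C * ‖u - v‖ := by
  refine ciSup_le fun m => ?_
  have h1 : fderiv ℝ (w m) x u = fderiv ℝ (w m) x v + fderiv ℝ (w m) x (u - v) := by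
    rw [← map_add]; simp
  rw [h1]
  exact (abs_add_le _ _).trans (add_le_add (le_supD hw m v x) (abs_fderiv_le hw m _ x))

/-- upper bound in all directions -/
theorem ae_upper (hw : ∀ m, LipschitzWith C (w m)) :
    ∀ᵐ x : Rk k, ∀ ε > 0, ∀ᶠ y in 𝓝 x, ∀ m,
      |w m y - w m x| ≤ supD w (y - x) x + ε * ‖y - x‖ := by
  have hall : ∀ᵐ x : Rk k, ∀ j : ℕ, ∀ ε > 0, ∀ᶠ t : ℝ in 𝓝[>] 0, ∀ m,
      |w m (x + t • TopologicalSpace.denseSeq (Rk k) j) - w m x| ≤
        t * (supD w (TopologicalSpace.denseSeq (Rk k) j) x + ε) :=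
    ae_all_iff.2 fun j => ae_dir_upper hw _
  filter_upwards [hall] with x hx ε hε
  set q := TopologicalSpace.denseSeq (Rk k) with hq
  have hqd : DenseRange q := TopologicalSpace.denseRange_denseSeq _
  set ε' : ℝ := ε / (2 * C + 1) with hε'
  have hε'0 : 0 < ε' := by positivity
  obtain ⟨T, hT⟩ := exists_finite_net hε'0 hqd
  have h1 : ∀ᶠ t : ℝ in 𝓝[>] 0, ∀ j ∈ T, ∀ m, |w m (x + t • q j) - w m x| ≤
      t * (supD w (q j) x + ε') :=
    (Finset.eventually_all T).2 fun j _ => hx j ε' hε'0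
  rw [eventually_nhdsWithin_iff, Metric.eventually_nhds_iff] at h1
  obtain ⟨δ, hδ, h2⟩ := h1
  rw [Metric.eventually_nhds_iff]
  refine ⟨δ, hδ, fun y hy m => ?_⟩
  rcases eq_or_ne y x with rfl | hne
  · simp [supD]
  set r := ‖y - x‖ with hr
  have hr0 : 0 < r := norm_pos_iff.2 (sub_ne_zero.2 hne)
  set v : Rk k := r⁻¹ • (y - x) with hv
  have hv1 : ‖v‖ = 1 := by
    rw [hv, norm_smul, norm_inv, Real.norm_eq_abs, abs_of_pos hr0, ← hr, inv_mul_cancel₀ hr0.ne']
  have hyv : y - x = r • v := by rw [hv, smul_smul, mul_inv_cancel₀ hr0.ne', one_smul]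
  obtain ⟨j, hj, hjv⟩ := hT v hv1
  have h3 := h2 (y := r) (by
    rw [Real.dist_eq, sub_zero, abs_of_pos hr0, hr, ← dist_eq_norm]; exact hy) hr0 j hj m
  have h4 : |w m y - w m (x + r • q j)| ≤ C * (r * ε') := by
    have := (hw m).dist_le_mul y (x + r • q j)
    rw [Real.dist_eq] at this
    refine this.trans ?_
    gcongr
    have h5 : y - (x + r • q j) = r • (v - q j) := by
      rw [smul_sub, ← hyv]; abel
    rw [dist_eq_norm, h5, norm_smul, Real.norm_eq_abs, abs_of_pos hr0]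
    gcongr
  have h5 : supD w (q j) x ≤ supD w v x + C * ε' := by
    refine (supD_sub_le hw (q j) v x).trans ?_
    gcongr
    rw [norm_sub_rev]
    exact hjv.le
  have h6 : supD w (y - x) x = r * supD w v x := by
    rw [hyv, supD_smul, abs_of_pos hr0]
  have h7 : ε' * (2 * C + 1) = ε := by
    rw [hε']; field_simp
  calc |w m y - w m x| = |(w m y - w m (x + r • q j)) + (w m (x + r • q j) - w m x)| := by
        congr 1; ring
    _ ≤ |w m y - w m (x + r • q j)| + |w m (x + r • q j) - w m x| := abs_add_le _ _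
    _ ≤ C * (r * ε') + r * (supD w (q j) x + ε') := add_le_add h4 h3
    _ ≤ C * (r * ε') + r * ((supD w v x + C * ε') + ε') := by gcongr
    _ = supD w (y - x) x + ε * r := by rw [h6, ← h7]; ring

/-- lower bound -/
theorem lower_of_differentiable (hw : ∀ m, LipschitzWith C (w m)) {x : Rk k}
    (hx : ∀ m, DifferentiableAt ℝ (w m) x) {ε : ℝ} (hε : 0 < ε) :
    ∀ᶠ y in 𝓝 x, ∃ m, supD w (y - x) x - ε * ‖y - x‖ ≤ |w m y - w m x| := by
  set q := TopologicalSpace.denseSeq (Rk k) with hq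
  have hqd : DenseRange q := TopologicalSpace.denseRange_denseSeq _
  set ε' : ℝ := ε / (2 * C + 2) with hε'
  have hε'0 : 0 < ε' := by positivity
  obtain ⟨T, hT⟩ := exists_finite_net hε'0 hqd
  have hm : ∀ j, ∃ m, supD w (q j) x - ε' < |fderiv ℝ (w m) x (q j)| := fun j =>
    exists_lt_of_lt_ciSup (by
      show supD w (q j) x - ε' < supD w (q j) x
      linarith)
  choose M hM using hm
  have h1 : ∀ᶠ y in 𝓝 x, ∀ j ∈ T, ‖w (M j) y - w (M j) x - fderiv ℝ (w (M j)) x (y - x)‖ ≤
      ε' * ‖y - x‖ :=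
    (Finset.eventually_all T).2 fun j _ =>
      (isLittleO_iff.1 (hx (M j)).hasFDerivAt.isLittleO) hε'0
  filter_upwards [h1] with y hy
  rcases eq_or_ne y x with rfl | hne
  · exact ⟨0, by simp [supD]⟩
  set r := ‖y - x‖ with hr
  have hr0 : 0 < r := norm_pos_iff.2 (sub_ne_zero.2 hne)
  set v : Rk k := r⁻¹ • (y - x) with hv
  have hv1 : ‖v‖ = 1 := by
    rw [hv, norm_smul, norm_inv, Real.norm_eq_abs, abs_of_pos hr0, ← hr, inv_mul_cancel₀ hr0.ne']
  have hyv : y - x = r • v := by rw [hv, smul_smul, mul_inv_cancel₀ hr0.ne', one_smul]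
  obtain ⟨j, hj, hjv⟩ := hT v hv1
  refine ⟨M j, ?_⟩
  have h2 := hy j hj
  rw [Real.norm_eq_abs] at h2
  have h3 : |fderiv ℝ (w (M j)) x (y - x)| = r * |fderiv ℝ (w (M j)) x v| := by
    rw [hyv, map_smul, smul_eq_mul, abs_mul, abs_of_pos hr0]
  have h4 : |fderiv ℝ (w (M j)) x (q j)| ≤ |fderiv ℝ (w (M j)) x v| + C * ε' := by
    have h5 : fderiv ℝ (w (M j)) x (q j) = fderiv ℝ (w (M j)) x v +
        fderiv ℝ (w (M j)) x (q j - v) := by
      rw [← map_add]; simp
    rw [h5]
    refine (abs_add_le _ _).trans (add_le_add le_rfl ?_)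
    refine (abs_fderiv_le hw _ _ _).trans ?_
    gcongr
    rw [norm_sub_rev]
    exact hjv.le
  have h5 : supD w v x ≤ supD w (q j) x + C * ε' := by
    refine (supD_sub_le hw v (q j) x).trans ?_
    gcongr
  have h6 : supD w (y - x) x = r * supD w v x := by
    rw [hyv, supD_smul, abs_of_pos hr0]
  have h7 : ε' * (2 * C + 2) = ε := by
    rw [hε']; field_simp
  have h8 : |fderiv ℝ (w (M j)) x (y - x)| ≤ |w (M j) y - w (M j) x| + ε' * r := by
    have : fderiv ℝ (w (M j)) x (y - x) = (w (M j) y - w (M j) x) -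
      (w (M j) y - w (M j) x - fderiv ℝ (w (M j)) x (y - x)) := by ring
    rw [this]
    exact (abs_sub _ _).trans (add_le_add le_rfl h2)
  have h9 := hM j
  have h10 : supD w v x - (2 * C + 1) * ε' ≤ |fderiv ℝ (w (M j)) x v| := by linarith
  have h11 : r * (supD w v x - (2 * C + 1) * ε') ≤ r * |fderiv ℝ (w (M j)) x v| := by gcongr
  rw [← h3] at h11
  rw [h6, ← h7]
  nlinarith

variable {Z : Type*} [MetricSpace Z]

/-- **Kirchheim's theorem** (for one base point), with a measurable metric derivative. -/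
theorem exists_metricDeriv {φ : Rk k → Z} {K : Set (Rk k)} (hφ : LipschitzOnWith C φ K) :
    ∃ S : Rk k → Seminorm ℝ (Rk k), (∀ v, Measurable fun x => S x v) ∧
      (∀ x v, S x v ≤ C * ‖v‖) ∧ ∀ᵐ x : Rk k, x ∈ K → HasMetricDerivWithinAt φ (S x) K x := by
  rcases K.eq_empty_or_nonempty with rfl | hne
  · refine ⟨fun _ => 0, fun v => by simp, fun x v => by simp; positivity, ?_⟩
    exact Eventually.of_forall fun x hx => hx.elim
  obtain ⟨t, htK, htc, htd⟩ :=
    (TopologicalSpace.IsSeparable.of_separableSpace K).exists_countable_dense_subset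
  have htne : t.Nonempty := by
    rcases t.eq_empty_or_nonempty with rfl | h
    · obtain ⟨x, hx⟩ := hne
      simpa using htd hx
    · exact h
  obtain ⟨z, hz⟩ := htc.exists_eq_range htne
  have hzK : ∀ m, z m ∈ K := fun m => htK (hz ▸ mem_range_self m)
  have hlip : ∀ m, LipschitzOnWith C (fun x => dist (φ (z m)) (φ x)) K := by
    intro m
    refine LipschitzOnWith.of_dist_le_mul fun x hx y hy => ?_
    rw [Real.dist_eq, dist_comm (φ (z m)) (φ x), dist_comm (φ (z m)) (φ y)]
    exact (abs_dist_sub_le _ _ _).trans (hφ.dist_le_mul x hx y hy)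
  choose w hw hwe using fun m => (hlip m).extend_real
  refine ⟨supDSeminorm hw, fun v => measurable_supD v, fun x v => supD_le hw v x, ?_⟩
  have hdiff : ∀ᵐ x : Rk k, ∀ m, DifferentiableAt ℝ (w m) x :=
    ae_all_iff.2 fun m => (hw m).ae_differentiableAt
  filter_upwards [hdiff, ae_upper hw] with x hx1 hx2 hxK
  rw [HasMetricDerivWithinAt, isLittleO_iff]
  intro ε hε
  have hup := nhdsWithin_le_nhds (s := K) (hx2 ε hε)
  have hlow := nhdsWithin_le_nhds (s := K) (lower_of_differentiable hw hx1 hε)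
  filter_upwards [hup, hlow, self_mem_nhdsWithin] with y hy1 hy2 hyK
  have hww : ∀ m, w m y - w m x = dist (φ (z m)) (φ y) - dist (φ (z m)) (φ x) := by
    intro m
    rw [← hwe m hyK, ← hwe m hxK]
  have hle : ∀ m, |w m y - w m x| ≤ dist (φ y) (φ x) := by
    intro m
    rw [hww, dist_comm (φ (z m)) (φ y), dist_comm (φ (z m)) (φ x)]
    exact abs_dist_sub_le _ _ _
  have hge : dist (φ y) (φ x) ≤ supD w (y - x) x + ε * ‖y - x‖ := by
    refine le_of_forall_pos_le_add fun η hη => ?_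
    have hη' : 0 < η / (2 * (C + 1)) := by positivity
    obtain ⟨p, hp, hpx⟩ := Metric.mem_closure_iff.1 (htd hxK) _ hη'
    rw [hz] at hp
    obtain ⟨m, rfl⟩ := hp
    have h1 : dist (φ (z m)) (φ x) ≤ C * (η / (2 * (C + 1))) := by
      refine (hφ.dist_le_mul _ (hzK m) x hxK).trans ?_
      gcongr
      rw [dist_comm]; exact hpx.le
    have h2 : (C : ℝ) * (η / (2 * (C + 1))) ≤ η / 2 := by
      rw [show (C : ℝ) * (η / (2 * (C + 1))) = (C / (C + 1)) * (η / 2) by field_simp]
      have : (C : ℝ) / (C + 1) ≤ 1 := by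
        rw [div_le_one (by positivity)]; linarith
      nlinarith
    have h3 := hy1 m
    rw [hww] at h3
    have h4 := dist_triangle (φ y) (φ (z m)) (φ x)
    rw [dist_comm (φ y) (φ (z m))] at h4
    have h5 := le_abs_self (dist (φ (z m)) (φ y) - dist (φ (z m)) (φ x))
    linarith
  obtain ⟨m, hm⟩ := hy2
  rw [Real.norm_eq_abs, abs_le, supDSeminorm_apply]
  constructor
  · linarith [hle m]
  · linarith

theorem ae_hasMetricDerivWithinAt {φ : Rk k → Z} {K : Set (Rk k)} (hK : MeasurableSet K)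
    (hφ : LipschitzOnWith C φ K) :
    ∀ᵐ x ∂(volume.restrict K), HasMetricDerivWithinAt φ (metricDeriv φ K x) K x := by
  obtain ⟨S, -, -, hS⟩ := exists_metricDeriv hφ
  filter_upwards [(ae_restrict_iff' hK).2 hS] with x hx
  exact hasMetricDerivWithinAt_metricDeriv ⟨_, hx⟩

/-- a measurable version of the metric derivative -/
theorem exists_measurable_metricDeriv {φ : Rk k → Z} {K : Set (Rk k)} (hK : MeasurableSet K)
    (hφ : LipschitzOnWith C φ K) :
    ∃ S : Rk k → Seminorm ℝ (Rk k), (∀ v, Measurable fun x => S x v) ∧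
      ∀ᵐ x ∂(volume.restrict K), metricDeriv φ K x = S x := by
  obtain ⟨S, hm, -, hS⟩ := exists_metricDeriv hφ
  refine ⟨S, hm, ?_⟩
  filter_upwards [(ae_restrict_iff' hK).2 hS, ae_isDP K] with x hx hdp
  exact hx.metricDeriv_eq hdp

end FinslerRigid
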