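import Pool.Agent.FinslerRigid.Star

/-!
# Lipschitz-volume rigidity of convex bodies
-/

open MeasureTheory Set Filter Topology Asymptotics Metric
open scoped NNReal ENNReal

namespace FinslerRigid

variable {m : ℕ} {E : Type*} [NormedAddCommGroup E] [NormedSpace ℝ E]
  {Z : Type*} [MetricSpace Z]

set_option linter.unusedSectionVars false

namespace Setup

variable {J : FinslerVolume} {e : E ≃L[ℝ] Rk (m + 1)} {Y : Set E} {f : Z → E}
  {T : MetricFunctional (m + 1) Z} {R : LipParam (m + 1) Z} (S : Setup J e Y f T R)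

include S

theorem convex_image (hconv : Convex ℝ Y) : Convex ℝ (e '' Y) :=
  hconv.linear_image (e : E →L[ℝ] Rk (m + 1)).toLinearMap

/-- almost all points lie over a full subset of `Y` -/
theorem ae_mem_of_null {B : Set (Rk (m + 1))} (hB : MeasurableSet B)
    (h0 : volume (e '' Y ∩ B) = 0) :
    ∀ᵐ q ∂(R.vol), R.Θ q ≠ 0 → coordMap e f (R.Φ q) ∉ B := by
  have h1 := S.lintegral_dens hB
  rw [h0, lintegral_eq_zero_iff' S.aemeasurable_enorm_dens.restrict, EventuallyEq,
    ae_restrict_iff'₀ (S.aemeasurable_F.nullMeasurableSet_preimage hB)] at h1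
  filter_upwards [h1, S.ae_rigid] with q h2 h3 hΘ hmem
  have h4 := h2 hmem
  have h5 : dens e f R q = 0 := by simpa using h4
  exact (h3.2 hΘ).1.ne' h5

/-- **Lipschitz functions on `Z` descend to Lipschitz functions** -/
theorem exists_lipschitz_set (hconv : Convex ℝ Y)
    (hbd : ∀ (h : Z → ℝ) (π : Fin m → Z → ℝ), Admissible h π →
      (∀ z, f z ∉ interior Y → h z = 0) → boundary T h π = 0)
    {u : Z → ℝ} {c : ℝ≥0} (hu : LipschitzWith c u) {M : ℝ} (hM : ∀ z, |u z| ≤ M) :
    ∃ G : Set (ℕ × Rk (m + 1)), (∀ᵐ q ∂(R.vol), R.Θ q ≠ 0 → q ∈ G) ∧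
      ∀ q ∈ G, ∀ q' ∈ G, |u (R.Φ q) - u (R.Φ q')| ≤ c * dist (f (R.Φ q)) (f (R.Φ q')) := by
  obtain ⟨D, F, hD, hF, hinj, hDF, hDae⟩ := S.exists_injective
  -- the function downstairs
  choose C hC using fun i => R.lipschitz i
  choose U hU he using fun i => (hu.comp_lipschitzOnWith (hC i)).extend_real
  have hDs : StandardBorelSpace D := hD.standardBorel
  have hemb : MeasurableEmbedding (fun q : D => F q) :=
    (hF.comp measurable_subtype_coe).measurableEmbedding fun q q' h =>
      Subtype.ext (hinj q.2 q'.2 h)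
  have hgm : Measurable (fun q : D => U q.1.1 q.1.2) := by
    have : Measurable (fun q : ℕ × Rk (m + 1) => U q.1 q.2) :=
      measurable_from_prod_countable_right fun i => (hU i).continuous.measurable
    exact this.comp measurable_subtype_coe
  obtain ⟨ω₀, hω₀m, hω₀⟩ := hemb.exists_measurable_extend hgm (fun _ => ⟨0⟩)
  have hω₀' : ∀ q ∈ D, ω₀ (F q) = u (R.Φ q) := by
    intro q hq
    have h1 := congrFun hω₀ ⟨q, hq⟩
    have h2 : ω₀ (F q) = U q.1 q.2 := h1
    rw [h2, ← he q.1 (hDF q hq).1]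
    rfl
  set ω : Rk (m + 1) → ℝ := fun x => max (-M) (min M (ω₀ x)) with hω
  have hωm : Measurable ω := measurable_const.max (measurable_const.min hω₀m)
  have hω' : ∀ q ∈ D, ω (F q) = u (R.Φ q) := by
    intro q hq
    have h1 := abs_le.1 (hM (R.Φ q))
    rw [hω]
    dsimp only
    rw [hω₀' q hq, min_eq_right h1.2, max_eq_right h1.1]
  have hωb : ∀ x, |ω x| ≤ |M| := by
    intro x
    rw [abs_le]
    constructor
    · exact (neg_le_neg (le_abs_self M)).trans (le_max_left _ _)
    · exact max_le (neg_le_abs M) ((min_le_left _ _).trans (le_abs_self M))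
  have hωli : LocallyIntegrable ω := by
    refine (locallyIntegrable_const |M|).mono hωm.aestronglyMeasurable
      (Eventually.of_forall fun x => ?_)
    rw [Real.norm_eq_abs, Real.norm_eq_abs, abs_abs]
    exact hωb x
  have hYc : Convex ℝ (e '' Y) := S.convex_image hconv
  have hYcl : IsClosed (e '' Y) := (S.hY.image e.continuous).isClosed
  obtain ⟨Z₀, hZ₀, hZ₀'⟩ := ae_lipschitz_of_weak (Ω := interior (e '' Y)) isOpen_interior
    hYc.interior hωli (N := coordNorm e) (c := c) (fun v hv h hh hc hs => by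
      have hsY : tsupport h ⊆ e '' Y := hs.trans interior_subset
      have h1 : ∫ x, ω x * fderiv ℝ h x v = ∫ x in e '' Y, ω x * fderiv ℝ h x v := by
        symm
        refine setIntegral_eq_integral_of_forall_compl_eq_zero fun x hx => ?_
        have : fderiv ℝ h x = 0 := by
          apply image_eq_zero_of_notMem_tsupport
          intro hx'
          exact hx (hsY (tsupport_fderiv_subset ℝ hx'))
        rw [this]; simp
      have h2 : ∫ x, |h x| = ∫ x in e '' Y, |h x| := by
        symm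
        refine setIntegral_eq_integral_of_forall_compl_eq_zero fun x hx => ?_
        have : h x = 0 := image_eq_zero_of_notMem_tsupport fun hx' => hx (hsY hx')
        rw [this, abs_zero]
      rw [h1, h2, S.integral_transfer (g := fun x => ω x * fderiv ℝ h x v)
        (hωm.mul (measurable_fderiv_apply_const ℝ h v)),
        S.integral_transfer (g := fun x => |h x|) hh.continuous.measurable.abs]
      have h3 : ∫ q, dens e f R q * (ω (coordMap e f (R.Φ q)) *
          fderiv ℝ h (coordMap e f (R.Φ q)) v) ∂(R.vol) =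
          ∫ q, dens e f R q * (u (R.Φ q) * fderiv ℝ h (coordMap e f (R.Φ q)) v) ∂(R.vol) := by
        refine integral_congr_ae ?_
        filter_upwards [hDae] with q hq
        by_cases hΘ : R.Θ q = 0
        · have : dens e f R q = 0 := by simp [dens, hΘ]
          rw [this, zero_mul, zero_mul]
        · have h4 := hω' q (hq hΘ)
          rw [(hDF q (hq hΘ)).2] at h4
          rw [h4]
      rw [h3]
      exact S.weak_bound hbd hu hM hv hh hc hs)
  set B : Set (Rk (m + 1)) := (interior (e '' Y))ᶜ ∪ toMeasurable volume Z₀ with hB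
  have hBm : MeasurableSet B :=
    isOpen_interior.isClosed_compl.measurableSet.union (measurableSet_toMeasurable _ _)
  have hB0 : volume (e '' Y ∩ B) = 0 := by
    rw [hB, inter_union_distrib_left]
    refine measure_union_null ?_ ?_
    · refine measure_mono_null ?_ (hYc.addHaar_frontier volume)
      rintro x ⟨hx, hx'⟩
      exact ⟨subset_closure hx, hx'⟩
    · refine measure_mono_null inter_subset_right ?_
      rw [measure_toMeasurable, hZ₀]
  refine ⟨D ∩ {q | F q ∉ B}, ?_, ?_⟩
  · filter_upwards [hDae, S.ae_mem_of_null hBm hB0] with q h1 h2 hΘ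
    refine ⟨h1 hΘ, ?_⟩
    show F q ∉ B
    rw [(hDF q (h1 hΘ)).2]
    exact h2 hΘ
  · rintro q ⟨hq, hqB⟩ q' ⟨hq', hqB'⟩
    have h1 : ∀ x, x ∉ B → x ∈ interior (e '' Y) ∧ x ∉ Z₀ := by
      intro x hx
      refine ⟨?_, fun hx' => hx (Or.inr (subset_toMeasurable _ _ hx'))⟩
      by_contra hcon
      exact hx (Or.inl hcon)
    have h2 := hZ₀' _ (h1 _ hqB).1 (h1 _ hqB).2 _ (h1 _ hqB').1 (h1 _ hqB').2
    rw [hω' q hq, hω' q' hq', (hDF q hq).2, (hDF q' hq').2] at h2
    rw [coordNorm_apply, map_sub, coordMap, coordMap, ContinuousLinearEquiv.symm_apply_apply,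
        ContinuousLinearEquiv.symm_apply_apply, ← dist_eq_norm] at h2
    exact h2

omit [NormedAddCommGroup E] [NormedSpace ℝ E] S in
theorem isSeparable_image (R : LipParam (m + 1) Z) :
    TopologicalSpace.IsSeparable (⋃ i, R.φ i '' R.K i) := by
  refine TopologicalSpace.IsSeparable.iUnion fun i => ?_
  obtain ⟨C, hC⟩ := R.lipschitz i
  have h1 : R.φ i '' R.K i = range ((R.K i).domRestrict (R.φ i)) := by
    rw [Set.range_domRestrict]
  rw [h1]
  exact TopologicalSpace.isSeparable_range hC.continuousOn.domRestrict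

/-- **`f` is isometric on a full set** -/
theorem exists_isometric_set (hconv : Convex ℝ Y)
    (hbd : ∀ (h : Z → ℝ) (π : Fin m → Z → ℝ), Admissible h π →
      (∀ z, f z ∉ interior Y → h z = 0) → boundary T h π = 0) :
    ∃ G : Set (ℕ × Rk (m + 1)), (∀ᵐ q ∂(R.vol), R.Θ q ≠ 0 → q ∈ G) ∧
      ∀ q ∈ G, ∀ q' ∈ G, dist (R.Φ q) (R.Φ q') ≤ dist (f (R.Φ q)) (f (R.Φ q')) := by
  obtain ⟨c, hc, hcl⟩ := isSeparable_image R
  have : Countable c := hc.to_subtype
  have hu : ∀ (z : Z) (l : ℕ), LipschitzWith 1 fun w : Z => min (dist w z) (l : ℝ) := fun z l =>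
    (LipschitzWith.dist_left z).min_const _
  have hM : ∀ (z : Z) (l : ℕ) (w : Z), |min (dist w z) (l : ℝ)| ≤ l := by
    intro z l w
    rw [abs_of_nonneg (le_min dist_nonneg (Nat.cast_nonneg l))]
    exact min_le_right _ _
  choose G hG hG' using fun p : c × ℕ =>
    S.exists_lipschitz_set hconv hbd (hu p.1 p.2) (hM p.1 p.2)
  refine ⟨{q | q.2 ∈ R.K q.1} ∩ ⋂ p, G p, ?_, ?_⟩
  · have h1 : ∀ᵐ q ∂(R.vol), ∀ p, R.Θ q ≠ 0 → q ∈ G p := ae_all_iff.2 hG
    filter_upwards [h1, R.ae_mem] with q hq hq' hΘ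
    exact ⟨hq', mem_iInter.2 fun p => hq p hΘ⟩
  · rintro q ⟨hqK, hq⟩ q' ⟨hqK', hq'⟩
    rw [mem_iInter] at hq hq'
    -- for all centres
    have h1 : ∀ z ∈ c, |dist (R.Φ q) z - dist (R.Φ q') z| ≤ dist (f (R.Φ q)) (f (R.Φ q')) := by
      intro z hz
      obtain ⟨l, hl⟩ := exists_nat_ge (max (dist (R.Φ q) z) (dist (R.Φ q') z))
      have h2 := hG' (⟨z, hz⟩, l) q (hq _) q' (hq' _)
      simp only [NNReal.coe_one, one_mul] at h2
      rwa [min_eq_left ((le_max_left _ _).trans hl), min_eq_left ((le_max_right _ _).trans hl)] at h2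
    have h2 : R.Φ q' ∈ closure c := hcl (mem_iUnion.2 ⟨q'.1, q'.2, hqK', rfl⟩)
    have h3 : IsClosed {z | |dist (R.Φ q) z - dist (R.Φ q') z| ≤
        dist (f (R.Φ q)) (f (R.Φ q'))} := by
      refine isClosed_le ?_ continuous_const
      fun_prop
    have h4 := closure_minimal (fun z hz => h1 z hz) h3 h2
    have h5 : |dist (R.Φ q) (R.Φ q') - dist (R.Φ q') (R.Φ q')| ≤
      dist (f (R.Φ q)) (f (R.Φ q')) := h4
    rwa [dist_self, sub_zero, abs_of_nonneg dist_nonneg] at h5

variable {G : Set (ℕ × Rk (m + 1))}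

/-- the support is contained in the closure of a full set -/
theorem spt_subset (hG : ∀ᵐ q ∂(R.vol), R.Θ q ≠ 0 → q ∈ G) : spt T ⊆ closure (R.Φ '' G) := by
  intro z hz
  by_contra hcon
  obtain ⟨r, hr, hball⟩ := Metric.isOpen_iff.1 isClosed_closure.isOpen_compl z hcon
  obtain ⟨h, π, hadm, h0, hne⟩ := hz r hr
  refine hne ?_
  obtain ⟨⟨Ch, hCh⟩, ⟨M, hM⟩, hπ⟩ := id hadm
  obtain ⟨L, hL⟩ := exists_lipschitz_pi hπ
  rw [S.hR _ _ hadm, R.current_eq S.hJ S.hm hCh.continuous hM hL]
  refine integral_eq_zero_of_ae ?_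
  filter_upwards [hG] with q hq
  show (R.Θ q : ℝ) * h (R.Φ q) * _ = 0
  by_cases hΘ : R.Θ q = 0
  · rw [hΘ]; simp
  · have h1 : R.Φ q ∈ closure (R.Φ '' G) := subset_closure ⟨q, hq hΘ, rfl⟩
    have h2 : r ≤ dist (R.Φ q) z := by
      by_contra hlt
      exact hball (mem_ball.2 (not_le.1 hlt)) h1
    rw [h0 _ h2]; simp

omit S in
/-- isometric on the closure -/
theorem dist_le_on_closure (hf : LipschitzWith 1 f)
    (hG : ∀ q ∈ G, ∀ q' ∈ G, dist (R.Φ q) (R.Φ q') ≤ dist (f (R.Φ q)) (f (R.Φ q')))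
    {z z' : Z} (hz : z ∈ closure (R.Φ '' G)) (hz' : z' ∈ closure (R.Φ '' G)) :
    dist z z' ≤ dist (f z) (f z') := by
  have hcont := hf.continuous
  have h1 : ∀ q ∈ G, ∀ z' ∈ closure (R.Φ '' G), dist (R.Φ q) z' ≤ dist (f (R.Φ q)) (f z') := by
    intro q hq
    have hcl : IsClosed {z' | dist (R.Φ q) z' ≤ dist (f (R.Φ q)) (f z')} :=
      isClosed_le (by fun_prop) (by fun_prop)
    refine fun z' hz' => closure_minimal ?_ hcl hz'
    rintro _ ⟨q', hq', rfl⟩
    exact hG q hq q' hq'
  have hcl : IsClosed {z | dist z z' ≤ dist (f z) (f z')} :=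
    isClosed_le (by fun_prop) (by fun_prop)
  refine closure_minimal ?_ hcl hz
  rintro _ ⟨q, hq, rfl⟩
  exact h1 q hq z' hz'

/-- a lower bound for the mass of small balls -/
theorem mem_canonicalSet (hconv : Convex ℝ Y) (hint : (interior Y).Nonempty)
    (hG : ∀ᵐ q ∂(R.vol), R.Θ q ≠ 0 → q ∈ G)
    (hG' : ∀ q ∈ G, ∀ q' ∈ G, dist (R.Φ q) (R.Φ q') ≤ dist (f (R.Φ q)) (f (R.Φ q')))
    {z : Z} (hz : z ∈ closure (R.Φ '' G)) (hzY : f z ∈ Y) : z ∈ canonicalSet T := by
  have hconv' := S.convex_image hconv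
  -- a ball in the body
  obtain ⟨x₀, ρ, hρ, hball⟩ : ∃ (x₀ : Rk (m + 1)) (ρ : ℝ), 0 < ρ ∧ ball x₀ ρ ⊆ e '' Y := by
    obtain ⟨y, hy⟩ := hint
    have h5 : interior (e '' Y) = e '' interior Y := (e.toHomeomorph.image_interior Y).symm
    have h6 : e y ∈ interior (e '' Y) := by rw [h5]; exact mem_image_of_mem _ hy
    obtain ⟨ρ, hρ, hb⟩ := Metric.isOpen_iff.1 isOpen_interior _ h6
    exact ⟨e y, ρ, hρ, hb.trans interior_subset⟩
  set x := e (f z) with hx
  have hxY : x ∈ e '' Y := mem_image_of_mem _ hzY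
  obtain ⟨C, hC0, hC⟩ := seminorm_le (coordNorm e)
  set Dm : ℝ := ‖x₀ - x‖ + ρ with hDm
  have hDm0 : 0 < Dm := by positivity
  set κ : ℝ := 1 / (2 * (C + 1) * Dm) with hκ
  have hκ0 : 0 < κ := by positivity
  set L : ℝ := ‖(e : E →L[ℝ] Rk (m + 1))‖ + 1 with hL
  have hL0 : 0 < L := by positivity
  refine ⟨(L⁻¹) ^ (m + 1) * (1 / 2 * (2 * κ * ρ) ^ (m + 1)), by positivity, ?_⟩
  have hev : ∀ᶠ r in 𝓝[>] (0 : ℝ), r < 1 / κ := by
    refine Filter.Eventually.filter_mono nhdsWithin_le_nhds ?_
    exact gt_mem_nhds (by positivity)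
  filter_upwards [self_mem_nhdsWithin, hev] with r hr hrκ
  have hr0 : 0 < r := hr
  set h : Z → ℝ := fun w => max 0 (1 - dist w z / r) with hh
  have hlip : LipschitzWith (Real.toNNReal r⁻¹) h := by
    have h1 : LipschitzWith (Real.toNNReal r⁻¹) fun w : Z => 1 - dist w z / r := by
      refine LipschitzWith.of_dist_le_mul fun x y => ?_
      rw [Real.dist_eq, Real.coe_toNNReal _ (by positivity)]
      have : 1 - dist x z / r - (1 - dist y z / r) = -(r⁻¹ * (dist x z - dist y z)) := by
        field_simp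
        ring
      rw [this, abs_neg, abs_mul, abs_of_pos (by positivity : 0 < r⁻¹)]
      gcongr
      exact abs_dist_sub_le x y z
    exact h1.const_max 0
  have hhb : ∀ w, |h w| ≤ 1 := by
    intro w
    rw [abs_of_nonneg (le_max_left _ _)]
    exact max_le zero_le_one (by
      have : 0 ≤ dist w z / r := by positivity
      linarith)
  have hh0 : ∀ w ∉ ball z r, h w = 0 := by
    intro w hw
    rw [mem_ball, not_lt] at hw
    refine max_eq_left ?_
    have : 1 ≤ dist w z / r := (one_le_div hr0).2 hw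
    linarith
  set G₀ : Z → Rk (m + 1) := fun w j => L⁻¹ * coordMap e f w j with hG₀
  have hG₀1 : LipschitzWith 1 G₀ := by
    refine LipschitzWith.of_dist_le_mul fun w w' => ?_
    have h1 : G₀ w - G₀ w' = L⁻¹ • (coordMap e f w - coordMap e f w') := by
      ext j
      simp [hG₀, mul_sub]
    rw [dist_eq_norm, h1, norm_smul, Real.norm_of_nonneg (by positivity), ← dist_eq_norm,
      inv_mul_le_iff₀ hL0, NNReal.coe_one, one_mul]
    refine (S.lip.dist_le_mul w w').trans ?_
    gcongr
    show ‖(e : E →L[ℝ] Rk (m + 1))‖ ≤ ‖(e : E →L[ℝ] Rk (m + 1))‖ + 1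
    linarith
  have hπ1 : ∀ j, LipschitzWith 1 (fun w => G₀ w j) := fun j =>
    LipschitzWith.of_dist_le_mul fun w w' =>
      (dist_le_pi_dist (G₀ w) (G₀ w') j).trans (hG₀1.dist_le_mul w w')
  have hadm : Admissible h (fun j w => G₀ w j) := ⟨⟨_, hlip⟩, ⟨1, hhb⟩, fun j => ⟨1, hπ1 j⟩⟩
  -- the value
  have h1 : T h (fun j w => G₀ w j) =
      (L⁻¹) ^ (m + 1) * ∫ q, dens e f R q * h (R.Φ q) ∂(R.vol) := by
    rw [S.hR _ _ hadm, R.current_eq S.hJ S.hm hlip.continuous hhb
      (π := fun j w => G₀ w j) hG₀1, ← integral_const_mul]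
    refine integral_congr_ae ?_
    filter_upwards [R.ae_isDP', R.ae_hasFDeriv S.lip] with q h2 h3
    have h4 : HasFDerivWithinAt (fun y => G₀ (R.φ q.1 y)) (L⁻¹ • R.D (coordMap e f) q)
        (R.K q.1) q.2 := h3.const_smul L⁻¹
    have h5 : R.D G₀ q = L⁻¹ • R.D (coordMap e f) q := h4.fderivWithin h2.uniqueDiffWithinAt
    have h6 : (L⁻¹ • R.D (coordMap e f) q).det = (L⁻¹) ^ (m + 1) * (R.D (coordMap e f) q).det := by
      have := LinearMap.det_smul L⁻¹ (R.D (coordMap e f) q : Rk (m + 1) →ₗ[ℝ] Rk (m + 1))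
      rw [Module.finrank_fin_fun] at this
      exact this
    show (R.Θ q : ℝ) * h (R.Φ q) * (R.D G₀ q).det = (L⁻¹) ^ (m + 1) * (dens e f R q * h (R.Φ q))
    rw [h5, h6, dens]
    ring
  set g : Rk (m + 1) → ℝ := fun x => max 0 (1 - ‖e.symm x - f z‖ / r) with hg
  have hgc : Continuous g := by
    rw [hg]
    have := e.symm.continuous
    fun_prop
  have h2 : ∫ q, dens e f R q * h (R.Φ q) ∂(R.vol) = ∫ x in e '' Y, g x := by
    rw [S.integral_transfer hgc.measurable]
    refine integral_congr_ae ?_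
    filter_upwards [hG] with q hq
    by_cases hΘ : R.Θ q = 0
    · have : dens e f R q = 0 := by simp [dens, hΘ]
      rw [this, zero_mul, zero_mul]
    · have h3 := dist_le_on_closure S.hf hG' (subset_closure ⟨q, hq hΘ, rfl⟩) hz
      have h4 := S.hf.dist_le_mul (R.Φ q) z
      rw [NNReal.coe_one, one_mul] at h4
      have h5 : dist (R.Φ q) z = ‖e.symm (coordMap e f (R.Φ q)) - f z‖ := by
        rw [coordMap, ContinuousLinearEquiv.symm_apply_apply, ← dist_eq_norm]
        exact le_antisymm h3 h4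
      rw [hh, hg]
      dsimp only
      rw [h5]
  have hgi : IntegrableOn g (e '' Y) :=
    hgc.continuousOn.integrableOn_compact (S.hY.image e.continuous)
  -- lower bound
  set t : ℝ := κ * r with ht
  have ht0 : 0 < t := by positivity
  have ht1 : t ≤ 1 := by
    rw [ht]
    have := hrκ.le
    rw [le_div_iff₀ hκ0] at this
    linarith
  set A : Set (Rk (m + 1)) := ball (x + t • (x₀ - x)) (t * ρ) with hA
  have hAsub : A ⊆ e '' Y := by
    intro y hy
    rw [hA, mem_ball, dist_eq_norm] at hy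
    set y' := x + t⁻¹ • (y - x) with hy'
    have h3 : y' ∈ e '' Y := by
      refine hball ?_
      rw [mem_ball, dist_eq_norm]
      have h4 : y' - x₀ = t⁻¹ • (y - (x + t • (x₀ - x))) := by
        rw [hy', sub_add_eq_sub_sub, smul_sub t⁻¹ (y - x), smul_smul, inv_mul_cancel₀ ht0.ne',
          one_smul]
        abel
      rw [h4, norm_smul, Real.norm_of_nonneg (by positivity), inv_mul_lt_iff₀ ht0]
      exact hy
    have h4 : y = (1 - t) • x + t • y' := by
      rw [hy', smul_add, smul_smul, mul_inv_cancel₀ ht0.ne', one_smul, sub_smul, one_smul]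
      abel
    rw [h4]
    exact hconv' hxY h3 (by linarith) ht0.le (by ring)
  have hAg : ∀ y ∈ A, 1 / 2 ≤ g y := by
    intro y hy
    rw [hA, mem_ball, dist_eq_norm] at hy
    have h3 : ‖y - x‖ ≤ t * Dm := by
      have h4 : y - x = (y - (x + t • (x₀ - x))) + t • (x₀ - x) := by abel
      rw [h4]
      refine (norm_add_le _ _).trans ?_
      rw [norm_smul, Real.norm_of_nonneg ht0.le, hDm]
      nlinarith [hy.le]
    have h4 : ‖e.symm y - f z‖ ≤ r / 2 := by
      have h5 : e.symm y - f z = e.symm (y - x) := by rw [map_sub, hx]; simp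
      rw [h5]
      have h6 : ‖e.symm (y - x)‖ ≤ C * ‖y - x‖ := hC (y - x)
      calc ‖e.symm (y - x)‖ ≤ C * ‖y - x‖ := h6
        _ ≤ (C + 1) * (t * Dm) := by gcongr; linarith
        _ = r / 2 := by
          rw [ht, hκ]
          field_simp
    rw [hg]
    dsimp only
    refine le_max_of_le_right ?_
    have h7 : ‖e.symm y - f z‖ / r ≤ 1 / 2 := by
      rw [div_le_iff₀ hr0]; linarith
    linarith
  have hvolA : volume A = ENNReal.ofReal ((2 * κ * ρ) ^ (m + 1) * r ^ (m + 1)) := by
    rw [hA, Real.volume_pi_ball _ (by positivity), Fintype.card_fin, ← mul_pow]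
    congr 2
    rw [ht]; ring
  have h3 : 1 / 2 * ((2 * κ * ρ) ^ (m + 1) * r ^ (m + 1)) ≤ ∫ x in e '' Y, g x := by
    calc 1 / 2 * ((2 * κ * ρ) ^ (m + 1) * r ^ (m + 1)) = ∫ _ in A, (1 / 2 : ℝ) := by
          rw [setIntegral_const, smul_eq_mul, Measure.real, hvolA,
            ENNReal.toReal_ofReal (by positivity)]
          ring
      _ ≤ ∫ x in A, g x := by
          refine setIntegral_mono_on ?_ (hgi.mono_set hAsub) measurableSet_ball hAg
          exact integrableOn_const (by rw [hvolA]; exact ENNReal.ofReal_ne_top)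
      _ ≤ ∫ x in e '' Y, g x := by
          refine setIntegral_mono_set hgi (Eventually.of_forall fun x => le_max_left _ _) ?_
          exact hAsub.eventuallyLE
  have h4 : (L⁻¹) ^ (m + 1) * (1 / 2 * (2 * κ * ρ) ^ (m + 1)) * r ^ (m + 1) ≤
      |T h (fun j w => G₀ w j)| := by
    rw [h1, h2]
    refine le_trans ?_ (le_abs_self _)
    calc _ = (L⁻¹) ^ (m + 1) * (1 / 2 * ((2 * κ * ρ) ^ (m + 1) * r ^ (m + 1))) := by ring
      _ ≤ _ := by gcongr
  refine (ENNReal.ofReal_le_ofReal h4).trans ?_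
  have h5 : ∑ i : Fin 1, ENNReal.ofReal |T ((fun _ => h) i) ((fun _ j w => G₀ w j) i)| ≤
      massOn T (ball z r) := by
    unfold massOn
    refine le_iSup_of_le 1 (le_iSup_of_le (fun _ => h) (le_iSup_of_le (fun _ j w => G₀ w j)
      (le_iSup_of_le ⟨fun _ => ⟨_, hlip⟩, fun _ => hh0, fun w => ?_, fun _ j => hπ1 j⟩ le_rfl)))
    simpa using hhb w
  simpa using h5

/-- surjectivity -/
theorem subset_image [CompleteSpace Z] (hconv : Convex ℝ Y) (hint : (interior Y).Nonempty)
    (hG : ∀ᵐ q ∂(R.vol), R.Θ q ≠ 0 → q ∈ G)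
    (hG' : ∀ q ∈ G, ∀ q' ∈ G, dist (R.Φ q) (R.Φ q') ≤ dist (f (R.Φ q)) (f (R.Φ q'))) :
    Y ⊆ f '' closure (R.Φ '' G) := by
  have hclosed : IsClosed (f '' closure (R.Φ '' G)) := by
    have h1 : IsComplete (f '' closure (R.Φ '' G)) := by
      rw [image_eq_range]
      have h2 : Isometry (fun x : closure (R.Φ '' G) => f x) := by
        refine Isometry.of_dist_eq fun x y => le_antisymm ?_ ?_
        · have := S.hf.dist_le_mul x.1 y.1
          rw [NNReal.coe_one, one_mul] at this
          exact this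
        · exact dist_le_on_closure S.hf hG' x.2 y.2
      have : CompleteSpace (closure (R.Φ '' G)) :=
        isClosed_closure.completeSpace_coe
      exact h2.isUniformInducing.isComplete_range
    exact h1.isClosed
  intro y hy
  rw [← hclosed.closure_eq, Metric.mem_closure_iff]
  intro ε hε
  by_contra hcon
  push Not at hcon
  set B : Set (Rk (m + 1)) := {x | ‖e.symm x - y‖ < ε} with hB
  have hBo : IsOpen B := by
    refine isOpen_lt ?_ continuous_const
    have := e.symm.continuous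
    fun_prop
  have h0 : volume (e '' Y ∩ B) = 0 := by
    rw [← S.lintegral_dens hBo.measurableSet, lintegral_eq_zero_iff'
      S.aemeasurable_enorm_dens.restrict, EventuallyEq,
      ae_restrict_iff'₀ (S.aemeasurable_F.nullMeasurableSet_preimage hBo.measurableSet)]
    filter_upwards [hG] with q hq hmem
    by_cases hΘ : R.Θ q = 0
    · simp [dens, hΘ]
    · exfalso
      have h1 := hcon (f (R.Φ q)) ⟨R.Φ q, subset_closure ⟨q, hq hΘ, rfl⟩, rfl⟩
      have h2 : ‖e.symm (coordMap e f (R.Φ q)) - y‖ < ε := hmem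
      rw [coordMap, ContinuousLinearEquiv.symm_apply_apply, ← dist_eq_norm, dist_comm] at h2
      linarith
  have hne : (interior (e '' Y) ∩ B).Nonempty := by
    have h3 : e y ∈ closure (interior (e '' Y)) := by
      have h4 : (interior (e '' Y)).Nonempty := by
        obtain ⟨y', hy'⟩ := hint
        refine ⟨e y', ?_⟩
        have h5 : interior (e '' Y) = e '' interior Y := (e.toHomeomorph.image_interior Y).symm
        rw [h5]
        exact mem_image_of_mem _ hy'
      rw [(S.convex_image hconv).closure_interior_eq_closure_of_nonempty_interior h4]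
      exact subset_closure (mem_image_of_mem _ hy)
    have h6 : B ∈ 𝓝 (e y) := hBo.mem_nhds (by
      show ‖e.symm (e y) - y‖ < ε
      simpa using hε)
    obtain ⟨x, hx, hx'⟩ := mem_closure_iff_nhds.1 h3 _ h6
    exact ⟨x, hx', hx⟩
  have h7 := (isOpen_interior.inter hBo).measure_pos volume hne
  exact h7.ne' (measure_mono_null (inter_subset_inter_left _ interior_subset) h0)

end Setup

/-- points of positive lower density belong to the support -/
theorem canonicalSet_subset_spt {k : ℕ} (T : MetricFunctional k Z) :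
    canonicalSet T ⊆ spt T := by
  rintro z ⟨c, hc, hev⟩ r hr
  by_contra hcon
  push Not at hcon
  have hlt : ∀ᶠ ρ in 𝓝[>] (0 : ℝ), ρ < r :=
    Filter.Eventually.filter_mono nhdsWithin_le_nhds (gt_mem_nhds hr)
  obtain ⟨ρ, h1, h2, h3⟩ := (hev.and (hlt.and self_mem_nhdsWithin)).exists
  have hρ : 0 < ρ := h3
  have h4 : massOn T (ball z ρ) = 0 := by
    unfold massOn
    simp only [ENNReal.iSup_eq_zero]
    rintro N h π ⟨hh, h0, hsum, hπ⟩
    refine Finset.sum_eq_zero fun i _ => ?_
    rw [hcon (h i) (π i) ⟨hh i, ⟨1, fun w => ?_⟩, fun j => ⟨1, hπ i j⟩⟩ fun w hw => ?_,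
      abs_zero, ENNReal.ofReal_zero]
    · exact (Finset.single_le_sum (f := fun i => |h i w|) (fun i _ => abs_nonneg _)
        (Finset.mem_univ i)).trans (hsum w)
    · exact h0 i w fun hmem => absurd (mem_ball.1 hmem) (not_lt.2 (h2.le.trans hw))
  rw [h4, nonpos_iff_eq_zero, ENNReal.ofReal_eq_zero] at h1
  have : 0 < c * ρ ^ k := by positivity
  linarith

/-- the properties which allow to pass from the Busemann mass to `J` -/
def Dominated (J : FinslerVolume) : Prop :=
  ∀ k, ∃ c : ℝ≥0∞, c < ∞ ∧ ∀ s : Seminorm ℝ (Rk k), IsNormLike s → J k s ≤ c * busemann k s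

theorem LipParam.IsInjective.mass_lt_top {k : ℕ} {R : LipParam k Z} (hR : R.IsInjective)
    (hm : R.mass busemann < ∞) {J : FinslerVolume} (hJ : Dominated J) : R.mass J < ∞ := by
  obtain ⟨c, hc, h⟩ := hJ k
  have h1 : R.mass J ≤ c * R.mass busemann := by
    rw [R.mass_eq, R.mass_eq, ← lintegral_const_mul' _ _ hc.ne]
    refine lintegral_mono_ae ?_
    filter_upwards [hR.isNormLike] with q hq
    calc ((R.Θ q).natAbs : ℝ≥0∞) * J k (R.md q)
        ≤ ((R.Θ q).natAbs : ℝ≥0∞) * (c * busemann k (R.md q)) := by gcongr; exact h _ hq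
      _ = c * (((R.Θ q).natAbs : ℝ≥0∞) * busemann k (R.md q)) := by ring
  exact h1.trans_lt (ENNReal.mul_lt_top hc hm)

/-- **Lipschitz-volume rigidity of convex bodies** for every good Finsler volume -/
theorem lipschitzVolumeRigid {J : FinslerVolume} (hJ : IsGoodVolume J) (hJb : Dominated J)
    (e : E ≃L[ℝ] Rk (m + 1)) {Y : Set E} (hY : IsCompact Y) (hconv : Convex ℝ Y)
    (hint : (interior Y).Nonempty) : LipschitzVolumeRigid J e Y := by
  let _ : MeasurableSpace E := borel E
  have : BorelSpace E := ⟨rfl⟩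
  have : FiniteDimensional ℝ E := e.symm.toLinearEquiv.finiteDimensional
  have hcomp : CompleteSpace E := FiniteDimensional.complete ℝ E
  intro X f hf hfY hpush hbm hmass
  set f' : UniformSpace.Completion X.X → E := UniformSpace.Completion.extension f with hf'
  have hf'l : LipschitzWith 1 f' := hf.completion_extension
  have hf'c : ∀ x : X.X, f' x = f x := fun x =>
    UniformSpace.Completion.extension_coe hf.uniformContinuous x
  obtain ⟨⟨R, hRi, hRm, hR⟩, ⟨R', hRi', hRm', hR'⟩⟩ := X.isIntegral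
  -- the boundary
  have hm' : R'.mass J < ∞ := hRi'.mass_lt_top hRm' hJb
  have hΘ := ae_theta_eq_zero e hY hf'l hpush hRi' hJ hm' hR'
    (by rw [← finslerMass_eq_mass hRi' hRm' hR' hJ]; exact hbm)
  have hbd : ∀ (h : UniformSpace.Completion X.X → ℝ) (π : Fin m → UniformSpace.Completion X.X → ℝ),
      Admissible h π → (∀ z, f' z ∉ interior Y → h z = 0) → boundary X.T h π = 0 :=
    fun h π hadm h0 => boundary_eq_zero hJ hm' hR' hΘ hadm h0
  have S : Setup J e Y f' X.T R :=
    { hJ := hJ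
      hY := hY
      hf := hf'l
      hpush := hpush
      hinj := hRi
      hm := hRi.mass_lt_top hRm hJb
      hR := hR
      hmass := by
        rw [← finslerMass_eq_mass hRi hRm hR hJ]
        exact hmass.trans (finslerMass_body_le e hY J) }
  obtain ⟨G, hG, hG'⟩ := S.exists_isometric_set hconv hbd
  have hcl : closure (R.Φ '' G) = univ := by
    have h1 : range ((↑) : X.X → UniformSpace.Completion X.X) ⊆ closure (R.Φ '' G) :=
      X.subset_spt.trans (S.spt_subset hG)
    have h2 := closure_minimal h1 isClosed_closure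
    rw [UniformSpace.Completion.denseRange_coe.closure_eq] at h2
    exact univ_subset_iff.1 h2
  have hf'Y : ∀ z, f' z ∈ Y := by
    intro z
    refine UniformSpace.Completion.denseRange_coe.induction_on (p := fun z => f' z ∈ Y) z
      (hY.isClosed.preimage hf'l.continuous) fun x => ?_
    rw [hf'c]
    exact hfY x
  have hsurj : ∀ z : UniformSpace.Completion X.X, ∃ x : X.X,
      (x : UniformSpace.Completion X.X) = z := fun z =>
    X.canonicalSet_subset
      (S.mem_canonicalSet hconv hint hG hG' (by rw [hcl]; exact mem_univ z) (hf'Y z))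
  refine ⟨Isometry.of_dist_eq fun x y => ?_, ?_⟩
  · have h1 := Setup.dist_le_on_closure (f := f') (R := R) (G := G) hf'l hG'
      (z := (x : UniformSpace.Completion X.X)) (z' := (y : UniformSpace.Completion X.X))
      (by rw [hcl]; exact mem_univ _) (by rw [hcl]; exact mem_univ _)
    rw [hf'c, hf'c, UniformSpace.Completion.dist_eq] at h1
    have h2 := hf.dist_le_mul x y
    rw [NNReal.coe_one, one_mul] at h2
    exact le_antisymm h2 h1
  · refine Subset.antisymm (range_subset_iff.2 hfY) fun y hy => ?_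
    obtain ⟨z, -, hz⟩ := S.subset_image hconv hint hG hG' hy
    obtain ⟨x, rfl⟩ := hsurj z
    exact ⟨x, by rw [← hf'c]; exact hz⟩

theorem dominated_busemann : Dominated busemann := fun k =>
  ⟨1, ENNReal.one_lt_top, fun s _ => by rw [one_mul]⟩

theorem dominated_holmesThompson : Dominated holmesThompson := fun k => holmesThompson_le k

end FinslerRigid
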