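import Pool.Agent.FinslerRigid.Density

/-!
# Weakly Lipschitz functions are Lipschitz
-/

open MeasureTheory Set Filter Topology Metric ContinuousLinearMap
open scoped NNReal ENNReal Convolution

namespace FinslerRigid

variable {n : ℕ}

/-- the mollifiers -/
noncomputable def moll (n : ℕ) (j : ℕ) : ContDiffBump (0 : Rk n) where
  rIn := 1 / (2 * ((j : ℝ) + 1))
  rOut := 1 / ((j : ℝ) + 1)
  rIn_pos := by positivity
  rIn_lt_rOut := by
    apply one_div_lt_one_div_of_lt <;> linarith [(Nat.cast_nonneg j : (0 : ℝ) ≤ j)]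

theorem tendsto_moll_rOut : Tendsto (fun j => (moll n j).rOut) atTop (𝓝 0) :=
  tendsto_one_div_add_atTop_nhds_zero_nat

theorem moll_rOut_le (j : ℕ) : (moll n j).rOut ≤ 2 * (moll n j).rIn := by
  show 1 / ((j : ℝ) + 1) ≤ 2 * (1 / (2 * ((j : ℝ) + 1)))
  apply le_of_eq
  field_simp

/-- the derivative of a mollification -/
theorem hasFDerivAt_mollified (j : ℕ) {ω : Rk n → ℝ} (hω : LocallyIntegrable ω) (x : Rk n) :
    ∃ D : Rk n →L[ℝ] ℝ,
      HasFDerivAt ((moll n j).normed volume ⋆[lsmul ℝ ℝ, volume] ω) D x ∧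
      ∀ v, D v = -∫ t, ω t * fderiv ℝ (fun t => (moll n j).normed volume (x - t)) t v := by
  set f := (moll n j).normed (volume : Measure (Rk n)) with hf
  have hcf : HasCompactSupport f := (moll n j).hasCompactSupport_normed
  have hcd : ContDiff ℝ 1 f := (moll n j).contDiff_normed
  refine ⟨_, hcf.hasFDerivAt_convolution_left (lsmul ℝ ℝ) hcd hω x, fun v => ?_⟩
  have hcfd : HasCompactSupport (fderiv ℝ f) := hcf.fderiv ℝ
  have hex : ConvolutionExists (fderiv ℝ f) ω ((lsmul ℝ ℝ : ℝ →L[ℝ] ℝ →L[ℝ] ℝ).precompL (Rk n))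
      volume := hcfd.convolutionExists_left _ (hcd.continuous_fderiv one_ne_zero) hω
  rw [convolution_eq_swap, ContinuousLinearMap.integral_apply (hex x).integrable_swap,
    ← integral_neg]
  refine integral_congr_ae (Eventually.of_forall fun t => ?_)
  have h1 : HasFDerivAt (fun t => f (x - t)) ((fderiv ℝ f (x - t)).comp
      (-ContinuousLinearMap.id ℝ (Rk n))) t := by
    have h2 : HasFDerivAt f (fderiv ℝ f (x - t)) (x - t) :=
      ((hcd.differentiable one_ne_zero) (x - t)).hasFDerivAt
    exact h2.comp t ((hasFDerivAt_id t).const_sub x)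
  simp only [h1.fderiv, precompL_apply, lsmul_apply, ContinuousLinearMap.comp_apply,
    ContinuousLinearMap.neg_apply, ContinuousLinearMap.id_apply, map_neg, smul_eq_mul]
  ring

/-- **A bounded function whose distributional derivatives are bounded by `c N` is Lipschitz off
a null set**, on convex open sets. -/
theorem ae_lipschitz_of_weak {Ω : Set (Rk n)} (hΩ : IsOpen Ω) (hconv : Convex ℝ Ω)
    {ω : Rk n → ℝ} (hω : LocallyIntegrable ω) {N : Seminorm ℝ (Rk n)}
    {c : ℝ} (H : ∀ v, v ≠ 0 → ∀ h : Rk n → ℝ, ContDiff ℝ 1 h → HasCompactSupport h →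
      tsupport h ⊆ Ω → |∫ x, ω x * fderiv ℝ h x v| ≤ c * N v * ∫ x, |h x|) :
    ∃ Z : Set (Rk n), volume Z = 0 ∧
      ∀ x ∈ Ω, x ∉ Z → ∀ y ∈ Ω, y ∉ Z → |ω x - ω y| ≤ c * N (x - y) := by
  have hae := ContDiffBump.ae_convolution_tendsto_right_of_locallyIntegrable
    (μ := (volume : Measure (Rk n))) (φ := moll n) (l := atTop) (K := 2) tendsto_moll_rOut
    (Eventually.of_forall moll_rOut_le) hω
  refine ⟨_, ae_iff.1 hae, ?_⟩
  intro x hx hxZ y hy hyZ
  rw [mem_ofPred_eq, not_not] at hxZ hyZ
  rcases eq_or_ne x y with rfl | hne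
  · simp
  have hlim : Tendsto (fun j => |((moll n j).normed volume ⋆[lsmul ℝ ℝ, volume] ω) x -
      ((moll n j).normed volume ⋆[lsmul ℝ ℝ, volume] ω) y|) atTop (𝓝 |ω x - ω y|) :=
    (hxZ.sub hyZ).abs
  refine le_of_tendsto hlim ?_
  have hseg : segment ℝ y x ⊆ Ω := hconv.segment_subset hy hx
  have hcomp : IsCompact (segment ℝ y x) := by
    rw [segment_eq_image_lineMap]
    exact isCompact_Icc.image (AffineMap.lineMap_continuous)
  obtain ⟨δ, hδ, hδΩ⟩ := hcomp.exists_cthickening_subset_open hΩ hseg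
  filter_upwards [tendsto_moll_rOut.eventually (gt_mem_nhds hδ)] with j hj
  choose D hD hDv using hasFDerivAt_mollified j hω
  set F := (moll n j).normed volume ⋆[lsmul ℝ ℝ, volume] ω with hF
  have hline : ∀ s : ℝ, HasDerivAt (fun s : ℝ => F (AffineMap.lineMap y x s))
      (D (AffineMap.lineMap y x s) (x - y)) s := by
    intro s
    exact (hD _).comp_hasDerivAt s AffineMap.hasDerivAt_lineMap
  have hbound : ∀ s ∈ Ico (0 : ℝ) 1, ‖D (AffineMap.lineMap y x s) (x - y)‖ ≤ c * N (x - y) := by
    intro s hs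
    set p := AffineMap.lineMap y x s with hp
    have hpseg : p ∈ segment ℝ y x := by
      rw [segment_eq_image_lineMap]
      exact ⟨s, ⟨hs.1, hs.2.le⟩, rfl⟩
    set h : Rk n → ℝ := fun t => (moll n j).normed volume (p - t) with hh
    have hcd : ContDiff ℝ 1 h := (moll n j).contDiff_normed.comp (contDiff_const.sub contDiff_id)
    have hsub : tsupport h ⊆ closedBall p (moll n j).rOut := by
      refine closure_minimal ?_ isClosed_closedBall
      intro t ht
      have h1 : p - t ∈ Function.support ((moll n j).normed (volume : Measure (Rk n))) := ht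
      rw [(moll n j).support_normed_eq, mem_ball_zero_iff] at h1
      rw [mem_closedBall, dist_comm, dist_eq_norm]
      exact h1.le
    have hcs : HasCompactSupport h := (isCompact_closedBall _ _).of_isClosed_subset
      (isClosed_tsupport h) hsub
    have hsΩ : tsupport h ⊆ Ω := by
      refine hsub.trans (Subset.trans ?_ hδΩ)
      intro t ht
      exact mem_cthickening_of_dist_le t p δ _ hpseg ((mem_closedBall.1 ht).trans hj.le)
    have h1 := H (x - y) (sub_ne_zero.2 hne) h hcd hcs hsΩ
    have h2 : ∫ t, |h t| = 1 := by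
      have h3 : ∀ t, |h t| = (moll n j).normed volume (p - t) := fun t =>
        abs_of_nonneg ((moll n j).nonneg_normed _)
      simp_rw [h3]
      rw [integral_sub_left_eq_self (fun t => (moll n j).normed volume t) volume p]
      exact (moll n j).integral_normed
    rw [hDv, norm_neg, Real.norm_eq_abs]
    rw [h2, mul_one] at h1
    exact h1
  have h3 := norm_image_sub_le_of_norm_deriv_le_segment_01'
    (f := fun s : ℝ => F (AffineMap.lineMap y x s))
    (fun s _ => (hline s).hasDerivWithinAt) hbound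
  simpa [Real.norm_eq_abs] using h3

end FinslerRigid
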