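import Pool.Agent.FinslerRigid.Density

/-!
# Properties of the Busemann and Holmes-Thompson volumes
-/

open MeasureTheory Set Filter Topology Asymptotics Metric
open scoped NNReal ENNReal

namespace FinslerRigid

variable {k : ℕ}

/-- the seminorm `s` is a norm, quantitatively -/
def IsNormLike (s : Seminorm ℝ (Rk k)) : Prop := ∃ C : ℝ, ∀ v, ‖v‖ ≤ C * s v

/-- the properties of a Finsler volume which are used -/
structure IsGoodVolume (J : FinslerVolume) : Prop where
  mono : ∀ (k : ℕ) (s s' : Seminorm ℝ (Rk k)), (∀ v, s v ≤ s' v) → J k s ≤ J k s'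
  comp : ∀ (k : ℕ) (s : Seminorm ℝ (Rk k)) (A : Rk k →ₗ[ℝ] Rk k), LinearMap.det A ≠ 0 →
    J k (s.comp A) = ENNReal.ofReal |LinearMap.det A| * J k s
  pos : ∀ (k : ℕ) (s : Seminorm ℝ (Rk k)), IsNormLike s → 0 < J k s
  lt_top : ∀ (k : ℕ) (s : Seminorm ℝ (Rk k)), J k s < ∞
  strict : ∀ (k : ℕ) (s s' : Seminorm ℝ (Rk k)), IsNormLike s → IsNormLike s' →
    (∀ v, s v ≤ s' v) → J k s = J k s' → s = s'
  meas : ∀ (k : ℕ) (S : Rk k → Seminorm ℝ (Rk k)), (∀ v, Measurable fun x => S x v) →
    Measurable fun x => J k (S x)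

theorem omega_pos (k : ℕ) : 0 < omega k := measure_ball_pos _ _ one_pos

theorem omega_lt_top (k : ℕ) : omega k < ∞ := measure_ball_lt_top

theorem isClosed_unit (s : Seminorm ℝ (Rk k)) : IsClosed {v : Rk k | s v ≤ 1} :=
  isClosed_le (seminorm_continuous s) continuous_const

theorem unit_pos (s : Seminorm ℝ (Rk k)) : 0 < volume {v : Rk k | s v ≤ 1} := by
  obtain ⟨C, hC, h⟩ := seminorm_le s
  have h1 : ball (0 : Rk k) (1 / (C + 1)) ⊆ {v : Rk k | s v ≤ 1} := by
    intro v hv
    rw [mem_ball_zero_iff] at hv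
    have h2 : C * ‖v‖ ≤ C * (1 / (C + 1)) := by gcongr
    have h3 : C * (1 / (C + 1)) ≤ 1 := by
      rw [mul_one_div, div_le_one (by positivity)]; linarith
    exact (h v).trans (h2.trans h3)
  exact (measure_ball_pos _ _ (by positivity)).trans_le (measure_mono h1)

theorem IsNormLike.unit_lt_top {s : Seminorm ℝ (Rk k)} (hs : IsNormLike s) :
    volume {v : Rk k | s v ≤ 1} < ∞ := by
  obtain ⟨C, hC⟩ := hs
  have h1 : {v : Rk k | s v ≤ 1} ⊆ closedBall (0 : Rk k) |C| := by
    intro v hv
    rw [mem_closedBall_zero_iff]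
    have hv' : s v ≤ 1 := hv
    calc ‖v‖ ≤ C * s v := hC v
      _ ≤ |C| * s v := by gcongr; exact le_abs_self C
      _ ≤ |C| * 1 := by gcongr
      _ = |C| := mul_one _
  exact (measure_mono h1).trans_lt measure_closedBall_lt_top

theorem IsNormLike.pos {s : Seminorm ℝ (Rk k)} (hs : IsNormLike s) {v : Rk k} (hv : v ≠ 0) :
    0 < s v := by
  obtain ⟨C, hC⟩ := hs
  rcases (apply_nonneg s v).eq_or_lt with h | h
  · have := hC v
    rw [← h, mul_zero] at this
    exact absurd (norm_le_zero_iff.1 this) hv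
  · exact h

theorem measurable_seminorm_uncurry {S : Rk k → Seminorm ℝ (Rk k)}
    (hS : ∀ v, Measurable fun x => S x v) :
    Measurable fun p : Rk k × Rk k => S p.1 p.2 := by
  have h1 : Measurable (Function.uncurry fun (v x : Rk k) => S x v) :=
    measurable_uncurry_of_continuous_of_measurable (fun x => seminorm_continuous (S x)) hS
  exact h1.comp measurable_swap

theorem isGoodVolume_busemann : IsGoodVolume busemann where
  mono k s s' h := by
    refine ENNReal.div_le_div_left (measure_mono fun v hv => ?_) _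
    exact (h v).trans hv
  comp k s A hA := by
    have h1 : {v : Rk k | (s.comp A) v ≤ 1} = A ⁻¹' {v : Rk k | s v ≤ 1} := rfl
    rw [busemann, busemann, h1, Measure.addHaar_preimage_linearMap _ hA]
    have h2 : ENNReal.ofReal |(LinearMap.det A)⁻¹| = (ENNReal.ofReal |LinearMap.det A|)⁻¹ := by
      rw [abs_inv, ENNReal.ofReal_inv_of_pos (abs_pos.2 hA)]
    have h3 : ENNReal.ofReal |LinearMap.det A| ≠ 0 := by
      simpa using hA
    rw [h2, div_eq_mul_inv, div_eq_mul_inv, ENNReal.mul_inv (Or.inl (by simp))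
      (Or.inl (by simpa using hA)), inv_inv]
    ring
  pos k s hs := ENNReal.div_pos (omega_pos k).ne' hs.unit_lt_top.ne
  lt_top k s := ENNReal.div_lt_top (omega_lt_top k).ne (unit_pos s).ne'
  strict k s s' hs hs' hle heq := by
    by_contra hne
    obtain ⟨v, hv⟩ : ∃ v, s v < s' v := by
      by_contra hcon
      push Not at hcon
      exact hne (Seminorm.ext fun v => le_antisymm (hle v) (hcon v))
    have hs'v : 0 < s' v := (apply_nonneg s v).trans_lt hv
    have hsum : 0 < s v + s' v := by linarith [apply_nonneg s v]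
    set U : Set (Rk k) := {u | s u < 1 ∧ 1 < s' u} with hU
    have hUo : IsOpen U := (isOpen_lt (seminorm_continuous s) continuous_const).inter
      (isOpen_lt continuous_const (seminorm_continuous s'))
    have hUne : U.Nonempty := by
      refine ⟨(2 / (s v + s' v)) • v, ?_, ?_⟩
      · rw [seminorm_hom s _ _ (by positivity), div_mul_eq_mul_div, div_lt_one hsum]
        linarith
      · rw [seminorm_hom s' _ _ (by positivity), div_mul_eq_mul_div, one_lt_div hsum]
        linarith
    have hUpos : 0 < volume U := hUo.measure_pos _ hUne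
    have hdisj : Disjoint {v : Rk k | s' v ≤ 1} U := by
      rw [Set.disjoint_left]
      rintro u hu ⟨-, hu2⟩
      exact absurd hu (not_le.2 hu2)
    have hsub : {v : Rk k | s' v ≤ 1} ∪ U ⊆ {v : Rk k | s v ≤ 1} := by
      rintro u (hu | hu)
      · exact (hle u).trans hu
      · exact hu.1.le
    have h1 : volume {v : Rk k | s' v ≤ 1} + volume U ≤ volume {v : Rk k | s v ≤ 1} := by
      rw [← measure_union hdisj hUo.measurableSet]
      exact measure_mono hsub
    have h2 : volume {v : Rk k | s' v ≤ 1} < volume {v : Rk k | s v ≤ 1} :=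
      (ENNReal.lt_add_right hs'.unit_lt_top.ne hUpos.ne').trans_le h1
    have h3 : busemann k s < busemann k s' :=
      ENNReal.div_lt_div_left (omega_pos k).ne' (omega_lt_top k).ne h2
    exact h3.ne heq
  meas k S hS := by
    have h1 : MeasurableSet {p : Rk k × Rk k | S p.1 p.2 ≤ 1} :=
      measurableSet_le (measurable_seminorm_uncurry hS) measurable_const
    exact Measurable.const_div (measurable_measure_prodMk_left h1) _

/-! ### Holmes-Thompson -/

/-- the polar body -/
def polarBody (s : Seminorm ℝ (Rk k)) : Set (Rk k) := {ξ | ∀ v, |∑ i, ξ i * v i| ≤ s v}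

theorem holmesThompson_eq (s : Seminorm ℝ (Rk k)) :
    holmesThompson k s = volume (polarBody s) / omega k := rfl

theorem abs_sum_le (ξ v : Rk k) : |∑ i, ξ i * v i| ≤ k * (‖ξ‖ * ‖v‖) := by
  refine (Finset.abs_sum_le_sum_abs _ _).trans ?_
  calc ∑ i, |ξ i * v i| ≤ ∑ _i : Fin k, ‖ξ‖ * ‖v‖ := by
        refine Finset.sum_le_sum fun i _ => ?_
        rw [abs_mul]
        exact mul_le_mul (norm_le_pi_norm ξ i) (norm_le_pi_norm v i) (abs_nonneg _) (norm_nonneg _)
    _ = k * (‖ξ‖ * ‖v‖) := by simp

theorem isClosed_polarBody (s : Seminorm ℝ (Rk k)) : IsClosed (polarBody s) := by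
  have : polarBody s = ⋂ v, {ξ | |∑ i, ξ i * v i| ≤ s v} := by
    ext ξ; simp [polarBody]
  rw [this]
  exact isClosed_iInter fun v => isClosed_le (by fun_prop) continuous_const

theorem isBounded_polarBody (s : Seminorm ℝ (Rk k)) : Bornology.IsBounded (polarBody s) := by
  obtain ⟨C, hC, h⟩ := seminorm_le s
  refine (isBounded_closedBall (x := (0 : Rk k)) (r := C)).subset fun ξ hξ => ?_
  rw [mem_closedBall_zero_iff, pi_norm_le_iff_of_nonneg hC]
  intro i
  have h1 := hξ (Pi.single i 1)
  have h2 : ∑ j, ξ j * (Pi.single i 1 : Rk k) j = ξ i := by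
    simp [Pi.single_apply]
  rw [h2] at h1
  have h3 := h (Pi.single i 1)
  have h4 : ‖(Pi.single i 1 : Rk k)‖ ≤ 1 := by
    rw [pi_norm_le_iff_of_nonneg zero_le_one]
    intro j
    by_cases hj : j = i
    · subst hj; simp
    · simp [hj]
  rw [Real.norm_eq_abs]
  calc |ξ i| ≤ s (Pi.single i 1) := h1
    _ ≤ C * ‖(Pi.single i 1 : Rk k)‖ := h3
    _ ≤ C * 1 := by gcongr
    _ = C := mul_one C

theorem isCompact_polarBody (s : Seminorm ℝ (Rk k)) : IsCompact (polarBody s) :=
  Metric.isCompact_of_isClosed_isBounded (isClosed_polarBody s) (isBounded_polarBody s)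

theorem IsNormLike.exists_ball_subset {s : Seminorm ℝ (Rk k)} (hs : IsNormLike s) :
    ∃ δ > 0, ball (0 : Rk k) δ ⊆ polarBody s := by
  obtain ⟨C, hC⟩ := hs
  refine ⟨1 / (k * |C| + 1), by positivity, fun ξ hξ v => ?_⟩
  rw [mem_ball_zero_iff] at hξ
  have h1 : ‖v‖ ≤ |C| * s v := (hC v).trans (by gcongr; exact le_abs_self C)
  have h2 := abs_sum_le ξ v
  have h3 : (k : ℝ) * (‖ξ‖ * ‖v‖) ≤ k * ((1 / (k * |C| + 1)) * (|C| * s v)) := by gcongr
  have h4 : (k : ℝ) * ((1 / (k * |C| + 1)) * (|C| * s v)) = (k * |C| / (k * |C| + 1)) * s v := by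
    field_simp
  have h5 : (k : ℝ) * |C| / (k * |C| + 1) ≤ 1 := by
    rw [div_le_one (by positivity)]; linarith
  have h6 : (k * |C| / (k * |C| + 1)) * s v ≤ 1 * s v := by
    gcongr
  linarith

theorem exists_polar_eq (s : Seminorm ℝ (Rk k)) (v : Rk k) :
    ∃ ξ ∈ polarBody s, ∑ i, ξ i * v i = s v := by
  rcases eq_or_ne v 0 with rfl | hv
  · exact ⟨0, fun v => by simp, by simp⟩
  · let f : Rk k →ₗ.[ℝ] ℝ := LinearPMap.mkSpanSingleton v (s v) hv
    obtain ⟨g, hg1, hg2⟩ := exists_extension_of_le_sublinear f s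
      (fun c hc x => seminorm_hom s c x hc) (map_add_le_add s) (by
        rintro ⟨x, hx⟩
        obtain ⟨c, rfl⟩ := Submodule.mem_span_singleton.1 hx
        have h1 : f ⟨c • v, hx⟩ = c • s v := LinearPMap.mkSpanSingleton'_apply v (s v) _ c hx
        show f ⟨c • v, hx⟩ ≤ s (c • v)
        rw [h1, map_smul_eq_mul, smul_eq_mul]
        exact mul_le_mul_of_nonneg_right (le_abs_self c) (apply_nonneg s v))
    have hgs : ∀ u : Rk k, ∑ i, g (Pi.single i 1) * u i = g u := by
      intro u
      conv_rhs => rw [show u = ∑ i, u i • (Pi.single i 1 : Rk k) by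
        ext j; simp [Finset.sum_apply, Pi.single_apply]]
      rw [map_sum]
      refine Finset.sum_congr rfl fun i _ => ?_
      rw [map_smul, smul_eq_mul, mul_comm]
    refine ⟨fun i => g (Pi.single i 1), fun u => ?_, ?_⟩
    · rw [hgs, abs_le]
      constructor
      · have := hg2 (-u)
        rw [map_neg, map_neg_eq_map] at this
        linarith
      · exact hg2 u
    · rw [hgs]
      have hmem : v ∈ f.domain := Submodule.mem_span_singleton_self v
      have := hg1 ⟨v, hmem⟩
      have h2 : f ⟨v, hmem⟩ = s v := LinearPMap.mkSpanSingleton'_apply_self _ _ _ _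
      rw [← h2, ← this]

theorem isGoodVolume_holmesThompson : IsGoodVolume holmesThompson where
  mono k s s' h := by
    refine ENNReal.div_le_div_right (measure_mono fun ξ hξ v => ?_) _
    exact (hξ v).trans (h v)
  comp k s A hA := by
    set M := LinearMap.toMatrix' A with hM
    have hdet : M.det = LinearMap.det A := LinearMap.det_toMatrix' A
    have hdet0 : M.det ≠ 0 := hdet ▸ hA
    have hAM : ∀ v, A v = M.mulVec v := fun v => by
      rw [hM]; exact (LinearMap.toMatrix'_mulVec A v).symm
    set N := M⁻¹ with hN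
    have hu : IsUnit M.det := isUnit_iff_ne_zero.2 hdet0
    set T : Rk k →ₗ[ℝ] Rk k := Matrix.toLin' N.transpose with hT
    have hTdet : LinearMap.det T = (LinearMap.det A)⁻¹ := by
      rw [hT, LinearMap.det_toLin', Matrix.det_transpose, hN, Matrix.det_nonsing_inv, hdet,
        Ring.inverse_eq_inv']
    have hTdet0 : LinearMap.det T ≠ 0 := by rw [hTdet]; exact inv_ne_zero hA
    have h1 : polarBody (s.comp A) = T ⁻¹' (polarBody s) := by
      ext ξ
      simp only [polarBody, mem_ofPred_eq, mem_preimage, Seminorm.comp_apply]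
      have key : ∀ w, ∑ i, (T ξ) i * w i = ∑ i, ξ i * (N.mulVec w) i := by
        intro w
        have : (T ξ) ⬝ᵥ w = ξ ⬝ᵥ (N.mulVec w) := by
          rw [hT, Matrix.toLin'_apply, Matrix.mulVec_transpose, Matrix.dotProduct_mulVec]
        exact this
      constructor
      · intro h w
        have := h (N.mulVec w)
        rw [key, hAM, Matrix.mulVec_mulVec, Matrix.mul_nonsing_inv _ hu, Matrix.one_mulVec] at *
        exact this
      · intro h v
        have := h (M.mulVec v)
        rw [key, Matrix.mulVec_mulVec, Matrix.nonsing_inv_mul _ hu, Matrix.one_mulVec] at this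
        rwa [hAM]
    rw [holmesThompson_eq, holmesThompson_eq, h1, Measure.addHaar_preimage_linearMap _ hTdet0,
      hTdet, inv_inv, mul_div_assoc]
  pos k s hs := by
    obtain ⟨δ, hδ, h⟩ := hs.exists_ball_subset
    rw [holmesThompson_eq]
    exact ENNReal.div_pos ((measure_ball_pos _ _ hδ).trans_le (measure_mono h)).ne'
      (omega_lt_top k).ne
  lt_top k s := ENNReal.div_lt_top (isCompact_polarBody s).measure_lt_top.ne (omega_pos k).ne'
  strict k s s' hs hs' hle heq := by
    by_contra hne
    obtain ⟨v, hv⟩ : ∃ v, s v < s' v := by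
      by_contra hcon
      push Not at hcon
      exact hne (Seminorm.ext fun v => le_antisymm (hle v) (hcon v))
    obtain ⟨ξ, hξ, hξv⟩ := exists_polar_eq s' v
    have hs'v : 0 < s' v := (apply_nonneg s v).trans_lt hv
    obtain ⟨C, hC⟩ := hs'
    set D := |C| with hD
    have hCD : ∀ u, ‖u‖ ≤ D * s' u := fun u => (hC u).trans (by
      gcongr; exact le_abs_self C)
    set t : ℝ := (s' v - s v) / (2 * s' v) with ht
    have ht0 : 0 < t := div_pos (by linarith) (by positivity)
    have ht1 : t * s' v = (s' v - s v) / 2 := by rw [ht]; field_simp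
    have ht2 : t ≤ 1 := by
      rw [ht, div_le_one (by positivity)]; linarith [apply_nonneg s v]
    set r : ℝ := min (t / (k * D + 1)) ((s' v - s v) / (4 * (k * ‖v‖ + 1))) with hr
    have hr0 : 0 < r := lt_min (by positivity) (div_pos (by linarith) (by positivity))
    have hr1 : r * (k * D) ≤ t := by
      have h1 : r ≤ t / (k * D + 1) := min_le_left _ _
      calc r * (k * D) ≤ t / (k * D + 1) * (k * D) := by gcongr
        _ = t * ((k * D) / (k * D + 1)) := by ring
        _ ≤ t * 1 := by
            gcongr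
            rw [div_le_one (by positivity)]; linarith
        _ = t := mul_one t
    have hr2 : r * (k * ‖v‖) ≤ (s' v - s v) / 4 := by
      have h1 : r ≤ (s' v - s v) / (4 * (k * ‖v‖ + 1)) := min_le_right _ _
      have h2 : 0 < s' v - s v := by linarith
      calc r * (k * ‖v‖) ≤ (s' v - s v) / (4 * (k * ‖v‖ + 1)) * (k * ‖v‖) := by gcongr
        _ = ((s' v - s v) / 4) * ((k * ‖v‖) / (k * ‖v‖ + 1)) := by field_simp
        _ ≤ ((s' v - s v) / 4) * 1 := by
            gcongr
            rw [div_le_one (by positivity)]; linarith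
        _ = _ := mul_one _
    have hsplit : ∀ (η u : Rk k), ∑ i, η i * u i = (1 - t) * (∑ i, ξ i * u i) +
        ∑ i, (η - (1 - t) • ξ) i * u i := by
      intro η u
      rw [Finset.mul_sum, ← Finset.sum_add_distrib]
      refine Finset.sum_congr rfl fun i _ => ?_
      simp only [Pi.sub_apply, Pi.smul_apply, smul_eq_mul]
      ring
    set U : Set (Rk k) := ball ((1 - t) • ξ) r with hU
    have hU1 : ∀ η ∈ U, η ∈ polarBody s' := by
      intro η hη u
      rw [hU, mem_ball, dist_eq_norm] at hη
      rw [hsplit η u]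
      refine (abs_add_le _ _).trans ?_
      rw [abs_mul, abs_of_nonneg (by linarith : (0 : ℝ) ≤ 1 - t)]
      have h1 : (1 - t) * |∑ i, ξ i * u i| ≤ (1 - t) * s' u :=
        mul_le_mul_of_nonneg_left (hξ u) (by linarith)
      have h2 := abs_sum_le (η - (1 - t) • ξ) u
      have h3 : (k : ℝ) * (‖η - (1 - t) • ξ‖ * ‖u‖) ≤ k * (r * (D * s' u)) := by
        gcongr
        exact hCD u
      have h4 : (k : ℝ) * (r * (D * s' u)) = r * (k * D) * s' u := by ring
      have h5 : r * (k * D) * s' u ≤ t * s' u := by gcongr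
      linarith
    have hU2 : ∀ η ∈ U, η ∉ polarBody s := by
      intro η hη hcon
      rw [hU, mem_ball, dist_eq_norm] at hη
      have h1 := hcon v
      rw [hsplit η v, hξv] at h1
      have h2 := abs_sum_le (η - (1 - t) • ξ) v
      have h3 : (k : ℝ) * (‖η - (1 - t) • ξ‖ * ‖v‖) ≤ r * (k * ‖v‖) := by
        have : ‖η - (1 - t) • ξ‖ * ‖v‖ ≤ r * ‖v‖ := by gcongr
        calc (k : ℝ) * (‖η - (1 - t) • ξ‖ * ‖v‖) ≤ k * (r * ‖v‖) := by gcongr
          _ = r * (k * ‖v‖) := by ring
      have h4 := (abs_le.1 (h2.trans (h3.trans hr2))).1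
      have h5 := (le_abs_self _).trans h1
      linarith
    have hUpos : 0 < volume U := measure_ball_pos _ _ hr0
    have hdisj : Disjoint (polarBody s) U := by
      rw [Set.disjoint_left]
      intro η h1 h2
      exact hU2 η h2 h1
    have h1 : volume (polarBody s) + volume U ≤ volume (polarBody s') := by
      rw [← measure_union hdisj measurableSet_ball]
      refine measure_mono ?_
      rintro η (h | h)
      · exact fun u => (h u).trans (hle u)
      · exact hU1 η h
    have h2 : volume (polarBody s) < volume (polarBody s') :=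
      (ENNReal.lt_add_right (isCompact_polarBody s).measure_lt_top.ne hUpos.ne').trans_le h1
    have h3 : holmesThompson k s < holmesThompson k s' :=
      ENNReal.div_lt_div_right (omega_pos k).ne' (omega_lt_top k).ne h2
    exact h3.ne heq
  meas k S hS := by
    set q := TopologicalSpace.denseSeq (Rk k) with hq
    have hqd : DenseRange q := TopologicalSpace.denseRange_denseSeq _
    have h0 : MeasurableSet {p : Rk k × Rk k | ∀ j, |∑ i, p.2 i * q j i| ≤ S p.1 (q j)} := by
      have : {p : Rk k × Rk k | ∀ j, |∑ i, p.2 i * q j i| ≤ S p.1 (q j)} =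
          ⋂ j, {p : Rk k × Rk k | |∑ i, p.2 i * q j i| ≤ S p.1 (q j)} := by
        ext p; simp
      rw [this]
      refine MeasurableSet.iInter fun j => measurableSet_le ?_ ((hS (q j)).comp measurable_fst)
      fun_prop
    have h1 : ∀ x, polarBody (S x) =
        Prod.mk x ⁻¹' {p : Rk k × Rk k | ∀ j, |∑ i, p.2 i * q j i| ≤ S p.1 (q j)} := by
      intro x
      ext ξ
      simp only [polarBody, mem_ofPred_eq, mem_preimage]
      constructor
      · intro h j; exact h (q j)
      · intro h v
        have hcl : IsClosed {v : Rk k | |∑ i, ξ i * v i| ≤ S x v} :=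
          isClosed_le (by fun_prop) (seminorm_continuous (S x))
        have : v ∈ closure (range q) := hqd v
        exact closure_minimal (by rintro _ ⟨j, rfl⟩; exact h j) hcl this
    have h2 : Measurable fun x => volume (polarBody (S x)) := by
      simp only [h1]
      exact measurable_measure_prodMk_left h0
    exact h2.div_const _

/-- Cramer: if `a` maximises `|det|` among tuples in a set `P`, every element of `P` has
coordinates bounded by one -/
theorem polar_coords {P : Set (Rk k)} {a : Fin k → Rk k} (ha : ∀ j, a j ∈ P)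
    (hmax : ∀ b : Fin k → Rk k, (∀ j, b j ∈ P) → |(Matrix.of b).det| ≤ |(Matrix.of a).det|)
    (hdet : (Matrix.of a).det ≠ 0) {ξ : Rk k} (hξ : ξ ∈ P) :
    ∃ c : Rk k, (∀ j, |c j| ≤ 1) ∧ Matrix.vecMul c (Matrix.of a) = ξ := by
  classical
  set M := Matrix.of a with hM
  refine ⟨fun j => (M.det)⁻¹ * (M.transpose.cramer ξ) j, fun j => ?_, ?_⟩
  · show |(M.det)⁻¹ * (M.transpose.cramer ξ) j| ≤ 1
    rw [Matrix.cramer_transpose_apply, abs_mul, abs_inv,
      inv_mul_le_iff₀ (abs_pos.2 hdet), mul_one]
    have h1 : M.updateRow j ξ = Matrix.of (Function.update a j ξ) := by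
      ext i l
      by_cases hi : i = j
      · subst hi; simp [hM]
      · simp [hM, hi]
    rw [h1]
    refine hmax _ fun i => ?_
    by_cases hi : i = j
    · subst hi; simpa using hξ
    · simpa [hi] using ha i
  · have h1 : M.transpose.mulVec (M.transpose.cramer ξ) = M.transpose.det • ξ :=
      Matrix.mulVec_cramer _ _
    have h2 : (fun j => (M.det)⁻¹ * (M.transpose.cramer ξ) j) =
        (M.det)⁻¹ • M.transpose.cramer ξ := by ext j; simp
    rw [h2, Matrix.smul_vecMul, ← Matrix.mulVec_transpose, h1, Matrix.det_transpose, smul_smul,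
      inv_mul_cancel₀ hdet, one_smul]

/-- the sup norm, as a seminorm -/
noncomputable def supNorm (k : ℕ) : Seminorm ℝ (Rk k) := normSeminorm ℝ (Rk k)

@[simp] theorem supNorm_apply (v : Rk k) : supNorm k v = ‖v‖ := rfl

theorem isNormLike_supNorm (k : ℕ) : IsNormLike (supNorm k) := ⟨1, fun v => by simp⟩

/-- linear maps bounded by a norm have controlled determinant -/
theorem IsGoodVolume.det_le {J : FinslerVolume} (hJ : IsGoodVolume J) (k : ℕ) {L : ℝ}
    (hL : 0 < L) : ∃ c : ℝ≥0∞, c < ∞ ∧ ∀ (s : Seminorm ℝ (Rk k)) (A : Rk k →ₗ[ℝ] Rk k),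
      (∀ v, ‖A v‖ ≤ L * s v) → ENNReal.ofReal |LinearMap.det A| ≤ c * J k s := by
  have hJ0 := hJ.pos k _ (isNormLike_supNorm k)
  have hJ1 := hJ.lt_top k (supNorm k)
  refine ⟨ENNReal.ofReal (L ^ k) / J k (supNorm k), ENNReal.div_lt_top (by simp) hJ0.ne', ?_⟩
  intro s A hA
  by_cases hdet : LinearMap.det A = 0
  · rw [hdet]; simp
  set B : Rk k →ₗ[ℝ] Rk k := L⁻¹ • A with hB
  have hBdet : LinearMap.det B = (L⁻¹) ^ k * LinearMap.det A := by
    rw [hB, LinearMap.det_smul]; simp
  have hBdet0 : LinearMap.det B ≠ 0 := by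
    rw [hBdet]; exact mul_ne_zero (by positivity) hdet
  have h1 : ∀ v, ((supNorm k).comp B) v ≤ s v := by
    intro v
    rw [Seminorm.comp_apply, supNorm_apply, hB, LinearMap.smul_apply, norm_smul, norm_inv,
      Real.norm_eq_abs, abs_of_pos hL, inv_mul_le_iff₀ hL]
    exact hA v
  have h2 := hJ.mono k _ _ h1
  rw [hJ.comp k _ B hBdet0, hBdet, abs_mul, abs_of_nonneg (by positivity : (0 : ℝ) ≤ L⁻¹ ^ k),
    ENNReal.ofReal_mul (by positivity)] at h2
  have h3 : ENNReal.ofReal (L ^ k) * ENNReal.ofReal (L⁻¹ ^ k) = 1 := by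
    rw [← ENNReal.ofReal_mul (by positivity), ← mul_pow, mul_inv_cancel₀ hL.ne', one_pow,
      ENNReal.ofReal_one]
  calc ENNReal.ofReal |LinearMap.det A|
      = (ENNReal.ofReal (L ^ k) * ENNReal.ofReal (L⁻¹ ^ k)) * ENNReal.ofReal |LinearMap.det A| *
        (J k (supNorm k) / J k (supNorm k)) := by
        rw [h3, ENNReal.div_self hJ0.ne' hJ1.ne, one_mul, mul_one]
    _ = ENNReal.ofReal (L ^ k) / J k (supNorm k) *
        (ENNReal.ofReal (L⁻¹ ^ k) * ENNReal.ofReal |LinearMap.det A| * J k (supNorm k)) := by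
        rw [div_eq_mul_inv, div_eq_mul_inv]; ring
    _ ≤ ENNReal.ofReal (L ^ k) / J k (supNorm k) * J k s := by gcongr

/-- the Holmes-Thompson volume is at most a constant times the Busemann volume -/
theorem holmesThompson_le (k : ℕ) : ∃ c : ℝ≥0∞, c < ∞ ∧ ∀ s : Seminorm ℝ (Rk k), IsNormLike s →
    holmesThompson k s ≤ c * busemann k s := by
  have hJ0 := isGoodVolume_busemann.pos k _ (isNormLike_supNorm k)
  have hJ1 := isGoodVolume_busemann.lt_top k (supNorm k)
  refine ⟨(2 : ℝ≥0∞) ^ k / (omega k * busemann k (supNorm k)), ENNReal.div_lt_top (by simp)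
    (mul_ne_zero (omega_pos k).ne' hJ0.ne'), ?_⟩
  intro s hs
  have hcomp : IsCompact (Set.pi univ fun _ : Fin k => polarBody s) :=
    isCompact_univ_pi fun _ => isCompact_polarBody s
  have hcont : Continuous fun b : Fin k → Rk k => |(Matrix.of b).det| := by
    refine Continuous.abs (Continuous.matrix_det ?_)
    exact continuous_id
  obtain ⟨a, haP, hamax⟩ := hcomp.exists_isMaxOn
    ⟨0, fun j _ => (by intro v; simp : (0 : Rk k) ∈ polarBody s)⟩ hcont.continuousOn
  have ha : ∀ j, a j ∈ polarBody s := fun j => haP j (mem_univ j)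
  have hmax : ∀ b : Fin k → Rk k, (∀ j, b j ∈ polarBody s) →
      |(Matrix.of b).det| ≤ |(Matrix.of a).det| := fun b hb => hamax (fun j _ => hb j)
  have hdet : (Matrix.of a).det ≠ 0 := by
    obtain ⟨δ, hδ, hball⟩ := hs.exists_ball_subset
    have h1 := hmax (fun j => (δ / 2) • (Pi.single j 1 : Rk k)) (fun j => hball (by
      rw [mem_ball_zero_iff, norm_smul, Real.norm_eq_abs, abs_of_pos (half_pos hδ)]
      have : ‖(Pi.single j 1 : Rk k)‖ ≤ 1 := by
        rw [pi_norm_le_iff_of_nonneg zero_le_one]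
        intro i
        by_cases hi : i = j
        · subst hi; simp
        · simp [hi]
      nlinarith))
    have h2 : (Matrix.of fun j => (δ / 2) • (Pi.single j 1 : Rk k)) =
        (δ / 2) • (1 : Matrix (Fin k) (Fin k) ℝ) := by
      ext i j
      simp [Matrix.one_apply, Pi.single_apply, eq_comm]
    rw [h2, Matrix.det_smul, Matrix.det_one, mul_one] at h1
    intro h3
    rw [h3, abs_zero] at h1
    have : 0 < |(δ / 2) ^ Fintype.card (Fin k)| := by positivity
    linarith
  set M := Matrix.of a with hM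
  set T : Rk k →ₗ[ℝ] Rk k := Matrix.toLin' M.transpose with hT
  have hTdet : LinearMap.det T = M.det := by
    rw [hT, LinearMap.det_toLin', Matrix.det_transpose]
  have hsub : polarBody s ⊆ T '' (Icc (fun _ => -1) (fun _ => 1)) := by
    intro ξ hξ
    obtain ⟨c, hc, hcξ⟩ := polar_coords ha hmax hdet hξ
    refine ⟨c, ⟨fun j => (abs_le.1 (hc j)).1, fun j => (abs_le.1 (hc j)).2⟩, ?_⟩
    rw [hT, Matrix.toLin'_apply, Matrix.mulVec_transpose, hcξ]
  have hvol : volume (polarBody s) ≤ ENNReal.ofReal |M.det| * 2 ^ k := by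
    refine (measure_mono hsub).trans ?_
    rw [Measure.addHaar_image_linearMap, hTdet, Real.volume_Icc_pi]
    have h2 : ENNReal.ofReal ((1 : ℝ) - -1) = 2 := by norm_num
    simp only [h2, Finset.prod_const, Finset.card_univ, Fintype.card_fin]
    exact le_refl _
  -- lower bound for the Busemann volume
  set A : Rk k →ₗ[ℝ] Rk k := Matrix.toLin' M with hA
  have hAdet : LinearMap.det A = M.det := by rw [hA, LinearMap.det_toLin']
  have h1 : ∀ v, ((supNorm k).comp A) v ≤ s v := by
    intro v
    rw [Seminorm.comp_apply, supNorm_apply, pi_norm_le_iff_of_nonneg (apply_nonneg s v)]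
    intro j
    rw [Real.norm_eq_abs]
    exact ha j v
  have h2 := isGoodVolume_busemann.mono k _ _ h1
  rw [isGoodVolume_busemann.comp k _ A (by rwa [hAdet]), hAdet] at h2
  rw [holmesThompson_eq]
  calc volume (polarBody s) / omega k ≤ ENNReal.ofReal |M.det| * 2 ^ k / omega k := by gcongr
    _ = 2 ^ k / (omega k * busemann k (supNorm k)) *
        (ENNReal.ofReal |M.det| * busemann k (supNorm k)) := by
        rw [div_eq_mul_inv, div_eq_mul_inv, ENNReal.mul_inv (Or.inl (omega_pos k).ne')
          (Or.inl (omega_lt_top k).ne)]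
        calc ENNReal.ofReal |M.det| * 2 ^ k * (omega k)⁻¹
            = ENNReal.ofReal |M.det| * 2 ^ k * (omega k)⁻¹ *
              ((busemann k (supNorm k))⁻¹ * busemann k (supNorm k)) := by
              rw [ENNReal.inv_mul_cancel hJ0.ne' hJ1.ne, mul_one]
          _ = _ := by ring
    _ ≤ 2 ^ k / (omega k * busemann k (supNorm k)) * busemann k s := by gcongr

end FinslerRigid
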