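import Pool.Agent.FinslerRigid.Kirchheim
import Pool.Agent.FinslerRigid.Volumes
import Pool.Agent.FinslerRigid.Area

/-!
# Parametrisations as one measure space
-/

open MeasureTheory Set Filter Topology Asymptotics Metric
open scoped NNReal ENNReal

namespace FinslerRigid

namespace LipParam

variable {k : ℕ} {Z : Type*} [MetricSpace Z] (R : LipParam k Z)

/-- the disjoint union of the pieces with Lebesgue measure -/
noncomputable def vol : Measure (ℕ × Rk k) :=
  Measure.sum fun i => (volume.restrict (R.K i)).map (Prod.mk i)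

/-- the parametrisation -/
def Φ (p : ℕ × Rk k) : Z := R.φ p.1 p.2

/-- the multiplicity -/
def Θ (p : ℕ × Rk k) : ℤ := R.θ p.1 p.2

/-- the metric derivative -/
noncomputable def md (p : ℕ × Rk k) : Seminorm ℝ (Rk k) := metricDeriv (R.φ p.1) (R.K p.1) p.2

/-- the derivative of `G ∘ φ` -/
noncomputable def D {F : Type*} [NormedAddCommGroup F] [NormedSpace ℝ F] (G : Z → F)
    (p : ℕ × Rk k) : Rk k →L[ℝ] F :=
  fderivWithin ℝ (fun y => G (R.φ p.1 y)) (R.K p.1) p.2

theorem _root_.FinslerRigid.enorm_intCast (n : ℤ) : ‖(n : ℝ)‖ₑ = (n.natAbs : ℝ≥0∞) := by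
  rw [← ofReal_norm, Real.norm_eq_abs]
  have : |(n : ℝ)| = (n.natAbs : ℝ) := by
    rw [← Int.cast_abs, Nat.cast_natAbs]
  rw [this, ENNReal.ofReal_natCast]

theorem ae_vol {P : ℕ × Rk k → Prop} :
    (∀ᵐ p ∂(R.vol), P p) ↔ ∀ i, ∀ᵐ x ∂(volume.restrict (R.K i)), P (i, x) := by
  rw [vol, Measure.ae_sum_iff]
  refine forall_congr' fun i => ?_
  exact (measurableEmbedding_prodMk_left i).ae_map_iff

theorem lintegral_vol (g : ℕ × Rk k → ℝ≥0∞) :
    ∫⁻ p, g p ∂(R.vol) = ∑' i, ∫⁻ x in R.K i, g (i, x) := by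
  rw [vol, lintegral_sum_measure]
  refine tsum_congr fun i => ?_
  exact (measurableEmbedding_prodMk_left i).lintegral_map _

theorem integral_vol {g : ℕ × Rk k → ℝ} (hg : Integrable g R.vol) :
    ∫ p, g p ∂(R.vol) = ∑' i, ∫ x in R.K i, g (i, x) := by
  rw [vol] at hg ⊢
  rw [integral_sum_measure hg]
  refine tsum_congr fun i => ?_
  exact (measurableEmbedding_prodMk_left i).integral_map _

theorem aemeasurable_vol {β : Type*} [MeasurableSpace β] {g : ℕ × Rk k → β} :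
    AEMeasurable g R.vol ↔ ∀ i, AEMeasurable (fun x => g (i, x)) (volume.restrict (R.K i)) := by
  rw [vol, aemeasurable_sum_measure_iff]
  refine forall_congr' fun i => ?_
  exact (measurableEmbedding_prodMk_left i).aemeasurable_map_iff

instance : SFinite R.vol := by unfold vol; infer_instance

theorem ae_mem : ∀ᵐ p ∂(R.vol), p.2 ∈ R.K p.1 :=
  R.ae_vol.2 fun i => ae_restrict_mem (R.measurableSet_K i)

theorem ae_isDP' : ∀ᵐ p ∂(R.vol), IsDP (R.K p.1) p.2 :=
  R.ae_vol.2 fun _ => ae_isDP _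

theorem ae_hasMD : ∀ᵐ p ∂(R.vol),
    HasMetricDerivWithinAt (R.φ p.1) (R.md p) (R.K p.1) p.2 := by
  refine R.ae_vol.2 fun i => ?_
  obtain ⟨C, hC⟩ := R.lipschitz i
  exact ae_hasMetricDerivWithinAt (R.measurableSet_K i) hC

theorem measurable_Θ : Measurable R.Θ :=
  measurable_from_prod_countable_right fun i => R.measurable_θ i

theorem aemeasurable_J {J : FinslerVolume} (hJ : IsGoodVolume J) :
    AEMeasurable (fun p => J k (R.md p)) R.vol := by
  refine R.aemeasurable_vol.2 fun i => ?_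
  obtain ⟨C, hC⟩ := R.lipschitz i
  obtain ⟨S, hS, hae⟩ := exists_measurable_metricDeriv (R.measurableSet_K i) hC
  refine ⟨fun x => J k (S x), hJ.meas k S hS, ?_⟩
  filter_upwards [hae] with x hx
  show J k (metricDeriv (R.φ i) (R.K i) x) = _
  rw [hx]

theorem aemeasurable_Φ [MeasurableSpace Z] [BorelSpace Z] : AEMeasurable R.Φ R.vol := by
  refine R.aemeasurable_vol.2 fun i => ?_
  obtain ⟨C, hC⟩ := R.lipschitz i
  exact hC.continuousOn.aemeasurable (R.measurableSet_K i)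

theorem mass_eq (J : FinslerVolume) :
    R.mass J = ∫⁻ p, ((R.Θ p).natAbs : ℝ≥0∞) * J k (R.md p) ∂(R.vol) := by
  rw [lintegral_vol]; rfl

section Lip

variable {F : Type*} [NormedAddCommGroup F] [NormedSpace ℝ F] [FiniteDimensional ℝ F]
  {G : Z → F} {L : ℝ≥0}

omit [NormedSpace ℝ F] [FiniteDimensional ℝ F] in
theorem lipschitzOn_comp (hG : LipschitzWith L G) (i : ℕ) :
    ∃ C : ℝ≥0, LipschitzOnWith C (fun y => G (R.φ i y)) (R.K i) := by
  obtain ⟨C, hC⟩ := R.lipschitz i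
  exact ⟨L * C, hG.comp_lipschitzOnWith hC⟩

theorem ae_hasFDeriv (hG : LipschitzWith L G) : ∀ᵐ p ∂(R.vol),
    HasFDerivWithinAt (fun y => G (R.φ p.1 y)) (R.D G p) (R.K p.1) p.2 := by
  refine R.ae_vol.2 fun i => ?_
  obtain ⟨C, hC⟩ := R.lipschitzOn_comp hG i
  filter_upwards [hC.ae_differentiableWithinAt (R.measurableSet_K i)] with x hx
  exact hx.hasFDerivWithinAt

theorem ae_D_le (hG : LipschitzWith L G) : ∀ᵐ p ∂(R.vol), ∀ v,
    ‖R.D G p v‖ ≤ L * R.md p v := by
  filter_upwards [R.ae_mem, R.ae_isDP', R.ae_hasMD, R.ae_hasFDeriv hG] with p h1 h2 h3 h4 v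
  refine HasMetricDerivWithinAt.apply_le h2 h3 h4 (P := normSeminorm ℝ F) (C := 1) (by simp) ?_ v
  intro y hy
  have := hG.dist_le_mul (R.φ p.1 y) (R.φ p.1 p.2)
  rwa [dist_eq_norm] at this

/-- a comparison with respect to another seminorm on the target -/
theorem ae_D_le_seminorm (hG : LipschitzWith L G) {P : Seminorm ℝ F} {c : ℝ}
    (hPc : ∀ w, P w ≤ c * ‖w‖) {M : ℝ} (hM : ∀ z z', P (G z - G z') ≤ M * dist z z') :
    ∀ᵐ p ∂(R.vol), ∀ v, P (R.D G p v) ≤ M * R.md p v := by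
  filter_upwards [R.ae_mem, R.ae_isDP', R.ae_hasMD, R.ae_hasFDeriv hG] with p h1 h2 h3 h4 v
  exact HasMetricDerivWithinAt.apply_le h2 h3 h4 hPc (fun y hy => hM _ _) v

end Lip

variable {G : Z → Rk k} {L : ℝ≥0}

theorem aemeasurable_det (hG : LipschitzWith L G) :
    AEMeasurable (fun p => (R.D G p).det) R.vol := by
  refine R.aemeasurable_vol.2 fun i => ?_
  obtain ⟨C, hC⟩ := R.lipschitzOn_comp hG i
  obtain ⟨v, hv, he⟩ := hC.extend_pi
  refine ⟨fun x => (fderiv ℝ v x).det, measurable_det_fderiv, ?_⟩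
  filter_upwards [ae_fderivWithin_eq_of_eqOn hv he (R.measurableSet_K i)] with x hx
  show (fderivWithin ℝ (fun y => G (R.φ i y)) (R.K i) x).det = _
  rw [hx.2.2]

theorem exists_det_le {J : FinslerVolume} (hJ : IsGoodVolume J) (hG : LipschitzWith L G) :
    ∃ c : ℝ≥0∞, c < ∞ ∧ ∀ᵐ p ∂(R.vol), ENNReal.ofReal |(R.D G p).det| ≤ c * J k (R.md p) := by
  obtain ⟨c, hc, h⟩ := hJ.det_le k (show (0 : ℝ) < L + 1 by positivity)
  refine ⟨c, hc, ?_⟩
  filter_upwards [R.ae_D_le hG] with p hp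
  refine h (R.md p) (R.D G p : Rk k →ₗ[ℝ] Rk k) fun v => (hp v).trans ?_
  gcongr
  linarith

theorem integrable_det {J : FinslerVolume} (hJ : IsGoodVolume J) (hm : R.mass J < ∞)
    (hG : LipschitzWith L G) :
    Integrable (fun p => (R.Θ p : ℝ) * (R.D G p).det) R.vol := by
  have hmeas : AEMeasurable (fun p => (R.Θ p : ℝ) * (R.D G p).det) R.vol :=
    ((measurable_from_top.comp R.measurable_Θ).aemeasurable (f := fun p => (R.Θ p : ℝ))).mul
      (R.aemeasurable_det hG)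
  refine ⟨hmeas.aestronglyMeasurable, ?_⟩
  obtain ⟨c, hc, h⟩ := R.exists_det_le hJ hG
  rw [HasFiniteIntegral]
  have h1 : ∀ᵐ p ∂(R.vol), ‖(R.Θ p : ℝ) * (R.D G p).det‖ₑ ≤
      c * (((R.Θ p).natAbs : ℝ≥0∞) * J k (R.md p)) := by
    filter_upwards [h] with p hp
    rw [enorm_mul]
    have e1 : ‖(R.Θ p : ℝ)‖ₑ = ((R.Θ p).natAbs : ℝ≥0∞) := enorm_intCast _
    have e2 : ‖(R.D G p).det‖ₑ = ENNReal.ofReal |(R.D G p).det| := by
      rw [← ofReal_norm, Real.norm_eq_abs]
    rw [e1, e2]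
    calc ((R.Θ p).natAbs : ℝ≥0∞) * ENNReal.ofReal |(R.D G p).det|
        ≤ ((R.Θ p).natAbs : ℝ≥0∞) * (c * J k (R.md p)) := by gcongr
      _ = c * (((R.Θ p).natAbs : ℝ≥0∞) * J k (R.md p)) := by ring
  refine (lintegral_mono_ae h1).trans_lt ?_
  rw [lintegral_const_mul' _ _ hc.ne, ← R.mass_eq]
  exact ENNReal.mul_lt_top hc hm

theorem integrable_mul {J : FinslerVolume} (hJ : IsGoodVolume J) (hm : R.mass J < ∞)
    (hG : LipschitzWith L G) {g : ℕ × Rk k → ℝ} (hg : AEMeasurable g R.vol) {M : ℝ}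
    (hM : ∀ p, |g p| ≤ M) :
    Integrable (fun p => (R.Θ p : ℝ) * g p * (R.D G p).det) R.vol := by
  have h1 := (R.integrable_det hJ hm hG).bdd_mul (c := M) hg.aestronglyMeasurable
    (Eventually.of_forall fun p => by rw [Real.norm_eq_abs]; exact hM p)
  refine h1.congr (Eventually.of_forall fun p => ?_)
  show g p * ((R.Θ p : ℝ) * (R.D G p).det) = _
  ring

/-- integral formula for the current of a parametrisation of finite mass -/
theorem current_eq {J : FinslerVolume} (hJ : IsGoodVolume J) (hm : R.mass J < ∞)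
    {h : Z → ℝ} {π : Fin k → Z → ℝ} (hh : Continuous h) {M : ℝ} (hM : ∀ z, |h z| ≤ M)
    (hπ : LipschitzWith L fun z j => π j z) :
    R.current h π = ∫ p, (R.Θ p : ℝ) * h (R.Φ p) * (R.D (fun z j => π j z) p).det ∂(R.vol) := by
  let _ : MeasurableSpace Z := borel Z
  have : BorelSpace Z := ⟨rfl⟩
  have hg : AEMeasurable (fun p => h (R.Φ p)) R.vol := hh.measurable.comp_aemeasurable R.aemeasurable_Φ
  rw [R.integral_vol (R.integrable_mul hJ hm hπ hg (fun p => hM _))]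
  rfl

end LipParam

theorem exists_lipschitz_pi {ι : Type*} [Fintype ι] {Z : Type*} [MetricSpace Z] {π : ι → Z → ℝ}
    (h : ∀ j, IsLip (π j)) : ∃ L : ℝ≥0, LipschitzWith L fun z j => π j z := by
  choose C hC using h
  refine ⟨∑ j, C j, LipschitzWith.of_dist_le_mul fun x y => ?_⟩
  rw [dist_pi_le_iff (by positivity)]
  intro j
  refine ((hC j).dist_le_mul x y).trans ?_
  gcongr
  exact Finset.single_le_sum (f := C) (fun i _ => zero_le) (Finset.mem_univ j)

end FinslerRigid
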