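import Pool.Agent.FinslerRigid.Inject
import Pool.Agent.FinslerRigid.Mollify

/-!
# The weak derivative bound
-/

open MeasureTheory Set Filter Topology Asymptotics Metric
open scoped NNReal ENNReal

namespace FinslerRigid

variable {m : ℕ} {E : Type*} [NormedAddCommGroup E] [NormedSpace ℝ E]
  {Z : Type*} [MetricSpace Z]

/-- determinant of a map with one special row -/
theorem det_first_row (ξ : Rk (m + 1) →L[ℝ] ℝ) {W : Rk (m + 1) →L[ℝ] Rk (m + 1)}
    (h0 : ∀ y, W y 0 = ξ y) (h1 : ∀ y (j : Fin m), W y j.succ = y j.succ) :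
    W.det = ξ (Pi.single 0 1) := by
  have h2 : W.det = (LinearMap.toMatrix' (W : Rk (m + 1) →ₗ[ℝ] Rk (m + 1))).det := by
    rw [LinearMap.det_toMatrix']
  rw [h2, Matrix.det_of_isUpperTriangular, Fin.prod_univ_succ]
  · simp only [LinearMap.toMatrix'_apply, ContinuousLinearMap.coe_coe, h0, h1]
    simp
  · intro i j hij
    have h3 : i ≠ 0 := by
      rintro rfl
      exact absurd hij (not_lt.2 (Fin.zero_le j))
    obtain ⟨i', rfl⟩ := Fin.exists_succ_eq.2 h3
    rw [LinearMap.toMatrix'_apply, ContinuousLinearMap.coe_coe, h1]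
    have h4 : i'.succ ≠ j := fun h => absurd hij (by rw [h]; exact lt_irrefl _)
    simp [h4]

/-- the determinant in the integration by parts -/
theorem det_row_comp (A : Rk (m + 1) ≃L[ℝ] Rk (m + 1)) (B W : Rk (m + 1) →L[ℝ] Rk (m + 1))
    (ξ : Rk (m + 1) →L[ℝ] ℝ) (h0 : ∀ x, W x 0 = ξ (B x))
    (h1 : ∀ x (j : Fin m), W x j.succ = A.symm (B x) j.succ) :
    W.det * (A : Rk (m + 1) →L[ℝ] Rk (m + 1)).det = ξ (A (Pi.single 0 1)) * B.det := by
  -- `W = W₀ ∘ A⁻¹ ∘ B`
  set W₀ : Rk (m + 1) →L[ℝ] Rk (m + 1) := ContinuousLinearMap.pi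
    (Fin.cons (ξ.comp (A : Rk (m + 1) →L[ℝ] Rk (m + 1)))
      (fun j => ContinuousLinearMap.proj j.succ)) with hW₀
  have hW : W = W₀.comp ((A.symm : Rk (m + 1) →L[ℝ] Rk (m + 1)).comp B) := by
    ext x j
    refine Fin.cases ?_ (fun i => ?_) j
    · simp [hW₀, h0]
    · simp [hW₀, h1]
  have hd0 : W₀.det = ξ (A (Pi.single 0 1)) := by
    rw [det_first_row (ξ.comp (A : Rk (m + 1) →L[ℝ] Rk (m + 1)))]
    · rfl
    · intro y; simp [hW₀]
    · intro y j; simp [hW₀]
  have hcomp : ∀ P Q : Rk (m + 1) →L[ℝ] Rk (m + 1), (P.comp Q).det = P.det * Q.det := by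
    intro P Q
    exact LinearMap.det_comp (P : Rk (m + 1) →ₗ[ℝ] Rk (m + 1)) (Q : Rk (m + 1) →ₗ[ℝ] Rk (m + 1))
  have hAA : (A.symm : Rk (m + 1) →L[ℝ] Rk (m + 1)).det *
      (A : Rk (m + 1) →L[ℝ] Rk (m + 1)).det = 1 := by
    rw [← hcomp]
    have : (A.symm : Rk (m + 1) →L[ℝ] Rk (m + 1)).comp (A : Rk (m + 1) →L[ℝ] Rk (m + 1)) =
        ContinuousLinearMap.id ℝ _ := by
      ext x; simp
    rw [this]
    exact LinearMap.det_id
  rw [hW, hcomp, hcomp, hd0]
  calc ξ (A (Pi.single 0 1)) * ((A.symm : Rk (m + 1) →L[ℝ] Rk (m + 1)).det * B.det) *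
        (A : Rk (m + 1) →L[ℝ] Rk (m + 1)).det
      = ξ (A (Pi.single 0 1)) * B.det * ((A.symm : Rk (m + 1) →L[ℝ] Rk (m + 1)).det *
        (A : Rk (m + 1) →L[ℝ] Rk (m + 1)).det) := by ring
    _ = _ := by rw [hAA, mul_one]

namespace Setup

variable {J : FinslerVolume} {e : E ≃L[ℝ] Rk (m + 1)} {Y : Set E} {f : Z → E}
  {T : MetricFunctional (m + 1) Z} {R : LipParam (m + 1) Z} (S : Setup J e Y f T R)

include S

/-- **the weak derivative bound**, upstairs -/
theorem weak_bound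
    (hbd : ∀ (h : Z → ℝ) (π : Fin m → Z → ℝ), Admissible h π →
      (∀ z, f z ∉ interior Y → h z = 0) → boundary T h π = 0)
    {u : Z → ℝ} {c : ℝ≥0} (hu : LipschitzWith c u) {M : ℝ} (hM : ∀ z, |u z| ≤ M)
    {v : Rk (m + 1)} (hv : v ≠ 0) {h : Rk (m + 1) → ℝ} (hh : ContDiff ℝ 1 h)
    (hc : HasCompactSupport h) (hs : tsupport h ⊆ interior (e '' Y)) :
    |∫ q, dens e f R q * (u (R.Φ q) * fderiv ℝ h (coordMap e f (R.Φ q)) v) ∂(R.vol)| ≤
      c * coordNorm e v * ∫ q, dens e f R q * |h (coordMap e f (R.Φ q))| ∂(R.vol) := by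
  let _ : MeasurableSpace Z := borel Z
  have : BorelSpace Z := ⟨rfl⟩
  obtain ⟨A, hA⟩ := SeparatingDual.exists_continuousLinearEquiv_apply_eq (R := ℝ)
    (x := (Pi.single 0 1 : Rk (m + 1))) (y := v) (by simp) hv
  obtain ⟨Ch, hCh⟩ := ContDiff.lipschitzWith_of_hasCompactSupport hc hh one_ne_zero
  obtain ⟨Bh, hBh⟩ := hc.exists_bound_of_continuous hh.continuous
  obtain ⟨Bd, hBd⟩ := (hc.fderiv ℝ).exists_bound_of_continuous (hh.continuous_fderiv one_ne_zero)
  simp only [Real.norm_eq_abs] at hBh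
  set w : Z → ℝ := fun z => u z * h (coordMap e f z) with hw
  have hwlip : IsLip w := IsLip.mul ⟨c, hu⟩ ⟨_, hCh.comp S.lip⟩ hM (fun z => hBh _)
  set ℓ : Fin m → Z → ℝ := fun j z => A.symm (coordMap e f z) j.succ with hℓ
  have hℓlip : ∀ j, IsLip (ℓ j) := by
    intro j
    have h1 := (A.symm : Rk (m + 1) →L[ℝ] Rk (m + 1)).lipschitz.comp S.lip
    refine ⟨_, LipschitzWith.of_dist_le_mul fun x y =>
      (dist_le_pi_dist (A.symm (coordMap e f x)) (A.symm (coordMap e f y)) j.succ).trans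
        (h1.dist_le_mul x y)⟩
  have hwb : ∃ B, ∀ z, |w z| ≤ B := ⟨M * Bh, fun z => by
    rw [hw]
    dsimp only
    rw [abs_mul]
    exact mul_le_mul (hM z) (hBh _) (abs_nonneg _) ((abs_nonneg _).trans (hM z))⟩
  have hw0 : ∀ z, f z ∉ interior Y → w z = 0 := by
    intro z hz
    have : h (coordMap e f z) = 0 := by
      by_contra hne
      have h1 : coordMap e f z ∈ interior (e '' Y) := hs (subset_tsupport h hne)
      have h2 : interior (e '' Y) = e '' interior Y := (e.toHomeomorph.image_interior Y).symm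
      rw [h2] at h1
      obtain ⟨y, hy, hyz⟩ := h1
      have : y = f z := e.injective hyz
      exact hz (this ▸ hy)
    rw [hw]
    dsimp only
    rw [this, mul_zero]
  have hb := hbd w ℓ ⟨hwlip, hwb, hℓlip⟩ hw0
  set q0 : Fin (m + 1) → Z → ℝ := Fin.cons w ℓ with hq0
  have hq0lip : ∀ j, IsLip (q0 j) := by
    intro j
    refine Fin.cases ?_ (fun i => ?_) j
    · simpa [hq0] using hwlip
    · simpa [hq0] using hℓlip i
  obtain ⟨LW, hLW⟩ := exists_lipschitz_pi hq0lip
  set W : Z → Rk (m + 1) := fun z j => q0 j z with hW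
  have hadm : Admissible (fun _ : Z => (1 : ℝ)) q0 :=
    ⟨⟨0, LipschitzWith.const _⟩, ⟨1, fun _ => by simp⟩, hq0lip⟩
  have hb1 : ∫ q, (R.Θ q : ℝ) * (R.D W q).det ∂(R.vol) = 0 := by
    have h1 : T (fun _ => 1) q0 = 0 := hb
    rw [S.hR _ _ hadm, R.current_eq S.hJ S.hm (h := fun _ => (1 : ℝ)) continuous_const (M := 1)
      (fun _ => by simp) hLW] at h1
    rw [← h1]
    refine integral_congr_ae (Eventually.of_forall fun q => ?_)
    show (R.Θ q : ℝ) * (R.D W q).det = (R.Θ q : ℝ) * 1 * (R.D W q).det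
    ring
  set a : ℝ := (A : Rk (m + 1) →L[ℝ] Rk (m + 1)).det with ha
  set g : ℕ × Rk (m + 1) → ℝ := fun q => u (R.Φ q) * fderiv ℝ h (coordMap e f (R.Φ q)) v with hg
  have hgm : AEMeasurable g R.vol := by
    refine (hu.continuous.measurable.comp_aemeasurable R.aemeasurable_Φ).mul ?_
    have h1 : Measurable fun x => fderiv ℝ h x v := measurable_fderiv_apply_const ℝ h v
    exact h1.comp_aemeasurable S.aemeasurable_F
  have hgb : ∀ q, |g q| ≤ M * (Bd * ‖v‖) := by
    intro q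
    rw [hg]
    dsimp only
    rw [abs_mul]
    refine mul_le_mul (hM _) ?_ (abs_nonneg _) ((abs_nonneg _).trans (hM (R.Φ q)))
    exact ((fderiv ℝ h (coordMap e f (R.Φ q))).le_opNorm v).trans (by gcongr; exact hBd _)
  have hint1 : Integrable (fun q => (R.Θ q : ℝ) * (R.D W q).det) R.vol :=
    R.integrable_det S.hJ S.hm hLW
  have hint2 : Integrable (fun q => dens e f R q * g q) R.vol := by
    refine (R.integrable_mul S.hJ S.hm S.lip hgm hgb).congr (Eventually.of_forall fun q => ?_)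
    show (R.Θ q : ℝ) * g q * (R.D (coordMap e f) q).det =
      (R.Θ q : ℝ) * (R.D (coordMap e f) q).det * g q
    ring
  have hhm : AEMeasurable (fun q => |h (coordMap e f (R.Φ q))|) R.vol :=
    (hh.continuous.measurable.comp_aemeasurable S.aemeasurable_F).abs
  have hint3 : Integrable (fun q => dens e f R q * |h (coordMap e f (R.Φ q))|) R.vol := by
    refine (R.integrable_mul S.hJ S.hm S.lip hhm (M := Bh) (fun q => by
      rw [abs_abs]; exact hBh _)).congr (Eventually.of_forall fun q => ?_)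
    show (R.Θ q : ℝ) * |h (coordMap e f (R.Φ q))| * (R.D (coordMap e f) q).det =
      (R.Θ q : ℝ) * (R.D (coordMap e f) q).det * |h (coordMap e f (R.Φ q))|
    ring
  set r : ℕ × Rk (m + 1) → ℝ := fun q =>
    (R.Θ q : ℝ) * (R.D W q).det * a - dens e f R q * g q with hr
  have hintr : ∫ q, r q ∂(R.vol) = -∫ q, dens e f R q * g q ∂(R.vol) := by
    rw [hr, integral_sub (hint1.mul_const a) hint2, integral_mul_const, hb1, zero_mul, zero_sub]
  have hrb : ∀ᵐ q ∂(R.vol), ‖r q‖ ≤
      (c * coordNorm e v) * (dens e f R q * |h (coordMap e f (R.Φ q))|) := by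
    filter_upwards [S.ae_rigid, R.ae_mem, R.ae_isDP', R.ae_hasFDeriv S.lip, R.ae_hasFDeriv hu,
      R.ae_D_le hu] with q h1 h2 h3 h4 h5 h6
    have hpos := h1.1
    have hNv : 0 ≤ coordNorm e v := apply_nonneg _ _
    by_cases hΘ : R.Θ q = 0
    · have h7 : r q = 0 := by
        rw [hr]
        simp [dens, hΘ]
      rw [h7, norm_zero]
      positivity
    obtain ⟨-, hdet, hmd⟩ := h1.2 hΘ
    set DG := R.D (coordMap e f) q with hDG
    set Du := R.D u q with hDu
    set A' := DG.toContinuousLinearEquivOfDetNeZero hdet with hA'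
    have hA'a : ∀ x, A' x = DG x := by
      intro x; rw [hA']; simp
    set F := coordMap e f (R.Φ q) with hF
    have hFh : HasFDerivAt h (fderiv ℝ h F) F := ((hh.differentiable one_ne_zero) F).hasFDerivAt
    have hcomp : HasFDerivWithinAt (fun y => h (coordMap e f (R.φ q.1 y)))
        ((fderiv ℝ h F).comp DG) (R.K q.1) q.2 := hFh.comp_hasFDerivWithinAt q.2 h4
    have hprod := h5.mul hcomp
    set W'' : Rk (m + 1) →L[ℝ] Rk (m + 1) := ContinuousLinearMap.pi
      (Fin.cons (u (R.Φ q) • ((fderiv ℝ h F).comp DG) + h F • Du)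
        (fun j => (ContinuousLinearMap.proj (R := ℝ) (φ := fun _ : Fin (m + 1) => ℝ) j.succ).comp
          ((A.symm : Rk (m + 1) →L[ℝ] Rk (m + 1)).comp DG))) with hW''
    have hWd : HasFDerivWithinAt (fun y => W (R.φ q.1 y)) W'' (R.K q.1) q.2 := by
      rw [hasFDerivWithinAt_pi']
      intro j
      refine Fin.cases ?_ (fun i => ?_) j
      · exact hprod
      · have h7 : HasFDerivWithinAt (fun y => A.symm (coordMap e f (R.φ q.1 y)))
            ((A.symm : Rk (m + 1) →L[ℝ] Rk (m + 1)).comp DG) (R.K q.1) q.2 :=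
          (A.symm : Rk (m + 1) →L[ℝ] Rk (m + 1)).hasFDerivAt.comp_hasFDerivWithinAt q.2 h4
        exact (hasFDerivWithinAt_pi'.1 h7) i.succ
    have hWe : R.D W q = W'' := hWd.fderivWithin h3.uniqueDiffWithinAt
    set ξ : Rk (m + 1) →L[ℝ] ℝ := u (R.Φ q) • fderiv ℝ h F +
      h F • Du.comp (A'.symm : Rk (m + 1) →L[ℝ] Rk (m + 1)) with hξ
    have hdetW := det_row_comp A DG W'' ξ (fun x => by
      simp only [hW'', hξ, ContinuousLinearMap.pi_apply, Fin.cons_zero,
        add_apply, smul_apply,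
        ContinuousLinearMap.comp_apply, smul_eq_mul, ContinuousLinearEquiv.coe_coe, ← hA'a x,
        ContinuousLinearEquiv.symm_apply_apply]) (fun x j => by
      simp only [hW'', ContinuousLinearMap.pi_apply, Fin.cons_succ,
        ContinuousLinearMap.comp_apply, ContinuousLinearMap.proj_apply,
        ContinuousLinearEquiv.coe_coe])
    rw [hA] at hdetW
    have hbnd : |Du (A'.symm v)| ≤ c * coordNorm e v := by
      have h7 := h6 (A'.symm v)
      rw [hmd, ← hA'a, ContinuousLinearEquiv.apply_symm_apply] at h7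
      exact h7
    have hre : r q = dens e f R q * h F * Du (A'.symm v) := by
      have h8 : ξ v = u (R.Φ q) * fderiv ℝ h F v + h F * Du (A'.symm v) := by
        simp [hξ]
      have h9 : dens e f R q = (R.Θ q : ℝ) * DG.det := rfl
      rw [hr]
      dsimp only
      rw [hWe, mul_assoc, hdetW, h8, h9, hg]
      dsimp only
      ring
    rw [hre, Real.norm_eq_abs, abs_mul, abs_mul, abs_of_nonneg hpos]
    calc dens e f R q * |h F| * |Du (A'.symm v)|
        ≤ dens e f R q * |h F| * (c * coordNorm e v) := by gcongr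
      _ = (c * coordNorm e v) * (dens e f R q * |h F|) := by ring
  calc |∫ q, dens e f R q * (u (R.Φ q) * fderiv ℝ h (coordMap e f (R.Φ q)) v) ∂(R.vol)|
      = ‖∫ q, r q ∂(R.vol)‖ := by rw [hintr, norm_neg, Real.norm_eq_abs]
    _ ≤ ∫ q, (c * coordNorm e v) * (dens e f R q * |h (coordMap e f (R.Φ q))|) ∂(R.vol) :=
        norm_integral_le_of_norm_le (hint3.const_mul _) hrb
    _ = _ := integral_const_mul _ _

end Setup

end FinslerRigid
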